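import Pool.Agent.Lib.H90Q.A02
import Pool.Agent.Lib.H90Q.A05
import Pool.Agent.Lib.H90Q.A06

/-!
# Project H46O (MP_a8e959_al, Sylow 2-subgroups of order at most 4): definitions

`IsIrr`, `IsChar` are the irreducible complex characters and the complex characters of an abstract
group (`H90Q/Defs.lean`). The paper proof is `PROOF.md` in this folder.
-/

open scoped Classical ComplexConjugate BigOperators

noncomputable section

namespace Pool.Agent.Lib.H46O

open Pool.Agent.Lib.H90Q

/-- The finite set of the irreducible complex characters of a finite group. -/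
def irrF (X : Type*) [Group X] [Finite X] : Finset (X → ℂ) := (irr_finite X).toFinset

theorem mem_irrF {X : Type*} [Group X] [Finite X] {χ : X → ℂ} : χ ∈ irrF X ↔ IsIrr χ := by
  rw [irrF, Set.Finite.mem_toFinset]
  rfl

/-- `d = |H|⁻¹ ∑_y χ(x ι(y)) conj φ(y)`: the coefficient of `φ` in the class function
`y ↦ χ(x ι(y))` of `H`. -/
def dd {G H : Type*} [Group G] [Group H] [Fintype H] (ι : H →* G) (x : G) (χ : G → ℂ)
    (φ : H → ℂ) : ℂ :=
  (Nat.card H : ℂ)⁻¹ * ∑ y : H, χ (x * ι y) * conj (φ y)

/-- Algebraic integers divisible by two: `z / 2` is an algebraic integer. -/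
def Even2 (z : ℂ) : Prop := IsIntegral ℤ (z / 2)

/-- The local configuration: `P` is an abelian 2-subgroup of odd index containing `x ≠ 1`, `H` is a
group of odd order embedded in the centraliser of `P` such that the centraliser of `x` is `P × H`,
and `A` is the group of automorphisms of `H` induced by the normaliser of `P`. -/
structure Cfg {G H : Type*} [Group G] [Group H] (ι : H →* G) (P : Subgroup G) (x : G)
    (A : Subgroup (MulAut H)) : Prop where
  inj : Function.Injective ι
  odd : Odd (Nat.card H)
  isP : IsPGroup 2 P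
  idx : Odd P.index
  comm : ∀ u ∈ P, ∀ v ∈ P, u * v = v * u
  mem : x ∈ P
  ne : x ≠ 1
  commH : ∀ u ∈ P, ∀ h : H, u * ι h = ι h * u
  cent : ∀ g : G, g * x = x * g → ∃ u ∈ P, ∃ h : H, g = u * ι h
  autA : ∀ α : MulAut H, α ∈ A ↔ ∃ n ∈ Subgroup.normalizer (P : Set G), ∀ h : H, ι (α h) = n * ι h * n⁻¹

/-- The orbit of `φ` under the automorphisms in `A`. -/
def orb {H : Type*} [Group H] [Finite H] (A : Subgroup (MulAut H)) (φ : H → ℂ) :
    Finset (H → ℂ) :=
  (irrF H).filter fun ψ => ∃ α ∈ A, ψ = fun y => φ (α y)

/-- The conjugacy class of `g` as a finite set. -/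
def cls {X : Type*} [Group X] [Fintype X] (g : X) : Finset X :=
  Finset.univ.filter fun k => IsConj g k

end Pool.Agent.Lib.H46O
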