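import Pool.Agent.Lib.H46O.F1

/-!
# Project H46O, chunk F4 (S/M): class sizes are odd
-/

open scoped Classical ComplexConjugate BigOperators

noncomputable section

namespace Pool.Agent.Lib.H46O

variable {G H : Type*} [Group G] [Fintype G] [Group H] [Finite H]

/-- Proof. The number of conjugates is the index of the centraliser (orbit-stabiliser for `ConjAct G`, or
`Subgroup.index_centralizer` if it exists); `P` is contained in the centraliser of `x * ι y`, so this index divides
`P.index` (`Subgroup.index_dvd_of_le`), which is odd. -/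
theorem cfg_class_odd {ι : H →* G} {P : Subgroup G} {x : G} {A : Subgroup (MulAut H)}
    (hC : Cfg ι P x A) (y : H) : Odd (cls (x * ι y)).card := by
  set g : G := x * ι y with hg
  have hPg : ∀ u ∈ P, u * g * u⁻¹ = g := by
    intro u hu
    have h1 : u * x = x * u := hC.comm u hu x hC.mem
    have h2 : u * ι y = ι y * u := hC.commH u hu y
    have h3 : u * (x * ι y) = x * ι y * u := by
      rw [← mul_assoc, h1, mul_assoc, h2, mul_assoc]
    rw [hg, h3, mul_inv_cancel_right]
  have e1 : (cls g).card = (MulAction.orbit (ConjAct G) g).ncard := by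
    rw [← Set.ncard_coe_finset]
    congr 1
    ext k
    rw [ConjAct.mem_orbit_conjAct, isConj_comm]
    simp [cls]
  have e2 : (MulAction.stabilizer (ConjAct G) g).index =
      (MulAction.orbit (ConjAct G) g).ncard := MulAction.index_stabilizer (ConjAct G) g
  let e : G ≃* ConjAct G := ConjAct.toConjAct
  have e3 : (P.map e.toMonoidHom).index = P.index := by
    exact Subgroup.index_map_equiv P e
  have e4 : P.map e.toMonoidHom ≤ MulAction.stabilizer (ConjAct G) g := by
    rintro _ ⟨u, hu, rfl⟩
    rw [MulAction.mem_stabilizer_iff]
    have : (e.toMonoidHom u) • g = u * g * u⁻¹ := ConjAct.toConjAct_smul u g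
    rw [this, hPg u hu]
  have e5 := Subgroup.index_dvd_of_le e4
  rw [e3, e2, ← e1] at e5
  exact Odd.of_dvd_nat hC.idx e5

end Pool.Agent.Lib.H46O
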