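import Pool.Agent.Lib.H46O.F5

/-!
# Project H46O, chunk F6 (L): the orbits of `A` on the irreducible characters of `H`
-/

open scoped Classical ComplexConjugate BigOperators

noncomputable section

namespace Pool.Agent.Lib.H46O

open Pool.Agent.Lib.H90Q

variable {G H : Type*} [Group G] [Finite G] [Group H] [Finite H]

/-- If `n, n'` in the normaliser act in the same way on `P` then the automorphisms `α, α'` agree on characters. Proof.
`m = n'⁻¹ n` centralises `P`, in particular `x`, so `m = u ι h` (`hC.cent`), and `u` centralises `ι H`; so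
`α y = α' (h y h⁻¹)` (`ι` injective), and `φ` is a class function (`char_conj`). -/
theorem cfg_same {ι : H →* G} {P : Subgroup G} {x : G} {A : Subgroup (MulAut H)}
    (hC : Cfg ι P x A) {n n' : G} {α α' : MulAut H} (hα : ∀ h : H, ι (α h) = n * ι h * n⁻¹)
    (hα' : ∀ h : H, ι (α' h) = n' * ι h * n'⁻¹) (h : ∀ u ∈ P, n * u * n⁻¹ = n' * u * n'⁻¹)
    {φ : H → ℂ} (hφ : IsIrr φ) : (fun y => φ (α y)) = fun y => φ (α' y) := by
  have hm : ∀ u ∈ P, (n'⁻¹ * n) * u = u * (n'⁻¹ * n) := by
    intro u hu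
    have h1 := h u hu
    have h2 : n * u = n' * u * n'⁻¹ * n := by rw [← h1]; group
    calc (n'⁻¹ * n) * u = n'⁻¹ * (n * u) := by group
      _ = n'⁻¹ * (n' * u * n'⁻¹ * n) := by rw [h2]
      _ = u * (n'⁻¹ * n) := by group
  obtain ⟨u, hu, k, e⟩ := hC.cent _ (hm x hC.mem)
  have hy : ∀ y : H, α y = α' (k * y * k⁻¹) := by
    intro y
    apply hC.inj
    rw [hα, hα', map_mul, map_mul, map_inv]
    have h1 := hC.commH u hu (k * y * k⁻¹)
    rw [map_mul, map_mul, map_inv] at h1
    have h2 : n = n' * (u * ι k) := by rw [← e]; group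
    rw [h2]
    calc n' * (u * ι k) * ι y * (n' * (u * ι k))⁻¹
        = n' * ((u * (ι k * ι y * (ι k)⁻¹)) * u⁻¹) * n'⁻¹ := by group
      _ = n' * (((ι k * ι y * (ι k)⁻¹) * u) * u⁻¹) * n'⁻¹ := by rw [h1]
      _ = n' * (ι k * ι y * (ι k)⁻¹) * n'⁻¹ := by group
  funext y
  show φ (α y) = φ (α' y)
  rw [hy, map_mul, map_mul, map_inv]
  exact char_conj (isChar_of_isIrr hφ) _ _

private theorem f6_relIndex {ι : H →* G} {P : Subgroup G} {x : G} {A : Subgroup (MulAut H)}
    (hC : Cfg ι P x A) :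
    Odd ((Subgroup.centralizer (P : Set G)).relIndex (Subgroup.normalizer (P : Set G))) := by
  have h1 : P ≤ Subgroup.centralizer (P : Set G) := by
    intro u hu
    rw [Subgroup.mem_centralizer_iff]
    intro v hv
    exact hC.comm v hv u hu
  have h2 := Subgroup.relIndex_dvd_of_le_left (L := Subgroup.normalizer (P : Set G)) h1
  have h3 := Subgroup.relIndex_mul_index (H := P) (K := Subgroup.normalizer (P : Set G)) Subgroup.le_normalizer
  have h4 : (Subgroup.centralizer (P : Set G)).relIndex (Subgroup.normalizer (P : Set G)) ∣ P.index :=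
    h2.trans (Dvd.intro _ h3)
  exact Odd.of_dvd_nat hC.idx h4

private theorem f6_normal (P : Subgroup G) :
    ((Subgroup.centralizer (P : Set G)).subgroupOf (Subgroup.normalizer (P : Set G))).Normal := by
  rw [← Subgroup.normalizerMonoidHom_ker]
  infer_instance

/-- An element of the normaliser has an odd power which centralises `P`. Proof. The centraliser `C` of `P` contains `P`, so
its index in the normaliser `N` is odd, and `n ^ [N : C] ∈ C` (`C` is normal in `N`). -/
theorem cfg_odd_pow {ι : H →* G} {P : Subgroup G} {x : G} {A : Subgroup (MulAut H)}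
    (hC : Cfg ι P x A) {n : G} (hn : n ∈ Subgroup.normalizer (P : Set G)) :
    ∃ m : ℕ, Odd m ∧ ∀ u ∈ P, n ^ m * u * (n ^ m)⁻¹ = u := by
  have hind := f6_relIndex hC
  have hnorm := f6_normal P
  have hmem := Subgroup.pow_index_mem
    (H := (Subgroup.centralizer (P : Set G)).subgroupOf (Subgroup.normalizer (P : Set G)))
    (⟨n, hn⟩ : Subgroup.normalizer (P : Set G))
  refine ⟨_, hind, ?_⟩
  intro u hu
  have h1 := (Subgroup.mem_subgroupOf.1 hmem)
  have h2 := (Subgroup.mem_centralizer_iff.1 h1) u hu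
  rw [Subgroup.coe_pow] at h2
  show n ^ (Subgroup.centralizer (P : Set G)).relIndex (Subgroup.normalizer (P : Set G)) * u *
    (n ^ (Subgroup.centralizer (P : Set G)).relIndex (Subgroup.normalizer (P : Set G)))⁻¹ = u
  rw [mul_inv_eq_iff_eq_mul]
  exact h2.symm

/-- The conjugation action on the elements different from one. -/
private def f6_tau (P : Subgroup G) :
    Subgroup.normalizer (P : Set G) →* Equiv.Perm {u : P // u ≠ 1} :=
  MonoidHom.mk' (fun n => Equiv.Perm.subtypePerm (P.normalizerMonoidHom n).toEquiv (fun u => by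
    rw [Ne, Ne, not_iff_not]
    exact (P.normalizerMonoidHom n).map_eq_one_iff)) (by
    intro a b
    ext u
    simp [map_mul])

private theorem f6_ker (P : Subgroup G) : (f6_tau P).ker =
    (Subgroup.centralizer (P : Set G)).subgroupOf (Subgroup.normalizer (P : Set G)) := by
  rw [← Subgroup.normalizerMonoidHom_ker]
  ext n
  rw [MonoidHom.mem_ker, MonoidHom.mem_ker]
  constructor
  · intro h
    ext u
    by_cases hu : u = 1
    · rw [hu, map_one, map_one]
    · have h1 := congrArg (fun f => ((f ⟨u, hu⟩ : {u : P // u ≠ 1}) : P)) h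
      exact congrArg Subtype.val h1
  · intro h
    ext u
    have h1 : (P.normalizerMonoidHom n) u.1 = u.1 := by rw [h]; rfl
    exact congrArg Subtype.val h1

private theorem f6_dvd [Finite G] (P : Subgroup G) :
    (Subgroup.centralizer (P : Set G)).relIndex (Subgroup.normalizer (P : Set G)) ∣
      (Nat.card P - 1).factorial := by
  have h2 := Subgroup.card_subgroup_dvd_card (f6_tau P).range
  rw [← Subgroup.index_ker, f6_ker, Nat.card_perm] at h2
  have h3 : Nat.card {u : P // u ≠ 1} = Nat.card P - 1 := by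
    have h4 := Nat.card_congr (Equiv.sumCompl (fun u : P => u = 1))
    rw [Nat.card_sum] at h4
    have h5 : Nat.card {u : P // u = 1} = 1 := by
      rw [Nat.card_eq_one_iff_unique]
      exact ⟨⟨fun a b => Subtype.ext (a.2.trans b.2.symm)⟩, ⟨⟨1, rfl⟩⟩⟩
    have h6 : Nat.card {u : P // ¬ u = 1} = Nat.card {u : P // u ≠ 1} := rfl
    omega
  rw [h3] at h2
  exact h2

private theorem f6_orb {ι : H →* G} {P : Subgroup G} {x : G} {A : Subgroup (MulAut H)}
    (hC : Cfg ι P x A) {φ : H → ℂ} (hφ : IsIrr φ) : (orb A φ).card ∣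
      (Subgroup.centralizer (P : Set G)).relIndex (Subgroup.normalizer (P : Set G)) := by
  choose f hfA hf using fun n : Subgroup.normalizer (P : Set G) => cfg_norm hC n.2
  have hmul : ∀ a b, f (a * b) = f a * f b := by
    intro a b
    ext h
    apply hC.inj
    rw [hf, MulAut.mul_apply, hf, hf, Subgroup.coe_mul]
    group
  let Θ : Subgroup.normalizer (P : Set G) →* MulAut H := MonoidHom.mk' f hmul
  have hΘ : ∀ n, Θ n = f n := fun n => rfl
  letI act : MulAction (Subgroup.normalizer (P : Set G)) (H → ℂ) :=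
    { smul := fun n ψ => fun y => ψ ((Θ n)⁻¹ y)
      one_smul := by
        intro ψ
        funext y
        show ψ ((Θ 1)⁻¹ y) = ψ y
        rw [map_one, inv_one, MulAut.one_apply]
      mul_smul := by
        intro a b ψ
        funext y
        show ψ ((Θ (a * b))⁻¹ y) = ψ ((Θ b)⁻¹ ((Θ a)⁻¹ y))
        rw [map_mul, mul_inv_rev, MulAut.mul_apply] }
  have hsm : ∀ n (ψ : H → ℂ), n • ψ = fun y => ψ ((Θ n)⁻¹ y) := fun n ψ => rfl
  have horb : MulAction.orbit (Subgroup.normalizer (P : Set G)) φ = ↑(orb A φ) := by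
    ext ψ
    rw [MulAction.mem_orbit_iff, Finset.mem_coe, orb, Finset.mem_filter, mem_irrF]
    constructor
    · rintro ⟨n, rfl⟩
      refine ⟨isIrr_comp ((Θ n)⁻¹ : MulAut H).toMonoidHom ((Θ n)⁻¹ : MulAut H).surjective hφ,
        (Θ n)⁻¹, ?_, rfl⟩
      exact A.inv_mem (hfA n)
    · rintro ⟨-, α, hα, rfl⟩
      obtain ⟨n, hn, hne⟩ := (hC.autA α).1 hα
      refine ⟨(⟨n, hn⟩ : Subgroup.normalizer (P : Set G))⁻¹, ?_⟩
      rw [hsm, map_inv, inv_inv]
      have h1 : Θ ⟨n, hn⟩ = α := by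
        ext h
        apply hC.inj
        rw [hΘ, hf, hne]
      rw [h1]
  have hidx := MulAction.index_stabilizer (Subgroup.normalizer (P : Set G)) φ
  rw [horb, Set.ncard_coe_finset] at hidx
  rw [← hidx]
  apply Subgroup.index_dvd_of_le
  intro n hn
  rw [MulAction.mem_stabilizer_iff, hsm]
  have hn2 := Subgroup.mem_centralizer_iff.1 (Subgroup.mem_subgroupOf.1 hn)
  have h1 := cfg_same (n := (n : G)⁻¹) (n' := 1) (α := (Θ n)⁻¹) (α' := 1) hC (fun h => by
    rw [← map_inv, hΘ, hf, Subgroup.coe_inv]) (fun h => by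
    rw [MulAut.one_apply]; group) (fun u hu => by
    have h2 := hn2 u hu
    calc (n : G)⁻¹ * u * (n : G)⁻¹⁻¹ = (n : G)⁻¹ * (u * n) := by group
      _ = (n : G)⁻¹ * (n * u) := by rw [h2]
      _ = 1 * u * 1⁻¹ := by group) hφ
  rw [h1]
  rfl

private theorem f6_pow3 {g x : G} (h4 : x ^ 4 = 1) (h : g * x * g⁻¹ = x ^ 3) (j : ℕ) :
    g ^ (2 * j + 1) * x * (g ^ (2 * j + 1))⁻¹ = x ^ 3 := by
  have h9 : g * x ^ 3 * g⁻¹ = x := by
    rw [← conj_pow, h, ← pow_mul]
    calc x ^ (3 * 3) = x ^ 4 * x ^ 4 * x := by group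
      _ = x := by rw [h4, one_mul, one_mul]
  induction j with
  | zero => simpa using h
  | succ j ih =>
    calc g ^ (2 * (j + 1) + 1) * x * (g ^ (2 * (j + 1) + 1))⁻¹
        = g * (g * (g ^ (2 * j + 1) * x * (g ^ (2 * j + 1))⁻¹) * g⁻¹) * g⁻¹ := by group
      _ = x ^ 3 := by rw [ih, h9, h]

private theorem f6_no3 {ι : H →* G} {P : Subgroup G} {x : G} {A : Subgroup (MulAut H)}
    (hC : Cfg ι P x A) (h4 : x ^ 4 = 1) (hx : x * x ≠ 1) {g : G}
    (hg : g ∈ Subgroup.normalizer (P : Set G)) (h : g * x * g⁻¹ = x ^ 3) : False := by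
  obtain ⟨m, ⟨j, rfl⟩, hm⟩ := cfg_odd_pow hC hg
  have h1 := hm x hC.mem
  rw [f6_pow3 h4 h j] at h1
  apply hx
  have h2 : x ^ 3 * x⁻¹ = x * x⁻¹ := by rw [h1]
  calc x * x = x ^ 3 * x⁻¹ := by rw [pow_succ, pow_two, mul_inv_cancel_right]
    _ = 1 := by rw [h2, mul_inv_cancel]

private theorem f6_zp {ι : H →* G} {P : Subgroup G} {x : G} {A : Subgroup (MulAut H)}
    (hC : Cfg ι P x A) (h4 : Nat.card P ∣ 4) (hx : x * x ≠ 1) :
    x ^ 4 = 1 ∧ P = Subgroup.zpowers x := by
  have hle : Subgroup.zpowers x ≤ P := by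
    rw [Subgroup.zpowers_le]
    exact hC.mem
  have h1 : Nat.card (Subgroup.zpowers x) ∣ Nat.card P := Subgroup.card_dvd_of_le hle
  rw [Nat.card_zpowers] at h1
  have h2 : orderOf x ∣ 4 := h1.trans h4
  have h3 : ¬ orderOf x ∣ 2 := by
    rw [orderOf_dvd_iff_pow_eq_one, pow_two]
    exact hx
  have h5 : orderOf x = 4 := by
    have h6 : orderOf x ≤ 4 := Nat.le_of_dvd (by norm_num) h2
    interval_cases hh : orderOf x
    · exact absurd h2 (by norm_num)
    · exact absurd (one_dvd 2) h3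
    · exact absurd (dvd_refl 2) h3
    · exact absurd h2 (by norm_num)
    · rfl
  refine ⟨by rw [← h5]; exact pow_orderOf_eq_one x, ?_⟩
  symm
  apply Subgroup.eq_of_le_of_card_ge hle
  rw [Nat.card_zpowers, h5]
  exact Nat.le_of_dvd (by norm_num) h4

private theorem f6_fixn {ι : H →* G} {P : Subgroup G} {x : G} {A : Subgroup (MulAut H)}
    (hC : Cfg ι P x A) (h4 : Nat.card P ∣ 4) (hx : x * x ≠ 1) {n : G}
    (hn : n ∈ Subgroup.normalizer (P : Set G)) : n * x * n⁻¹ = x := by
  obtain ⟨hx4, hP⟩ := f6_zp hC h4 hx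
  have h1 : n * x * n⁻¹ ∈ P := (Subgroup.mem_set_normalizer_iff.1 hn x).1 hC.mem
  rw [hP] at h1
  obtain ⟨k, hk⟩ := (isOfFinOrder_of_finite x).mem_powers_iff_mem_zpowers.2 h1
  have hk' : n * x * n⁻¹ = x ^ (k % 4) := by
    rw [← hk]
    show x ^ k = x ^ (k % 4)
    conv_lhs => rw [← Nat.div_add_mod k 4, pow_add, pow_mul, hx4, one_pow, one_mul]
  have hlt : k % 4 < 4 := Nat.mod_lt _ (by norm_num)
  have hcase : k % 4 = 0 ∨ k % 4 = 1 ∨ k % 4 = 2 ∨ k % 4 = 3 := by omega
  rcases hcase with h | h | h | h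
  · exfalso
    rw [h, pow_zero, mul_inv_eq_one, mul_eq_left] at hk'
    exact hC.ne hk'
  · rw [h, pow_one] at hk'
    exact hk'
  · exfalso
    rw [h] at hk'
    have h5 : n * x ^ 2 * n⁻¹ = 1 := by
      rw [← conj_pow, hk', ← pow_mul]
      exact hx4
    rw [mul_inv_eq_one, mul_eq_left, pow_two] at h5
    exact hx h5
  · rw [h] at hk'
    exact (f6_no3 hC hx4 hx hn hk').elim

/-- Proof. Let `Nat.card P ∣ 4`; as `1 ≠ x ∈ P` it is `2` or `4`. If it is `2`, or if `P` has an element `u` of order `4`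
(then `P = {1, u, u², u³}` and `n u n⁻¹ ∈ {u, u³}`; the second is excluded by `cfg_odd_pow`), every `n ∈ N_G(P)` centralises
`P`, so by `cfg_same` (with `n' = 1`, `α' = 1`) the orbit is `{φ}`. If `P` is elementary abelian of order `4`, `n` permutes the
three elements different from `1`; by `cfg_odd_pow` the permutation has odd order, so it is trivial or a 3-cycle. If all are
trivial the orbit is `{φ}`. Otherwise let `n₀` act as a 3-cycle `c`, `β ∈ A` from `cfg_norm`; all others act as `1`, `c` or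
`c²`, so the orbit is `{φ, φ ∘ β, φ ∘ β²}` (`cfg_same`), and `φ ∘ β³ = φ`, so it has one or three elements. -/
theorem cfg_orb_card {ι : H →* G} {P : Subgroup G} {x : G} {A : Subgroup (MulAut H)}
    (hC : Cfg ι P x A) (h4 : Nat.card P ∣ 4) {φ : H → ℂ} (hφ : IsIrr φ) :
    (orb A φ).card = 1 ∨ ((orb A φ).card = 3 ∧ Nat.card P = 4) := by
  have h1 := f6_orb hC hφ
  have h2 := f6_dvd P
  have h3 := f6_relIndex hC
  generalize (Subgroup.centralizer (P : Set G)).relIndex (Subgroup.normalizer (P : Set G)) = r at h1 h2 h3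
  have hP1 : Nat.card P ≠ 1 := by
    intro h
    have h5 := Subgroup.eq_bot_of_card_eq P h
    have h6 := hC.mem
    rw [h5, Subgroup.mem_bot] at h6
    exact hC.ne h6
  have hle : Nat.card P ≤ 4 := Nat.le_of_dvd (by norm_num) h4
  have hpos : 0 < Nat.card P := Nat.card_pos
  have hcase : Nat.card P = 2 ∨ Nat.card P = 4 := by
    generalize Nat.card P = c at h4 hP1 hle hpos
    interval_cases c
    · exact absurd rfl hP1
    · exact Or.inl rfl
    · exact absurd h4 (by norm_num)
    · exact Or.inr rfl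
  rcases hcase with h | h
  · left
    rw [h] at h2
    have h5 : r = 1 := Nat.dvd_one.1 (by simpa using h2)
    rw [h5] at h1
    exact Nat.dvd_one.1 h1
  · rw [h] at h2
    have h6 : r ∣ 6 := by simpa [Nat.factorial] using h2
    have h7 : r = 1 ∨ r = 3 := by
      have h8 : r ≤ 6 := Nat.le_of_dvd (by norm_num) h6
      interval_cases r
      · exact absurd h3 (by decide)
      · exact Or.inl rfl
      · exact absurd h3 (by decide)
      · exact Or.inr rfl
      · exact absurd h3 (by decide)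
      · exact absurd h6 (by norm_num)
      · exact absurd h3 (by decide)
    rcases h7 with h7 | h7
    · left
      rw [h7] at h1
      exact Nat.dvd_one.1 h1
    · rw [h7] at h1
      rcases (Nat.dvd_prime Nat.prime_three).1 h1 with h8 | h8
      · exact Or.inl h8
      · exact Or.inr ⟨h8, h⟩

/-- The case of an element of order four (see above). -/
theorem cfg_orb_four {ι : H →* G} {P : Subgroup G} {x : G} {A : Subgroup (MulAut H)}
    (hC : Cfg ι P x A) (h4 : Nat.card P ∣ 4) (hx : x * x ≠ 1) {φ : H → ℂ} (hφ : IsIrr φ) :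
    orb A φ = {φ} := by
  have h1 := f6_orb hC hφ
  obtain ⟨hx4, hP⟩ := f6_zp hC h4 hx
  have h2 : (Subgroup.centralizer (P : Set G)).relIndex (Subgroup.normalizer (P : Set G)) = 1 := by
    rw [Subgroup.relIndex_eq_one]
    intro n hn
    rw [Subgroup.mem_centralizer_iff]
    intro u hu
    have h3 := f6_fixn hC h4 hx hn
    rw [mul_inv_eq_iff_eq_mul] at h3
    have h5 : Commute n x := h3
    have h6 : u ∈ Subgroup.zpowers x := by
      rw [← hP]
      exact hu
    obtain ⟨k, rfl⟩ := Subgroup.mem_zpowers_iff.1 h6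
    exact (h5.zpow_right k).eq.symm
  rw [h2] at h1
  have h3 := Nat.dvd_one.1 h1
  obtain ⟨ψ, hψ⟩ := Finset.card_eq_one.1 h3
  have h5 : φ ∈ orb A φ := by
    rw [orb, Finset.mem_filter, mem_irrF]
    exact ⟨hφ, 1, A.one_mem, rfl⟩
  rw [hψ] at h5 ⊢
  rw [Finset.mem_singleton.1 h5]

/-- Proof. `x` has order four and `P = {1, x, x², x³}`. If `g (x ι y) g⁻¹ = x³ ι y'` then (power `M` of `cfg_pow`)
`g x g⁻¹ = x³`. `g P g⁻¹` is generated by `g x g⁻¹ = x³ ∈ P`, so `g ∈ N_G(P)`; `cfg_odd_pow`: an odd power of `g` centralises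
`P`, but it maps `x` to `x³ = x⁻¹ ≠ x`. -/
theorem cfg_not_inv {ι : H →* G} {P : Subgroup G} {x : G} {A : Subgroup (MulAut H)}
    (hC : Cfg ι P x A) (h4 : Nat.card P ∣ 4) (hx : x * x ≠ 1) (y y' : H) :
    ¬ IsConj (x * ι y) (x ^ 3 * ι y') := by
  intro h
  obtain ⟨hx4, hP⟩ := f6_zp hC h4 hx
  obtain ⟨g, hg⟩ := isConj_iff.1 h
  obtain ⟨M, hM⟩ := cfg_pow hC hC.mem
  have hxM : x ^ M = x := by
    have h1 := hM 1
    rwa [map_one, mul_one] at h1
  have hιM : ∀ k : H, (ι k) ^ M = 1 := by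
    intro k
    have h1 := hM k
    have h2 : Commute x (ι k) := hC.commH x hC.mem k
    rw [h2.mul_pow, hxM, mul_eq_left] at h1
    exact h1
  have h3 : g * x * g⁻¹ = x ^ 3 := by
    have h1 : (g * (x * ι y) * g⁻¹) ^ M = (x ^ 3 * ι y') ^ M := by rw [hg]
    have h2 : Commute (x ^ 3) (ι y') := Commute.pow_left (hC.commH x hC.mem y') 3
    rw [conj_pow, hM, h2.mul_pow, hιM, mul_one, ← pow_mul, mul_comm 3 M, pow_mul, hxM] at h1
    exact h1
  have h9 : g * x ^ 3 * g⁻¹ = x := by
    rw [← conj_pow, h3, ← pow_mul]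
    calc x ^ (3 * 3) = x ^ 4 * x ^ 4 * x := by group
      _ = x := by rw [hx4, one_mul, one_mul]
  refine f6_no3 hC hx4 hx ?_ h3
  rw [Subgroup.mem_set_normalizer_iff]
  intro u
  show u ∈ P ↔ g * u * g⁻¹ ∈ P
  rw [hP, Subgroup.mem_zpowers_iff, Subgroup.mem_zpowers_iff]
  constructor
  · rintro ⟨k, rfl⟩
    refine ⟨3 * k, ?_⟩
    rw [← conj_zpow, h3, ← zpow_natCast, ← zpow_mul]
    norm_num
  · rintro ⟨k, hk⟩
    refine ⟨3 * k, ?_⟩
    have h5 : g * (x ^ (3 * k)) * g⁻¹ = x ^ k := by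
      rw [zpow_mul, ← conj_zpow]
      have h6 : x ^ (3 : ℤ) = x ^ 3 := by exact_mod_cast zpow_natCast x 3
      rw [h6, h9]
    rw [hk] at h5
    exact mul_left_cancel (mul_right_cancel h5)

end Pool.Agent.Lib.H46O
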