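import Pool.Agent.Lib.H46O.M1

/-!
# Project H46O, chunk M2 (L): matching of the rows
-/

open scoped Classical BigOperators

noncomputable section

namespace Pool.Agent.Lib.H46O

private theorem M2_supp {α γ : Type*} (X : Finset α) (Φ : Finset γ) (D : α → γ → ℤ)
    (o : γ → Finset γ) (ho : ∀ φ ∈ Φ, φ ∈ o φ ∧ o φ ⊆ Φ ∧ ∀ ψ ∈ o φ, o ψ = o φ)
    (hD3 : ∀ a ∈ X, ∀ φ ∈ Φ, D a φ ≠ 0 → ∀ ψ ∈ Φ, (D a ψ ≠ 0 ↔ ψ ∈ o φ))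
    (a : α) (ha : a ∈ X) (φ : γ) (hφ : φ ∈ Φ) (h : D a φ ≠ 0) :
    Φ.filter (fun ψ => D a ψ ≠ 0) = o φ := by
  ext ψ
  rw [Finset.mem_filter]
  constructor
  · rintro ⟨h1, h2⟩
    exact (hD3 a ha φ hφ h ψ h1).mp h2
  · intro h1
    have h2 := (ho φ hφ).2.1 h1
    exact ⟨h2, (hD3 a ha φ hφ h ψ h2).mpr h1⟩

private theorem M2_fiber {α γ : Type*} (X : Finset α) (Φ : Finset γ) (D : α → γ → ℤ)
    (o : γ → Finset γ) (ho : ∀ φ ∈ Φ, φ ∈ o φ ∧ o φ ⊆ Φ ∧ ∀ ψ ∈ o φ, o ψ = o φ)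
    (hD3 : ∀ a ∈ X, ∀ φ ∈ Φ, D a φ ≠ 0 → ∀ ψ ∈ Φ, (D a ψ ≠ 0 ↔ ψ ∈ o φ))
    (φ : γ) (hφ : φ ∈ Φ) :
    ∃ e : {a : {a // a ∈ X ∧ ∃ φ ∈ Φ, D a φ ≠ 0} // Φ.filter (fun ψ => D a.1 ψ ≠ 0) = o φ} ≃
        {a // a ∈ X.filter (fun a => D a φ ≠ 0)}, ∀ a, (e a).1 = a.1.1 := by
  have hto : ∀ a : {a : {a // a ∈ X ∧ ∃ φ ∈ Φ, D a φ ≠ 0} //
      Φ.filter (fun ψ => D a.1 ψ ≠ 0) = o φ}, a.1.1 ∈ X.filter (fun a => D a φ ≠ 0) := by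
    rintro ⟨⟨a, ha, _⟩, h⟩
    rw [Finset.mem_filter]
    have h1 : φ ∈ Φ.filter (fun ψ => D a ψ ≠ 0) := by
      have h2 : Φ.filter (fun ψ => D a ψ ≠ 0) = o φ := h
      rw [h2]
      exact (ho φ hφ).1
    exact ⟨ha, (Finset.mem_filter.mp h1).2⟩
  refine ⟨Equiv.ofBijective (fun a => ⟨a.1.1, hto a⟩) ⟨?_, ?_⟩, fun a => rfl⟩
  · intro a b hab
    have h2 : (⟨a.1.1, hto a⟩ : {a // a ∈ X.filter (fun a => D a φ ≠ 0)}) = ⟨b.1.1, hto b⟩ := hab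
    have h1 : a.1.1 = b.1.1 := congrArg
      (fun z : {a // a ∈ X.filter (fun a => D a φ ≠ 0)} => z.1) h2
    exact Subtype.ext (Subtype.ext h1)
  · rintro ⟨a, ha⟩
    have ha' := Finset.mem_filter.mp ha
    exact ⟨⟨⟨a, ha'.1, φ, hφ, ha'.2⟩, M2_supp X Φ D o ho hD3 a ha'.1 φ hφ ha'.2⟩, rfl⟩

private theorem M2_zero {α γ : Type*} (X : Finset α) (Φ : Finset γ) (D : α → γ → ℤ)
    (o : γ → Finset γ) (ho : ∀ φ ∈ Φ, φ ∈ o φ ∧ o φ ⊆ Φ ∧ ∀ ψ ∈ o φ, o ψ = o φ)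
    (hD3 : ∀ a ∈ X, ∀ φ ∈ Φ, D a φ ≠ 0 → ∀ ψ ∈ Φ, (D a ψ ≠ 0 ↔ ψ ∈ o φ))
    (φ : γ) (hφ : φ ∈ Φ) (a : α) (ha : a ∈ X) (h0 : D a φ = 0) (ψ : γ) (hψ : ψ ∈ o φ) :
    D a ψ = 0 := by
  by_contra hn
  have h1 := (hD3 a ha ψ ((ho φ hφ).2.1 hψ) hn φ hφ).mpr
    (by rw [(ho φ hφ).2.2 ψ hψ]; exact (ho φ hφ).1)
  exact h1 h0

private theorem M2_sum {α γ : Type*} (X : Finset α) (Φ : Finset γ) (D : α → γ → ℤ)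
    (o : γ → Finset γ) (ho : ∀ φ ∈ Φ, φ ∈ o φ ∧ o φ ⊆ Φ ∧ ∀ ψ ∈ o φ, o ψ = o φ)
    (hD3 : ∀ a ∈ X, ∀ φ ∈ Φ, D a φ ≠ 0 → ∀ ψ ∈ Φ, (D a ψ ≠ 0 ↔ ψ ∈ o φ))
    (hD4 : ∀ φ ∈ Φ, ∀ ψ ∈ Φ, φ ≠ ψ → ∑ a ∈ X, D a φ * D a ψ = 0)
    (φ : γ) (hφ : φ ∈ Φ) (s : γ) (hs : s ∈ o φ) (t : γ) (ht : t ∈ o φ) (hst : s ≠ t) :
    ∑ a ∈ X.filter (fun a => D a φ ≠ 0), D a s * D a t = 0 := by
  refine Eq.trans ?_ (hD4 s ((ho φ hφ).2.1 hs) t ((ho φ hφ).2.1 ht) hst)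
  refine Finset.sum_subset (Finset.filter_subset _ _) (fun a ha hna => ?_)
  have h0 : D a φ = 0 := by
    by_contra hn
    exact hna (Finset.mem_filter.mpr ⟨ha, hn⟩)
  rw [M2_zero X Φ D o ho hD3 φ hφ a ha h0 s hs, zero_mul]

private theorem M2_unit {α γ : Type*} (X : Finset α) (Φ : Finset γ) (D : α → γ → ℤ)
    (o : γ → Finset γ) (ho : ∀ φ ∈ Φ, φ ∈ o φ ∧ o φ ⊆ Φ ∧ ∀ ψ ∈ o φ, o ψ = o φ)
    (hD1 : ∀ a ∈ X, ∀ φ ∈ Φ, D a φ = 0 ∨ D a φ = 1 ∨ D a φ = -1)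
    (hD3 : ∀ a ∈ X, ∀ φ ∈ Φ, D a φ ≠ 0 → ∀ ψ ∈ Φ, (D a ψ ≠ 0 ↔ ψ ∈ o φ))
    (φ : γ) (hφ : φ ∈ Φ) (a : α) (ha : a ∈ X.filter (fun a => D a φ ≠ 0)) (s : γ)
    (hs : s ∈ o φ) : D a s = 1 ∨ D a s = -1 := by
  have ha' := Finset.mem_filter.mp ha
  have hsΦ := (ho φ hφ).2.1 hs
  exact (hD1 a ha'.1 s hsΦ).resolve_left ((hD3 a ha'.1 φ hφ ha'.2 s hsΦ).mpr hs)

/-- Proof. For an orbit `O = o φ` let `X_O = {a ∈ X | D a φ ≠ 0}` (independent of the choice of `φ ∈ O` by `hD3`); it has `q`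
elements, its rows are `± 1` on `O` and `0` on `Φ \ O`. The sets `X_O` are disjoint and their union is the set of the `a ∈ X` with
a row that is not zero. If `O = {φ}` take any bijection `X_O ≃ Y_O` (both have `q` elements), `ε = D a φ * E (f a) φ`. If
`|O| = 3` then `q = 4` and `match_three` applies. Glue the bijections over the orbits (`Equiv.sigmaFiberEquiv` for the map
`a ↦` orbit of its support, `Equiv.sigmaCongrRight`). -/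
theorem match_all {α β γ : Type*} (X : Finset α) (Y : Finset β) (Φ : Finset γ)
    (D : α → γ → ℤ) (E : β → γ → ℤ) (q : ℕ) (o : γ → Finset γ)
    (ho : ∀ φ ∈ Φ, φ ∈ o φ ∧ o φ ⊆ Φ ∧ ∀ ψ ∈ o φ, o ψ = o φ)
    (hc : ∀ φ ∈ Φ, (o φ).card = 1 ∨ ((o φ).card = 3 ∧ q = 4))
    (hD1 : ∀ a ∈ X, ∀ φ ∈ Φ, D a φ = 0 ∨ D a φ = 1 ∨ D a φ = -1)
    (hD2 : ∀ φ ∈ Φ, (X.filter fun a => D a φ ≠ 0).card = q)
    (hD3 : ∀ a ∈ X, ∀ φ ∈ Φ, D a φ ≠ 0 → ∀ ψ ∈ Φ, (D a ψ ≠ 0 ↔ ψ ∈ o φ))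
    (hD4 : ∀ φ ∈ Φ, ∀ ψ ∈ Φ, φ ≠ ψ → ∑ a ∈ X, D a φ * D a ψ = 0)
    (hE1 : ∀ b ∈ Y, ∀ φ ∈ Φ, E b φ = 0 ∨ E b φ = 1 ∨ E b φ = -1)
    (hE2 : ∀ φ ∈ Φ, (Y.filter fun b => E b φ ≠ 0).card = q)
    (hE3 : ∀ b ∈ Y, ∀ φ ∈ Φ, E b φ ≠ 0 → ∀ ψ ∈ Φ, (E b ψ ≠ 0 ↔ ψ ∈ o φ))
    (hE4 : ∀ φ ∈ Φ, ∀ ψ ∈ Φ, φ ≠ ψ → ∑ b ∈ Y, E b φ * E b ψ = 0) :
    ∃ f : {a // a ∈ X ∧ ∃ φ ∈ Φ, D a φ ≠ 0} ≃ {b // b ∈ Y ∧ ∃ φ ∈ Φ, E b φ ≠ 0},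
      ∀ a, ∃ ε : ℤ, (ε = 1 ∨ ε = -1) ∧ ∀ φ ∈ Φ, E (f a).1 φ = ε * D a.1 φ := by
  have hfib : ∀ O : Finset γ, ∃ e : {a : {a // a ∈ X ∧ ∃ φ ∈ Φ, D a φ ≠ 0} //
      Φ.filter (fun ψ => D a.1 ψ ≠ 0) = O} ≃ {b : {b // b ∈ Y ∧ ∃ φ ∈ Φ, E b φ ≠ 0} //
      Φ.filter (fun ψ => E b.1 ψ ≠ 0) = O},
      ∀ a, ∃ ε : ℤ, (ε = 1 ∨ ε = -1) ∧ ∀ φ ∈ Φ, E (e a).1.1 φ = ε * D a.1.1 φ := by
    intro O
    by_cases hO : ∃ φ ∈ Φ, o φ = O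
    · obtain ⟨φ, hφ, rfl⟩ := hO
      obtain ⟨eX, heX⟩ := M2_fiber X Φ D o ho hD3 φ hφ
      obtain ⟨eY, heY⟩ := M2_fiber Y Φ E o ho hE3 φ hφ
      have key : ∃ h : {a // a ∈ X.filter (fun a => D a φ ≠ 0)} ≃
          {b // b ∈ Y.filter (fun b => E b φ ≠ 0)},
          ∀ a, ∃ ε : ℤ, (ε = 1 ∨ ε = -1) ∧ ∀ s ∈ o φ, E (h a).1 s = ε * D a.1 s := by
        rcases hc φ hφ with h1 | ⟨h3, hq⟩
        · have hcard : (X.filter (fun a => D a φ ≠ 0)).card =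
              (Y.filter (fun b => E b φ ≠ 0)).card := by rw [hD2 φ hφ, hE2 φ hφ]
          refine ⟨Finset.equivOfCardEq hcard, fun a => ?_⟩
          have hDu := M2_unit X Φ D o ho hD1 hD3 φ hφ a.1 a.2 φ (ho φ hφ).1
          have hEu := M2_unit Y Φ E o ho hE1 hE3 φ hφ (Finset.equivOfCardEq hcard a).1
            (Finset.equivOfCardEq hcard a).2 φ (ho φ hφ).1
          refine ⟨D a.1 φ * E (Finset.equivOfCardEq hcard a).1 φ, ?_, ?_⟩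
          · rcases hDu with h | h <;> rcases hEu with h' | h' <;> rw [h, h'] <;> simp
          · intro s hs
            have hs' : s = φ := by
              obtain ⟨x, hx⟩ := Finset.card_eq_one.mp h1
              have e1 : φ ∈ o φ := (ho φ hφ).1
              rw [hx, Finset.mem_singleton] at hs e1
              rw [hs, e1]
            rw [hs']
            rcases hDu with h | h <;> rw [h] <;> ring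
        · exact match_three (X.filter (fun a => D a φ ≠ 0)) (Y.filter (fun b => E b φ ≠ 0))
            (o φ) h3 D E (by rw [hD2 φ hφ, hq]) (by rw [hE2 φ hφ, hq])
            (fun a ha s hs => M2_unit X Φ D o ho hD1 hD3 φ hφ a ha s hs)
            (fun b hb s hs => M2_unit Y Φ E o ho hE1 hE3 φ hφ b hb s hs)
            (fun s hs t ht hst => M2_sum X Φ D o ho hD3 hD4 φ hφ s hs t ht hst)
            (fun s hs t ht hst => M2_sum Y Φ E o ho hE3 hE4 φ hφ s hs t ht hst)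
      obtain ⟨h, hh⟩ := key
      refine ⟨(eX.trans h).trans eY.symm, fun a => ?_⟩
      obtain ⟨ε, hε, hεs⟩ := hh (eX a)
      refine ⟨ε, hε, fun ψ hψ => ?_⟩
      have e1 : (((eX.trans h).trans eY.symm) a).1.1 = (h (eX a)).1 := by
        rw [← heY]
        simp
      have e2 : (eX a).1 = a.1.1 := heX a
      rw [e1, ← e2]
      by_cases hψo : ψ ∈ o φ
      · exact hεs ψ hψo
      · have ha' := Finset.mem_filter.mp (eX a).2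
        have hb' := Finset.mem_filter.mp (h (eX a)).2
        have z1 : D (eX a).1 ψ = 0 := by
          by_contra hn
          exact hψo ((hD3 _ ha'.1 φ hφ ha'.2 ψ hψ).mp hn)
        have z2 : E (h (eX a)).1 ψ = 0 := by
          by_contra hn
          exact hψo ((hE3 _ hb'.1 φ hφ hb'.2 ψ hψ).mp hn)
        rw [z1, z2, mul_zero]
    · have hX : IsEmpty {a : {a // a ∈ X ∧ ∃ φ ∈ Φ, D a φ ≠ 0} //
          Φ.filter (fun ψ => D a.1 ψ ≠ 0) = O} := by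
        constructor
        rintro ⟨⟨a, ha, φ, hφ, hne⟩, hOa⟩
        exact hO ⟨φ, hφ, (M2_supp X Φ D o ho hD3 a ha φ hφ hne).symm.trans hOa⟩
      have hY : IsEmpty {b : {b // b ∈ Y ∧ ∃ φ ∈ Φ, E b φ ≠ 0} //
          Φ.filter (fun ψ => E b.1 ψ ≠ 0) = O} := by
        constructor
        rintro ⟨⟨b, hb, φ, hφ, hne⟩, hOb⟩
        exact hO ⟨φ, hφ, (M2_supp Y Φ E o ho hE3 b hb φ hφ hne).symm.trans hOb⟩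
      exact ⟨Equiv.equivOfIsEmpty _ _, fun a => (hX.false a).elim⟩
  choose e he using hfib
  refine ⟨Equiv.ofFiberEquiv (f := fun a : {a // a ∈ X ∧ ∃ φ ∈ Φ, D a φ ≠ 0} =>
    Φ.filter (fun ψ => D a.1 ψ ≠ 0)) (g := fun b : {b // b ∈ Y ∧ ∃ φ ∈ Φ, E b φ ≠ 0} =>
    Φ.filter (fun ψ => E b.1 ψ ≠ 0)) e, fun a => ?_⟩
  exact he (Φ.filter (fun ψ => D a.1 ψ ≠ 0)) ⟨a, rfl⟩

end Pool.Agent.Lib.H46O
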