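import Mathlib

/-!
# Project H46O, chunk M3 (M): matching of the rows, units
-/

open scoped Classical BigOperators

noncomputable section

namespace Pool.Agent.Lib.H46O

private theorem M3_equiv {α γ : Type*} (X : Finset α) (Φ : Finset γ)
    (D : α → γ → ℂ) (U : Finset ℂ) (h0 : (0 : ℂ) ∉ U)
    (hD1 : ∀ a ∈ X, ∀ φ ∈ Φ, D a φ = 0 ∨ D a φ ∈ U)
    (hD2 : ∀ φ ∈ Φ, ∀ u ∈ U, ∃! a, a ∈ X ∧ D a φ = u)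
    (hD3 : ∀ a ∈ X, ∀ φ ∈ Φ, ∀ ψ ∈ Φ, D a φ ≠ 0 → D a ψ ≠ 0 → φ = ψ) :
    ∃ g : {a // a ∈ X ∧ ∃ φ ∈ Φ, D a φ ≠ 0} ≃ {p : γ × ℂ // p.1 ∈ Φ ∧ p.2 ∈ U},
      ∀ a, D a.1 (g a).1.1 = (g a).1.2 := by
  have hch : ∀ a : {a // a ∈ X ∧ ∃ φ ∈ Φ, D a φ ≠ 0}, ∃ φ, φ ∈ Φ ∧ D a.1 φ ≠ 0 := by
    rintro ⟨a, ha, φ, hφ, h⟩
    exact ⟨φ, hφ, h⟩
  choose c hc1 hc2 using hch
  have hU : ∀ a : {a // a ∈ X ∧ ∃ φ ∈ Φ, D a φ ≠ 0}, D a.1 (c a) ∈ U := fun a =>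
    (hD1 a.1 a.2.1 (c a) (hc1 a)).resolve_left (hc2 a)
  let g : {a // a ∈ X ∧ ∃ φ ∈ Φ, D a φ ≠ 0} → {p : γ × ℂ // p.1 ∈ Φ ∧ p.2 ∈ U} :=
    fun a => ⟨(c a, D a.1 (c a)), hc1 a, hU a⟩
  have hg : Function.Bijective g := by
    constructor
    · intro a b hab
      have h1 : (c a, D a.1 (c a)) = (c b, D b.1 (c b)) := congrArg Subtype.val hab
      have h2 : c a = c b := congrArg Prod.fst h1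
      have h3 : D a.1 (c a) = D b.1 (c b) := congrArg Prod.snd h1
      apply Subtype.ext
      refine (hD2 (c a) (hc1 a) _ (hU a)).unique ⟨a.2.1, rfl⟩ ⟨b.2.1, ?_⟩
      rw [h3, h2]
    · rintro ⟨⟨φ, u⟩, hφ, hu⟩
      obtain ⟨a, ⟨ha, hau⟩, _⟩ := hD2 φ hφ u hu
      have hne : D a φ ≠ 0 := by
        rw [hau]
        exact fun h => h0 (h ▸ hu)
      refine ⟨⟨a, ha, φ, hφ, hne⟩, ?_⟩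
      have h1 : c ⟨a, ha, φ, hφ, hne⟩ = φ :=
        hD3 a ha _ (hc1 ⟨a, ha, φ, hφ, hne⟩) φ hφ (hc2 ⟨a, ha, φ, hφ, hne⟩) hne
      apply Subtype.ext
      show (c ⟨a, ha, φ, hφ, hne⟩, D a (c ⟨a, ha, φ, hφ, hne⟩)) = (φ, u)
      rw [h1, hau]
  exact ⟨Equiv.ofBijective g hg, fun a => rfl⟩

theorem match_units {α β γ : Type*} (X : Finset α) (Y : Finset β) (Φ : Finset γ)
    (D : α → γ → ℂ) (E : β → γ → ℂ) (U : Finset ℂ) (h0 : (0 : ℂ) ∉ U)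
    (hD1 : ∀ a ∈ X, ∀ φ ∈ Φ, D a φ = 0 ∨ D a φ ∈ U)
    (hD2 : ∀ φ ∈ Φ, ∀ u ∈ U, ∃! a, a ∈ X ∧ D a φ = u)
    (hD3 : ∀ a ∈ X, ∀ φ ∈ Φ, ∀ ψ ∈ Φ, D a φ ≠ 0 → D a ψ ≠ 0 → φ = ψ)
    (hE1 : ∀ b ∈ Y, ∀ φ ∈ Φ, E b φ = 0 ∨ E b φ ∈ U)
    (hE2 : ∀ φ ∈ Φ, ∀ u ∈ U, ∃! b, b ∈ Y ∧ E b φ = u)
    (hE3 : ∀ b ∈ Y, ∀ φ ∈ Φ, ∀ ψ ∈ Φ, E b φ ≠ 0 → E b ψ ≠ 0 → φ = ψ) :
    ∃ f : {a // a ∈ X ∧ ∃ φ ∈ Φ, D a φ ≠ 0} ≃ {b // b ∈ Y ∧ ∃ φ ∈ Φ, E b φ ≠ 0},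
      ∀ a, ∀ φ ∈ Φ, E (f a).1 φ = D a.1 φ := by
  obtain ⟨g, hg⟩ := M3_equiv X Φ D U h0 hD1 hD2 hD3
  obtain ⟨k, hk⟩ := M3_equiv Y Φ E U h0 hE1 hE2 hE3
  refine ⟨g.trans k.symm, fun a φ hφ => ?_⟩
  have h1 : k ((g.trans k.symm) a) = g a := by simp
  have h2 := hk ((g.trans k.symm) a)
  rw [h1] at h2
  have h3 := hg a
  have hne : (g a).1.2 ≠ 0 := fun h => h0 (h ▸ (g a).2.2)
  by_cases hp : φ = (g a).1.1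
  · rw [hp, h2, h3]
  · have e1 : D a.1 φ = 0 := by
      by_contra hn
      exact hp (hD3 a.1 a.2.1 φ hφ _ (g a).2.1 hn (by rw [h3]; exact hne))
    have e2 : E ((g.trans k.symm) a).1 φ = 0 := by
      by_contra hn
      exact hp (hE3 _ ((g.trans k.symm) a).2.1 φ hφ _ (g a).2.1 hn (by rw [h2]; exact hne))
    rw [e1, e2]

end Pool.Agent.Lib.H46O
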