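import Pool.Agent.Lib.H46O.L2

/-!
# Project H46O, chunk L3 (M): the Gram matrix
-/

open scoped Classical ComplexConjugate BigOperators

noncomputable section

namespace Pool.Agent.Lib.H46O

open Pool.Agent.Lib.H90Q

variable {G H : Type*} [Group G] [Fintype G] [Group H] [Fintype H]

omit [Group H] in
private theorem L3_key (a b : H → G) (c₁ c₂ : H → ℂ) :
    ∑ χ ∈ irrF G, ((Nat.card H : ℂ)⁻¹ * ∑ y : H, χ (a y) * c₁ y) *
        conj ((Nat.card H : ℂ)⁻¹ * ∑ y : H, χ (b y) * c₂ y) =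
      ((Nat.card H : ℂ)⁻¹ * (Nat.card H : ℂ)⁻¹) * ∑ y : H, ∑ y' : H,
        (if IsConj (a y) (b y') then (Nat.card (Subgroup.centralizer {b y'}) : ℂ) else 0) *
          (c₁ y * conj (c₂ y')) := by
  have h1 : ∀ χ : G → ℂ, ((Nat.card H : ℂ)⁻¹ * ∑ y : H, χ (a y) * c₁ y) *
      conj ((Nat.card H : ℂ)⁻¹ * ∑ y : H, χ (b y) * c₂ y) =
      ((Nat.card H : ℂ)⁻¹ * (Nat.card H : ℂ)⁻¹) * ∑ y : H, ∑ y' : H,
        (χ (a y) * conj (χ (b y'))) * (c₁ y * conj (c₂ y')) := by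
    intro χ
    rw [map_mul, map_inv₀, map_natCast, map_sum]
    have h2 : (∑ y : H, χ (a y) * c₁ y) * (∑ y : H, conj (χ (b y) * c₂ y)) =
        ∑ y : H, ∑ y' : H, (χ (a y) * conj (χ (b y'))) * (c₁ y * conj (c₂ y')) := by
      rw [Finset.sum_mul_sum]
      refine Finset.sum_congr rfl fun y _ => Finset.sum_congr rfl fun y' _ => ?_
      rw [map_mul]
      ring
    rw [← h2]
    ring
  rw [Finset.sum_congr rfl (fun χ _ => h1 χ), ← Finset.mul_sum]
  congr 1
  rw [Finset.sum_comm]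
  refine Finset.sum_congr rfl fun y _ => ?_
  rw [Finset.sum_comm]
  refine Finset.sum_congr rfl fun y' _ => ?_
  rw [← Finset.sum_mul, second_ortho]

omit [Fintype G] [Fintype H] in
private theorem L3_isConj (ι : H →* G) (x : G) (hc : ∀ h : H, x * ι h = ι h * x) {y y' : H}
    (h : IsConj y y') : IsConj (x * ι y) (x * ι y') := by
  obtain ⟨c, hc'⟩ := isConj_iff.1 h
  refine isConj_iff.2 ⟨ι c, ?_⟩
  rw [← hc', map_mul, map_mul, map_inv, ← mul_assoc (ι c) x, ← hc c]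
  simp only [mul_assoc]

/-- Proof. Insert the definition of `dd`; by `second_ortho` the sum is
`|H|⁻² ∑_(y, y') conj φ(y) ψ(y') [x ι y ~ x ι y'] |C(x ι y')|
 = q |H|⁻² ∑_(y ~ y') |C_H(y')| conj φ(y) ψ(y')`
(`IsConj (x * ι y) (x * ι y') ↔ IsConj y y'`: one direction is `hf`, the other is conjugation by `ι a`);
for fixed `y'` the sum over `y ~ y'` of `conj φ(y)` is `(|H| / |C_H(y')|) conj φ(y')`. The rest is
`irr_ortho'`. -/
theorem dd_gram (ι : H →* G) (x : G) (hc : ∀ h : H, x * ι h = ι h * x) (q : ℕ)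
    (hf : ∀ y y' : H, IsConj (x * ι y) (x * ι y') → IsConj y y')
    (hq : ∀ y : H, Nat.card (Subgroup.centralizer {x * ι y}) =
      q * Nat.card (Subgroup.centralizer {y})) {φ ψ : H → ℂ} (hφ : IsIrr φ) (hψ : IsIrr ψ) :
    ∑ χ ∈ irrF G, dd ι x χ φ * conj (dd ι x χ ψ) = if φ = ψ then (q : ℂ) else 0 := by
  have h0 := L3_key (fun y : H => x * ι y) (fun y : H => x * ι y) (fun y => conj (φ y))
    (fun y => conj (ψ y))
  have hN : (Nat.card H : ℂ) ≠ 0 := by
    have : 0 < Nat.card H := Nat.card_pos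
    exact_mod_cast this.ne'
  have h1 : ∀ y y' : H, (if IsConj (x * ι y) (x * ι y') then
      (Nat.card (Subgroup.centralizer {x * ι y'}) : ℂ) else 0) =
      (q : ℂ) * ∑ χ ∈ irrF H, χ y * conj (χ y') := by
    intro y y'
    rw [second_ortho]
    by_cases h : IsConj y y'
    · rw [if_pos h, if_pos (L3_isConj ι x hc h), hq y']
      push_cast
      ring
    · rw [if_neg h, if_neg (fun hh => h (hf y y' hh)), mul_zero]
  have h2 : ∑ y : H, ∑ y' : H, (if IsConj (x * ι y) (x * ι y') then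
      (Nat.card (Subgroup.centralizer {x * ι y'}) : ℂ) else 0) *
        (conj (φ y) * conj (conj (ψ y'))) =
      (q : ℂ) * ∑ χ ∈ irrF H, (∑ y : H, χ y * conj (φ y)) * (∑ y' : H, ψ y' * conj (χ y')) := by
    simp only [h1, Complex.conj_conj]
    rw [Finset.mul_sum]
    have h3 : ∀ χ : H → ℂ, (q : ℂ) * ((∑ y : H, χ y * conj (φ y)) * (∑ y' : H, ψ y' * conj (χ y'))) =
        ∑ y : H, ∑ y' : H, (q : ℂ) * (χ y * conj (χ y')) * (conj (φ y) * ψ y') := by
      intro χ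
      rw [Finset.sum_mul_sum, Finset.mul_sum]
      refine Finset.sum_congr rfl fun y _ => ?_
      rw [Finset.mul_sum]
      refine Finset.sum_congr rfl fun y' _ => ?_
      ring
    rw [Finset.sum_congr rfl (fun χ _ => h3 χ)]
    symm
    rw [Finset.sum_comm]
    refine Finset.sum_congr rfl fun y _ => ?_
    rw [Finset.sum_comm]
    refine Finset.sum_congr rfl fun y' _ => ?_
    rw [Finset.mul_sum, Finset.sum_mul]
  have h4 : ∑ χ ∈ irrF H, (∑ y : H, χ y * conj (φ y)) * (∑ y' : H, ψ y' * conj (χ y')) =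
      if φ = ψ then (Nat.card H : ℂ) * (Nat.card H : ℂ) else 0 := by
    rw [Finset.sum_eq_single φ]
    · rw [irr_ortho' hφ hφ, irr_ortho' hψ hφ, if_pos rfl]
      by_cases h : φ = ψ
      · rw [if_pos h, if_pos h.symm]
      · rw [if_neg h, if_neg (fun hh => h hh.symm), mul_zero]
    · intro χ hχ hne
      rw [irr_ortho' (mem_irrF.1 hχ) hφ, if_neg hne, zero_mul]
    · intro h
      exact absurd (mem_irrF.2 hφ) h
  have h5 : ∑ χ ∈ irrF G, dd ι x χ φ * conj (dd ι x χ ψ) = _ := h0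
  rw [h5, h2, h4]
  by_cases h : φ = ψ
  · rw [if_pos h, if_pos h]
    field_simp
  · rw [if_neg h, if_neg h, mul_zero, mul_zero]

/-- Proof. `second_ortho` for `x * ι y` and `g`. -/
theorem dd_vanish (ι : H →* G) (x g : G) (hg : ∀ y : H, ¬ IsConj (x * ι y) g) (φ : H → ℂ) :
    ∑ χ ∈ irrF G, dd ι x χ φ * conj (χ g) = 0 := by
  have h1 : ∀ χ : G → ℂ, dd ι x χ φ * conj (χ g) =
      ∑ y : H, ((Nat.card H : ℂ)⁻¹ * conj (φ y)) * (χ (x * ι y) * conj (χ g)) := by
    intro χ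
    unfold dd
    rw [Finset.mul_sum, Finset.sum_mul]
    refine Finset.sum_congr rfl fun y _ => ?_
    ring
  rw [Finset.sum_congr rfl (fun χ _ => h1 χ), Finset.sum_comm]
  refine Finset.sum_eq_zero fun y _ => ?_
  rw [← Finset.mul_sum, second_ortho, if_neg (hg y), mul_zero]

/-- Proof. `second_ortho` for `x * ι y` and `x' * ι y'`. -/
theorem dd_vanish' (ι : H →* G) (x x' : G) (hg : ∀ y y' : H, ¬ IsConj (x * ι y) (x' * ι y'))
    (φ ψ : H → ℂ) : ∑ χ ∈ irrF G, dd ι x χ φ * conj (dd ι x' χ ψ) = 0 := by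
  have h0 := L3_key (fun y : H => x * ι y) (fun y : H => x' * ι y) (fun y => conj (φ y))
    (fun y => conj (ψ y))
  have h5 : ∑ χ ∈ irrF G, dd ι x χ φ * conj (dd ι x' χ ψ) = _ := h0
  rw [h5, Finset.sum_eq_zero, mul_zero]
  intro y _
  refine Finset.sum_eq_zero fun y' _ => ?_
  rw [if_neg (hg y y'), zero_mul]

end Pool.Agent.Lib.H46O
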