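import Pool.Agent.Lib.H46O.F1

/-!
# Project H46O, chunk F5 (L): fusion of the elements of `H` (Burnside)
-/

open scoped Classical ComplexConjugate BigOperators

noncomputable section

namespace Pool.Agent.Lib.H46O

variable {G H : Type*} [Group G] [Finite G] [Group H] [Finite H]

/-- Every element of the normaliser of `P` induces an automorphism of `H`. Proof. For `h : H` the element
`k = n ι h n⁻¹` commutes with `x` (`n⁻¹ x n ∈ P` commutes with `ι h`) and is conjugate to `ι h`, so `k ∈ range ι`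
(`cfg_fix`); `α = ι⁻¹ ∘ (conj n) ∘ ι` (`MonoidHom.ofInjective`, or choose and check), inverse from `n⁻¹`. -/
theorem cfg_norm {ι : H →* G} {P : Subgroup G} {x : G} {A : Subgroup (MulAut H)}
    (hC : Cfg ι P x A) {n : G} (hn : n ∈ Subgroup.normalizer (P : Set G)) :
    ∃ α ∈ A, ∀ h : H, ι (α h) = n * ι h * n⁻¹ := by
  have hn' : ∀ u : G, u ∈ P ↔ n * u * n⁻¹ ∈ P := fun u => Subgroup.mem_set_normalizer_iff.1 hn u
  -- the element n⁻¹ x n
  have hx : n⁻¹ * x * n ∈ P := by
    rw [hn']
    have h1 : n * (n⁻¹ * x * n) * n⁻¹ = x := by group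
    rw [h1]
    exact hC.mem
  have hex : ∀ h : H, ∃ h' : H, ι h' = n * ι h * n⁻¹ := by
    intro h
    have h1 : x * (n * ι h * n⁻¹) = (n * ι h * n⁻¹) * x := by
      have h2 := hC.commH _ hx h
      calc x * (n * ι h * n⁻¹) = n * ((n⁻¹ * x * n) * ι h) * n⁻¹ := by group
        _ = n * (ι h * (n⁻¹ * x * n)) * n⁻¹ := by rw [h2]
        _ = (n * ι h * n⁻¹) * x := by group
    obtain ⟨h', hh'⟩ := cfg_fix hC h (isConj_iff.2 ⟨n, rfl⟩) h1
    exact ⟨h', hh'.symm⟩
  choose f hf using hex
  have hmul : ∀ a b : H, f (a * b) = f a * f b := by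
    intro a b
    apply hC.inj
    rw [map_mul, hf, hf, hf, map_mul]
    group
  have hinj : Function.Injective f := by
    intro a b hab
    apply hC.inj
    have h1 : n * ι a * n⁻¹ = n * ι b * n⁻¹ := by rw [← hf, ← hf, hab]
    exact mul_left_cancel (mul_right_cancel h1)
  have hbij : Function.Bijective f := Finite.injective_iff_bijective.1 hinj
  refine ⟨MulEquiv.ofBijective (MonoidHom.mk' f hmul) hbij, ?_, fun h => hf h⟩
  exact (hC.autA _).2 ⟨n, hn, fun h => hf h⟩

/-- Burnside. Proof. From right to left: `hC.autA`. From left to right: `g ι y g⁻¹ = ι y'`. Let `C` be the centraliser of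
`ι y'`. `P ≤ C` and `g P g⁻¹ ≤ C`, both are 2-groups of odd index in `G`, so Sylow 2-subgroups of `C`: there is `c ∈ C` with
`c g P g⁻¹ c⁻¹ = P` (`MulAction.IsPretransitive` of `C` on `Sylow 2 C`; construct the Sylow subgroups with `IsPGroup.toSylow`
or from the card). So `n = c g ∈ N_G(P)`, `n ι y n⁻¹ = c ι y' c⁻¹ = ι y'`; `cfg_norm` and injectivity give `α y = y'`. -/
theorem cfg_fus1 {ι : H →* G} {P : Subgroup G} {x : G} {A : Subgroup (MulAut H)}
    (hC : Cfg ι P x A) (y y' : H) : IsConj (ι y) (ι y') ↔ ∃ α ∈ A, α y = y' := by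
  constructor
  · intro h
    obtain ⟨g, hg⟩ := isConj_iff.1 h
    have h2 : ¬ 2 ∣ P.index := by
      intro h2
      exact (Nat.not_even_iff_odd.2 hC.idx) (even_iff_two_dvd.2 h2)
    have : Fact (Nat.Prime 2) := ⟨Nat.prime_two⟩
    obtain ⟨S, hS⟩ : ∃ S : Sylow 2 G, (S : Subgroup G) = P := ⟨hC.isP.toSylow h2, rfl⟩
    have hSC : (S : Subgroup G) ≤ Subgroup.centralizer {ι y'} := by
      rw [hS]
      intro u hu
      rw [Subgroup.mem_centralizer_singleton_iff]
      exact hC.commH u hu y'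
    have hgSC : ((g • S : Sylow 2 G) : Subgroup G) ≤ Subgroup.centralizer {ι y'} := by
      intro v hv
      rw [Sylow.coe_subgroup_smul] at hv
      obtain ⟨u, hu, rfl⟩ := Subgroup.mem_smul_pointwise_iff_exists _ _ _ |>.1 hv
      rw [hS] at hu
      rw [Subgroup.mem_centralizer_singleton_iff]
      have h3 := hC.commH u hu y
      show (g * u * g⁻¹) * ι y' = ι y' * (g * u * g⁻¹)
      rw [← hg]
      calc (g * u * g⁻¹) * (g * ι y * g⁻¹) = g * (u * ι y) * g⁻¹ := by group
        _ = g * (ι y * u) * g⁻¹ := by rw [h3]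
        _ = (g * ι y * g⁻¹) * (g * u * g⁻¹) := by group
    obtain ⟨c, hc⟩ := MulAction.exists_smul_eq (Subgroup.centralizer {ι y'})
      ((g • S).subtype hgSC) (S.subtype hSC)
    rw [Sylow.smul_subtype] at hc
    have h4 := Sylow.subtype_injective hc
    have h5 : (((c : G) * g) • S : Sylow 2 G) = S := by
      rw [mul_smul]
      exact h4
    have h6 := Sylow.smul_eq_iff_mem_normalizer.1 h5
    have h6' : (c : G) * g ∈ Subgroup.normalizer (P : Set G) := by
      have h7 : ((S : Subgroup G) : Set G) = (P : Set G) := by rw [hS]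
      rw [← h7]
      exact h6
    obtain ⟨α, hα, hαe⟩ := cfg_norm hC h6'
    refine ⟨α, hα, hC.inj ?_⟩
    have hcc := Subgroup.mem_centralizer_singleton_iff.1 c.2
    rw [hαe]
    calc (c : G) * g * ι y * ((c : G) * g)⁻¹ = (c : G) * (g * ι y * g⁻¹) * (c : G)⁻¹ := by group
      _ = (c : G) * ι y' * (c : G)⁻¹ := by rw [hg]
      _ = ι y' := by rw [hcc]; group
  · rintro ⟨α, hα, rfl⟩
    obtain ⟨n, -, hne⟩ := (hC.autA α).1 hα
    exact isConj_iff.2 ⟨n, (hne y).symm⟩

end Pool.Agent.Lib.H46O
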