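import Pool.Agent.Lib.H46O.L6B
import Pool.Agent.Lib.H46O.F5

/-!
# Project H46O, chunk L7 (L): the irreducible characters of `H` under one character of `G`
-/

open scoped Classical ComplexConjugate BigOperators

noncomputable section

namespace Pool.Agent.Lib.H46O

open Pool.Agent.Lib.H90Q

private theorem L7_mem {α : Type*} {p : α → Prop} (inst : DecidablePred p) (s : Finset α) (a : α) :
    a ∈ @Finset.filter α p inst s ↔ a ∈ s ∧ p a := Finset.mem_filter

variable {G H : Type*} [Group G] [Fintype G] [Group H] [Fintype H]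

/-- The number of `omega_set` for a union of classes of `H` which is the trace of a class of `G`. Two such numbers for `φ`
and `ψ` are congruent modulo two if `dd ι x χ φ` and `dd ι x χ ψ` are units at two. Proof. `w` from `omega_set` for
`cls (ι y0)`. By `congr_dd`, `|H| dd (w - w_φ)` is divisible by two; multiply by `t`: `|H| m (w - w_φ)` is divisible by two
with `|H| m` odd, and `w - w_φ` is integral, so `even2_of_odd_mul`. The same for `ψ`; subtract. -/
theorem omega_congr {ι : H →* G} {P : Subgroup G} {x : G} {A : Subgroup (MulAut H)}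
    (hC : Cfg ι P x A) (y0 : H) {χ : G → ℂ} (hχ : IsIrr χ) {φ ψ : H → ℂ} (hφ : IsIrr φ) (hψ : IsIrr ψ)
    (hφt : ∃ t : ℂ, IsIntegral ℤ t ∧ ∃ m : ℤ, Odd m ∧ t * dd ι x χ φ = m)
    (hψt : ∃ t : ℂ, IsIntegral ℤ t ∧ ∃ m : ℤ, Odd m ∧ t * dd ι x χ ψ = m) {v v' : ℂ}
    (hv : IsIntegral ℤ v) (hv' : IsIntegral ℤ v')
    (hw : ∀ y, v * φ y = ∑ h ∈ Finset.univ.filter (fun h : H => IsConj (ι y0) (ι h)), φ (h * y))
    (hw' : ∀ y, v' * ψ y = ∑ h ∈ Finset.univ.filter (fun h : H => IsConj (ι y0) (ι h)), ψ (h * y)) :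
    Even2 (v - v') := by
  have hcls : ∀ a k, k ∈ cls (ι y0) → a * k * a⁻¹ ∈ cls (ι y0) := by
    intro a k hk
    rw [cls, Finset.mem_filter] at hk ⊢
    exact ⟨Finset.mem_univ _, hk.2.trans (isConj_iff.2 ⟨a, rfl⟩)⟩
  obtain ⟨w, hwi, -, hwχ⟩ := omega_set hχ (cls (ι y0)) hcls
  have key : ∀ {θ : H → ℂ} {u : ℂ}, IsIrr θ →
      (∃ t : ℂ, IsIntegral ℤ t ∧ ∃ m : ℤ, Odd m ∧ t * dd ι x χ θ = m) → IsIntegral ℤ u →
      (∀ y, u * θ y = ∑ h ∈ Finset.univ.filter (fun h : H => IsConj (ι y0) (ι h)), θ (h * y)) →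
      Even2 (w - u) := by
    intro θ u hθ hθt hu hwu
    obtain ⟨t, ht, m, hm, htm⟩ := hθt
    have h1 := congr_dd hC y0 hχ hθ hwχ hwu
    have h2 := even2_mul h1 ht
    have hodd : Odd ((Nat.card H : ℤ) * m) := by
      refine Odd.mul ?_ hm
      exact_mod_cast hC.odd
    refine even2_of_odd_mul hodd (hwi.sub hu) ?_
    have e : (Nat.card H : ℂ) * (dd ι x χ θ * (w - u)) * t =
        (((Nat.card H : ℤ) * m : ℤ) : ℂ) * (w - u) := by
      push_cast
      rw [← htm]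
      ring
    rwa [e] at h2
  have h1 := key hφ hφt hv hw
  have h2 := key hψ hψt hv' hw'
  have h3 := even2_sub h2 h1
  have e : w - v' - (w - v) = v - v' := by ring
  rwa [e] at h3

/-- Proof. Suppose `ψ` is not in the orbit `O = orb A φ` (note `φ ∘ α` is irreducible: `isIrr_comp` for the automorphism
`α`). Let `E y = ∑_(φ' ∈ O) φ' 1 * conj (φ' y)`: it is constant on the sets `L(y0) = {h | IsConj (ι y0) (ι h)}`, because
`IsConj (ι y0) (ι h) ↔ ∃ α ∈ A, α y0 = h` (`cfg_fus1`) and `O` is invariant under `A`. For an irreducible `θ` of `H`: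
`∑_y E y * θ y = ∑_(φ' ∈ O) φ' 1 * ∑_y θ y conj (φ' y) = |H| θ 1 [θ ∈ O]` (`irr_ortho'`; `φ' 1` is real natural). On the
other hand, grouping by the classes `L` (the relation `IsConj (ι y) (ι y')` is an equivalence relation on `H`; sum over
`Quotient` or `Finset.sum_fiberwise`, or weights: `∑_y E y θ y = ∑_y |L(y)|⁻¹ E y ∑_(h ∈ L(y)) θ h`) it is
`θ 1 * ∑_L E(y_L) w_θ(L)` with `w_θ(L)` from `omega_set` (`∑_(h ∈ L) θ h = θ 1 w_θ(L)`). So
`∑_L E(y_L) (w_φ(L) - w_ψ(L)) = |H|`, and by `omega_congr` the left side is divisible by two (`E` is integral): then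
`|H|` is even (`even_of_even2`), against `hC.odd`. -/
theorem orb_of_odd {ι : H →* G} {P : Subgroup G} {x : G} {A : Subgroup (MulAut H)}
    (hC : Cfg ι P x A) {χ : G → ℂ} (hχ : IsIrr χ) {φ ψ : H → ℂ} (hφ : IsIrr φ) (hψ : IsIrr ψ)
    (hφt : ∃ t : ℂ, IsIntegral ℤ t ∧ ∃ m : ℤ, Odd m ∧ t * dd ι x χ φ = m)
    (hψt : ∃ t : ℂ, IsIntegral ℤ t ∧ ∃ m : ℤ, Odd m ∧ t * dd ι x χ ψ = m) : ψ ∈ orb A φ := by
  by_contra hnot
  -- the class functions
  let L : H → Finset H := fun y0 => Finset.univ.filter (fun h : H => IsConj (ι y0) (ι h))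
  have hL : ∀ y0 a k, k ∈ L y0 → a * k * a⁻¹ ∈ L y0 := by
    intro y0 a k hk
    simp only [L, Finset.mem_filter, Finset.mem_univ, true_and] at hk ⊢
    refine hk.trans (isConj_iff.2 ⟨ι a, ?_⟩)
    rw [map_mul, map_mul, map_inv]
  have hwφ : ∀ y0, ∃ w : ℂ, IsIntegral ℤ w ∧ φ 1 * w = ∑ k ∈ L y0, φ k ∧
      ∀ h, w * φ h = ∑ k ∈ L y0, φ (k * h) := fun y0 => omega_set hφ (L y0) (hL y0)
  have hwψ : ∀ y0, ∃ w : ℂ, IsIntegral ℤ w ∧ ψ 1 * w = ∑ k ∈ L y0, ψ k ∧
      ∀ h, w * ψ h = ∑ k ∈ L y0, ψ (k * h) := fun y0 => omega_set hψ (L y0) (hL y0)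
  choose v hv1 hv2 hv3 using hwφ
  choose v' hv1' hv2' hv3' using hwψ
  have hcong : ∀ y0, Even2 (v y0 - v' y0) := fun y0 =>
    omega_congr hC y0 hχ hφ hψ hφt hψt (hv1 y0) (hv1' y0) (hv3 y0) (hv3' y0)
  -- the orbit
  have hmem : ∀ θ : H → ℂ, θ ∈ orb A φ ↔ IsIrr θ ∧ ∃ α ∈ A, θ = fun y => φ (α y) := by
    intro θ
    constructor
    · intro h
      have h1 := (L7_mem _ _ _).1 h
      exact ⟨mem_irrF.1 h1.1, h1.2⟩
    · intro h
      exact (L7_mem _ _ _).2 ⟨mem_irrF.2 h.1, h.2⟩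
  have hφO : φ ∈ orb A φ := (hmem φ).2 ⟨hφ, 1, A.one_mem, rfl⟩
  have hcomp : ∀ α ∈ A, ∀ θ ∈ orb A φ, (fun y => θ (α y)) ∈ orb A φ := by
    intro α hα θ hθ
    obtain ⟨hi, β, hβ, rfl⟩ := (hmem θ).1 hθ
    refine (hmem _).2 ⟨?_, β * α, A.mul_mem hβ hα, rfl⟩
    exact isIrr_comp (α : H ≃* H).toMonoidHom (α : H ≃* H).surjective hi
  let E : H → ℂ := fun y => ∑ θ ∈ orb A φ, θ 1 * conj (θ y)
  have hEint : ∀ y, IsIntegral ℤ (E y) := by
    intro y
    refine IsIntegral.sum _ fun θ hθ => ?_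
    have hc := isChar_of_isIrr ((hmem θ).1 hθ).1
    exact (char_int hc 1).mul (int_conj (char_int hc y))
  have hEα : ∀ α ∈ A, ∀ y, E (α y) = E y := by
    intro α hα y
    refine Finset.sum_nbij' (fun θ => fun z => θ (α z)) (fun θ => fun z => θ (α⁻¹ z)) ?_ ?_ ?_ ?_ ?_
    · intro θ hθ
      exact hcomp α hα θ hθ
    · intro θ hθ
      exact hcomp α⁻¹ (A.inv_mem hα) θ hθ
    · intro θ _
      funext z
      show θ (α (α⁻¹ z)) = θ z
      rw [← MulAut.mul_apply, mul_inv_cancel, MulAut.one_apply]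
    · intro θ _
      funext z
      show θ (α⁻¹ (α z)) = θ z
      rw [← MulAut.mul_apply, inv_mul_cancel, MulAut.one_apply]
    · intro θ _
      show θ 1 * conj (θ (α y)) = θ (α 1) * conj (θ (α y))
      rw [map_one]
  have hEL : ∀ y0 y, y ∈ L y0 → E y = E y0 := by
    intro y0 y hy
    simp only [L, Finset.mem_filter, Finset.mem_univ, true_and] at hy
    obtain ⟨α, hα, rfl⟩ := (cfg_fus1 hC y0 y).1 hy
    exact hEα α hα y0
  -- the classes
  let S : Setoid H := ⟨fun y y' => IsConj (ι y) (ι y'),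
    ⟨fun y => IsConj.refl _, fun h => h.symm, fun h h' => h.trans h'⟩⟩
  have hfib : ∀ q : Quotient S, Finset.univ.filter (fun y : H => Quotient.mk S y = q) = L q.out := by
    intro q
    ext y
    simp only [L, Finset.mem_filter, Finset.mem_univ, true_and]
    constructor
    · intro h
      have h1 : Quotient.mk S q.out = Quotient.mk S y := by rw [Quotient.out_eq, h]
      exact Quotient.exact h1
    · intro h
      have h1 : Quotient.mk S q.out = Quotient.mk S y := Quotient.sound h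
      rw [← h1, Quotient.out_eq]
  have hgroup : ∀ {θ : H → ℂ} {u : H → ℂ}, (∀ y0, θ 1 * u y0 = ∑ k ∈ L y0, θ k) →
      ∑ y, E y * θ y = θ 1 * ∑ q : Quotient S, E q.out * u q.out := by
    intro θ u hu
    rw [← Finset.sum_fiberwise Finset.univ (fun y : H => Quotient.mk S y), Finset.mul_sum]
    refine Finset.sum_congr rfl fun q _ => ?_
    rw [hfib q]
    have h1 : ∑ y ∈ L q.out, E y * θ y = ∑ y ∈ L q.out, E q.out * θ y :=
      Finset.sum_congr rfl fun y hy => by rw [hEL _ y hy]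
    rw [h1, ← Finset.mul_sum, ← hu]
    ring
  have horth : ∀ {θ : H → ℂ}, IsIrr θ →
      ∑ y, E y * θ y = if θ ∈ orb A φ then θ 1 * (Nat.card H : ℂ) else 0 := by
    intro θ hθ
    have h1 : ∑ y, E y * θ y = ∑ η ∈ orb A φ, η 1 * ∑ y, θ y * conj (η y) := by
      simp only [E, Finset.sum_mul, Finset.mul_sum]
      rw [Finset.sum_comm]
      refine Finset.sum_congr rfl fun η _ => Finset.sum_congr rfl fun y _ => by ring
    rw [h1]
    have h2 : ∀ η ∈ orb A φ, η 1 * ∑ y, θ y * conj (η y) =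
        if θ = η then θ 1 * (Nat.card H : ℂ) else 0 := by
      intro η hη
      rw [irr_ortho' hθ ((hmem η).1 hη).1]
      by_cases h : θ = η
      · rw [if_pos h, if_pos h, h]
      · rw [if_neg h, if_neg h, mul_zero]
    rw [Finset.sum_congr rfl h2, Finset.sum_ite_eq]
  have hne : ∀ {θ : H → ℂ}, IsIrr θ → θ 1 ≠ 0 := by
    intro θ hθ
    obtain ⟨n, hn, e⟩ := irr_one hθ
    rw [e]
    exact_mod_cast hn.ne'
  have e1 : ∑ q : Quotient S, E q.out * v q.out = (Nat.card H : ℂ) := by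
    have h := (hgroup hv2).symm.trans (horth hφ)
    rw [if_pos hφO] at h
    exact mul_left_cancel₀ (hne hφ) h
  have e2 : ∑ q : Quotient S, E q.out * v' q.out = 0 := by
    have h := (hgroup hv2').symm.trans (horth hψ)
    rw [if_neg hnot] at h
    exact (mul_eq_zero.1 h).resolve_left (hne hψ)
  have e3 : ∑ q : Quotient S, (v q.out - v' q.out) * E q.out = ((Nat.card H : ℤ) : ℂ) := by
    have h : ∑ q : Quotient S, (v q.out - v' q.out) * E q.out =
        ∑ q : Quotient S, E q.out * v q.out - ∑ q : Quotient S, E q.out * v' q.out := by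
      rw [← Finset.sum_sub_distrib]
      exact Finset.sum_congr rfl fun q _ => by ring
    rw [h, e1, e2, sub_zero]
    norm_cast
  have h4 : Even2 (((Nat.card H : ℤ)) : ℂ) := by
    rw [← e3]
    exact even2_sum _ _ fun q _ => even2_mul (hcong _) (hEint _)
  have h5 : Even (Nat.card H : ℤ) := even_of_even2 h4
  have h6 : Even (Nat.card H) := by exact_mod_cast h5
  exact (Nat.not_even_iff_odd.2 hC.odd) h6

end Pool.Agent.Lib.H46O
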