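import Pool.Agent.Lib.H46O.L1B
import Pool.Agent.Lib.H46O.L3
import Pool.Agent.Lib.H46O.L7
import Pool.Agent.Lib.H46O.F6

/-!
# Project H46O, chunk T4 (L): columns and rows for an element of order four
-/

open scoped Classical ComplexConjugate BigOperators

noncomputable section

namespace Pool.Agent.Lib.H46O

open Pool.Agent.Lib.H90Q

variable {G H : Type*} [Group G] [Fintype G] [Group H] [Fintype H]

/-- Two units of opposite signs. -/
private theorem T4_two {α : Type*} (s : Finset α) (a : α → ℤ) (n : α → ℕ) (hn : ∀ i ∈ s, 0 < n i)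
    (h2 : ∑ i ∈ s, a i ^ 2 = 2) (h4 : ∑ i ∈ s, a i * n i = 0) :
    ∃ i ∈ s, ∃ j ∈ s, i ≠ j ∧ a i = 1 ∧ a j = -1 ∧ ∀ k ∈ s, k ≠ i → k ≠ j → a k = 0 := by
  have hnn : ∀ i ∈ s, (0 : ℤ) < (n i : ℤ) := fun i hi => by exact_mod_cast hn i hi
  have hpos : ∃ i ∈ s, 0 < a i := by
    by_contra hne
    push Not at hne
    have h0 : ∀ i ∈ s, a i * n i ≤ 0 := fun i hi =>
      mul_nonpos_of_nonpos_of_nonneg (hne i hi) (hnn i hi).le
    have h1 := (Finset.sum_eq_zero_iff_of_nonpos h0).1 h4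
    have h3 : ∑ i ∈ s, a i ^ 2 = 0 := by
      refine Finset.sum_eq_zero fun i hi => ?_
      have := h1 i hi
      rcases mul_eq_zero.1 this with h | h
      · rw [h]; norm_num
      · exact absurd h (hnn i hi).ne'
    omega
  have hneg : ∃ i ∈ s, a i < 0 := by
    by_contra hne
    push Not at hne
    have h0 : ∀ i ∈ s, 0 ≤ a i * n i := fun i hi => mul_nonneg (hne i hi) (hnn i hi).le
    have h1 := (Finset.sum_eq_zero_iff_of_nonneg h0).1 h4
    have h3 : ∑ i ∈ s, a i ^ 2 = 0 := by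
      refine Finset.sum_eq_zero fun i hi => ?_
      have := h1 i hi
      rcases mul_eq_zero.1 this with h | h
      · rw [h]; norm_num
      · exact absurd h (hnn i hi).ne'
    omega
  obtain ⟨i, hi, hai⟩ := hpos
  obtain ⟨j, hj, haj⟩ := hneg
  have hij : i ≠ j := by
    rintro rfl
    omega
  have hje : j ∈ s.erase i := Finset.mem_erase.2 ⟨hij.symm, hj⟩
  have e1 := Finset.add_sum_erase s (fun k => a k ^ 2) hi
  have e2 := Finset.add_sum_erase (s.erase i) (fun k => a k ^ 2) hje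
  have hr : 0 ≤ ∑ k ∈ (s.erase i).erase j, a k ^ 2 := Finset.sum_nonneg fun k _ => sq_nonneg _
  have hi2 : 1 ≤ a i ^ 2 := by nlinarith
  have hj2 : 1 ≤ a j ^ 2 := by nlinarith
  have hi1 : a i = 1 := by nlinarith
  have hj1 : a j = -1 := by nlinarith
  have hr0 : ∑ k ∈ (s.erase i).erase j, a k ^ 2 = 0 := by linarith
  refine ⟨i, hi, j, hj, hij, hi1, hj1, fun k hk hki hkj => ?_⟩
  have := (Finset.sum_eq_zero_iff_of_nonneg (fun k _ => sq_nonneg (a k))).1 hr0 k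
    (Finset.mem_erase.2 ⟨hkj, Finset.mem_erase.2 ⟨hki, hk⟩⟩)
  exact pow_eq_zero_iff (two_ne_zero) |>.1 this

/-- Pure arithmetic. Gaussian integers `a i + b i I` with positive weights `n i`: `∑ (a² + b²) = 4`, `∑ (a + b I)² = 0`,
`∑ (a + b I) n = 0`. Then exactly four entries are not zero, they are `1, -1, I, -I`, each once. Proof. An entry of norm
`4` would be the only one that is not zero, against the third sum. Two entries `d₁, d₂` of norm `2`: `d₂ = - r d₁` with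
`r > 0` by the third sum, so `d₁² + d₂² ≠ 0`. One entry of norm `2` and two of norm `1`: the squares are `± 2 I`, `± 1`,
`± 1`, sum not `0`. So four units; two have square `1` and two square `-1`; the real part of the third sum gives
opposite signs for the two real ones, the imaginary part for the other two. -/
theorem gauss_four {α : Type*} (s : Finset α) (a b : α → ℤ) (n : α → ℕ) (hn : ∀ i ∈ s, 0 < n i)
    (h1 : ∑ i ∈ s, (a i ^ 2 + b i ^ 2) = 4) (h2 : ∑ i ∈ s, (a i ^ 2 - b i ^ 2) = 0)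
    (h3 : ∑ i ∈ s, a i * b i = 0) (h4 : ∑ i ∈ s, a i * n i = 0) (h5 : ∑ i ∈ s, b i * n i = 0) :
    (∀ i ∈ s, (a i, b i) ∈ ({(0, 0), (1, 0), (-1, 0), (0, 1), (0, -1)} : Finset (ℤ × ℤ))) ∧
      ∀ u ∈ ({(1, 0), (-1, 0), (0, 1), (0, -1)} : Finset (ℤ × ℤ)),
        ∃! i, i ∈ s ∧ (a i, b i) = u := by
  rw [Finset.sum_add_distrib] at h1
  rw [Finset.sum_sub_distrib] at h2
  have ha2 : ∑ i ∈ s, a i ^ 2 = 2 := by linarith
  have hb2 : ∑ i ∈ s, b i ^ 2 = 2 := by linarith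
  obtain ⟨i, hi, j, hj, hij, hai, haj, ha0⟩ := T4_two s a n hn ha2 h4
  obtain ⟨k, hk, l, hl, hkl, hbk, hbl, hb0⟩ := T4_two s b n hn hb2 h5
  have hje : j ∈ s.erase i := Finset.mem_erase.2 ⟨hij.symm, hj⟩
  have e1 := Finset.add_sum_erase s (fun m => a m * b m) hi
  have e2 := Finset.add_sum_erase (s.erase i) (fun m => a m * b m) hje
  have e3 : ∑ m ∈ (s.erase i).erase j, a m * b m = 0 := by
    refine Finset.sum_eq_zero fun m hm => ?_
    have h1 := Finset.mem_erase.1 hm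
    have h2 := Finset.mem_erase.1 h1.2
    rw [ha0 m h2.2 h2.1 h1.1, zero_mul]
  rw [hai] at e1
  rw [haj] at e2
  have e4 : b i = b j := by linarith
  have bval : ∀ m ∈ s, b m = 0 ∨ (m = k ∧ b m = 1) ∨ (m = l ∧ b m = -1) := by
    intro m hm
    by_cases h1 : m = k
    · exact Or.inr (Or.inl ⟨h1, h1 ▸ hbk⟩)
    by_cases h2 : m = l
    · exact Or.inr (Or.inr ⟨h2, h2 ▸ hbl⟩)
    exact Or.inl (hb0 m hm h1 h2)
  have aval : ∀ m ∈ s, a m = 0 ∨ (m = i ∧ a m = 1) ∨ (m = j ∧ a m = -1) := by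
    intro m hm
    by_cases h1 : m = i
    · exact Or.inr (Or.inl ⟨h1, h1 ▸ hai⟩)
    by_cases h2 : m = j
    · exact Or.inr (Or.inr ⟨h2, h2 ▸ haj⟩)
    exact Or.inl (ha0 m hm h1 h2)
  have hbi : b i = 0 := by
    rcases bval i hi with h | ⟨h, h'⟩ | ⟨h, h'⟩
    · exact h
    · rcases bval j hj with g | ⟨g, g'⟩ | ⟨g, g'⟩
      · rw [e4, g]
      · exact absurd (h.trans g.symm) hij
      · omega
    · rcases bval j hj with g | ⟨g, g'⟩ | ⟨g, g'⟩
      · rw [e4, g]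
      · omega
      · exact absurd (h.trans g.symm) hij
  have hbj : b j = 0 := e4 ▸ hbi
  have hak : a k = 0 := by
    rcases aval k hk with h | ⟨h, h'⟩ | ⟨h, h'⟩
    · exact h
    · subst h; omega
    · subst h; omega
  have hal : a l = 0 := by
    rcases aval l hl with h | ⟨h, h'⟩ | ⟨h, h'⟩
    · exact h
    · subst h; omega
    · subst h; omega
  constructor
  · intro m hm
    simp only [Finset.mem_insert, Finset.mem_singleton, Prod.mk.injEq]
    rcases aval m hm with h | ⟨h, h'⟩ | ⟨h, h'⟩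
    · rcases bval m hm with g | ⟨g, g'⟩ | ⟨g, g'⟩
      · exact Or.inl ⟨h, g⟩
      · exact Or.inr (Or.inr (Or.inr (Or.inl ⟨h, g'⟩)))
      · exact Or.inr (Or.inr (Or.inr (Or.inr ⟨h, g'⟩)))
    · exact Or.inr (Or.inl ⟨h', h ▸ hbi⟩)
    · exact Or.inr (Or.inr (Or.inl ⟨h', h ▸ hbj⟩))
  · intro u hu
    simp only [Finset.mem_insert, Finset.mem_singleton] at hu
    rcases hu with rfl | rfl | rfl | rfl
    · refine ⟨i, ⟨hi, by rw [hai, hbi]⟩, ?_⟩
      rintro m ⟨hm, he⟩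
      have := (Prod.mk.injEq _ _ _ _ ▸ he : a m = 1 ∧ b m = 0)
      rcases aval m hm with h | ⟨h, h'⟩ | ⟨h, h'⟩
      · omega
      · exact h
      · omega
    · refine ⟨j, ⟨hj, by rw [haj, hbj]⟩, ?_⟩
      rintro m ⟨hm, he⟩
      have := (Prod.mk.injEq _ _ _ _ ▸ he : a m = -1 ∧ b m = 0)
      rcases aval m hm with h | ⟨h, h'⟩ | ⟨h, h'⟩
      · omega
      · omega
      · exact h
    · refine ⟨k, ⟨hk, by rw [hak, hbk]⟩, ?_⟩
      rintro m ⟨hm, he⟩
      have := (Prod.mk.injEq _ _ _ _ ▸ he : a m = 0 ∧ b m = 1)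
      rcases bval m hm with h | ⟨h, h'⟩ | ⟨h, h'⟩
      · omega
      · exact h
      · omega
    · refine ⟨l, ⟨hl, by rw [hal, hbl]⟩, ?_⟩
      rintro m ⟨hm, he⟩
      have := (Prod.mk.injEq _ _ _ _ ▸ he : a m = 0 ∧ b m = -1)
      rcases bval m hm with h | ⟨h, h'⟩ | ⟨h, h'⟩
      · omega
      · omega
      · exact h

private theorem T4_re (a b : ℤ) :
    ((a : ℝ) ^ 2 - (b : ℝ) ^ 2) = (((a : ℂ) ^ 2 - (b : ℂ) ^ 2 + 2 * ((a : ℂ) * (b : ℂ)) *
      Complex.I)).re := by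
  have e : ((a : ℂ) ^ 2 - (b : ℂ) ^ 2 + 2 * ((a : ℂ) * (b : ℂ)) * Complex.I) =
      (((a : ℝ) ^ 2 - (b : ℝ) ^ 2 : ℝ) : ℂ) + ((2 * ((a : ℝ) * (b : ℝ)) : ℝ) : ℂ) * Complex.I := by
    push_cast
    ring
  rw [e, Complex.add_re, Complex.ofReal_re, Complex.re_ofReal_mul, Complex.I_re]
  ring

private theorem T4_im (a b : ℤ) :
    (2 * ((a : ℝ) * (b : ℝ))) = (((a : ℂ) ^ 2 - (b : ℂ) ^ 2 + 2 * ((a : ℂ) * (b : ℂ)) *
      Complex.I)).im := by
  have e : ((a : ℂ) ^ 2 - (b : ℂ) ^ 2 + 2 * ((a : ℂ) * (b : ℂ)) * Complex.I) =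
      (((a : ℝ) ^ 2 - (b : ℝ) ^ 2 : ℝ) : ℂ) + ((2 * ((a : ℝ) * (b : ℝ)) : ℝ) : ℂ) * Complex.I := by
    push_cast
    ring
  rw [e, Complex.add_im, Complex.ofReal_im, Complex.im_ofReal_mul, Complex.I_im]
  ring

private theorem T4_re' (a b : ℤ) (n : ℕ) :
    ((a : ℝ) * (n : ℝ)) = (((a : ℂ) * (n : ℂ) + ((b : ℂ) * (n : ℂ)) * Complex.I)).re := by
  have e : ((a : ℂ) * (n : ℂ) + ((b : ℂ) * (n : ℂ)) * Complex.I) =
      (((a : ℝ) * (n : ℝ) : ℝ) : ℂ) + (((b : ℝ) * (n : ℝ) : ℝ) : ℂ) * Complex.I := by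
    push_cast
    ring
  rw [e, Complex.add_re, Complex.ofReal_re, Complex.re_ofReal_mul, Complex.I_re]
  ring

private theorem T4_im' (a b : ℤ) (n : ℕ) :
    ((b : ℝ) * (n : ℝ)) = (((a : ℂ) * (n : ℂ) + ((b : ℂ) * (n : ℂ)) * Complex.I)).im := by
  have e : ((a : ℂ) * (n : ℂ) + ((b : ℂ) * (n : ℂ)) * Complex.I) =
      (((a : ℝ) * (n : ℝ) : ℝ) : ℂ) + (((b : ℝ) * (n : ℝ) : ℝ) : ℂ) * Complex.I := by
    push_cast
    ring
  rw [e, Complex.add_im, Complex.ofReal_im, Complex.im_ofReal_mul, Complex.I_im]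
  ring

private theorem T4_inj (a b p q : ℤ) :
    ((a : ℂ) + b * Complex.I = (p : ℂ) + q * Complex.I) ↔ (a = p ∧ b = q) := by
  constructor
  · intro h
    have h1 := congrArg Complex.re h
    have h2 := congrArg Complex.im h
    simp at h1 h2
    exact ⟨h1, h2⟩
  · rintro ⟨rfl, rfl⟩
    rfl

private theorem T4_pow {G H : Type*} [Group G] [Fintype G] [Group H] [Fintype H] {ι : H →* G}
    {P : Subgroup G} {x : G} {A : Subgroup (MulAut H)}
    (hC : Cfg ι P x A) (h4 : Nat.card P ∣ 4) : x ^ 4 = 1 := by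
  have h1 : (⟨x, hC.mem⟩ : P) ^ Nat.card P = 1 := pow_card_eq_one'
  have h2 : x ^ Nat.card P = 1 := by
    have h5 := congrArg (Subtype.val : P → G) h1
    rwa [SubmonoidClass.coe_pow, OneMemClass.coe_one] at h5
  obtain ⟨m, hm⟩ := h4
  rw [hm, pow_mul, h2, one_pow]

private theorem T4_card {G H : Type*} [Group G] [Fintype G] [Group H] [Fintype H] {ι : H →* G}
    {P : Subgroup G} {x : G} {A : Subgroup (MulAut H)}
    (hC : Cfg ι P x A) (h4 : Nat.card P ∣ 4) (hx : x * x ≠ 1) : Nat.card P = 4 := by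
  have h1 : (⟨x, hC.mem⟩ : P) ^ Nat.card P = 1 := pow_card_eq_one'
  have h2 : x ^ Nat.card P = 1 := by
    have h5 := congrArg (Subtype.val : P → G) h1
    rwa [SubmonoidClass.coe_pow, OneMemClass.coe_one] at h5
  have h3 : Nat.card P ∈ Nat.divisors 4 := Nat.mem_divisors.2 ⟨h4, by norm_num⟩
  have h5 : Nat.divisors 4 = {1, 2, 4} := by decide
  rw [h5] at h3
  simp only [Finset.mem_insert, Finset.mem_singleton] at h3
  rcases h3 with h | h | h
  · rw [h, pow_one] at h2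
    exact absurd h2 hC.ne
  · rw [h, pow_two] at h2
    exact absurd h2 hx
  · exact h

/-- Proof. `P` has order `4` and `x` has order four. `dd_four`: `dd ι x χ φ = a + b I`, `dd ι (x^3) χ φ = a - b I`. `dd_gram`:
`∑ (a² + b²) = 4` (`cfg_fus2`, `cfg_cent`); `dd_vanish'` for `x' = x^3` (`cfg_not_inv`):
`∑ (a + b I) conj (a - b I) = ∑ (a + b I)² = 0`; `dd_vanish` for `g = 1` (`cfg_ne_one`): `∑ (a + b I) χ(1) = 0`, `χ(1)` a
positive natural number (`irr_one`). `gauss_four`. -/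
theorem columns_four {ι : H →* G} {P : Subgroup G} {x : G} {A : Subgroup (MulAut H)}
    (hC : Cfg ι P x A) (h4 : Nat.card P ∣ 4) (hx : x * x ≠ 1) {φ : H → ℂ} (hφ : IsIrr φ) :
    (∀ χ ∈ irrF G, dd ι x χ φ = 0 ∨
      dd ι x χ φ ∈ ({1, -1, Complex.I, -Complex.I} : Finset ℂ)) ∧
      ∀ u ∈ ({1, -1, Complex.I, -Complex.I} : Finset ℂ), ∃! χ, χ ∈ irrF G ∧ dd ι x χ φ = u := by
  have hcx : ∀ h : H, x * ι h = ι h * x := fun h => hC.commH x hC.mem h
  have hx4 : x ^ 4 = 1 := T4_pow hC h4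
  have hcard : Nat.card P = 4 := T4_card hC h4 hx
  have hd : ∀ χ : G → ℂ, ∃ ab : ℤ × ℤ × ℕ, IsIrr χ →
      dd ι x χ φ = (ab.1 : ℂ) + ab.2.1 * Complex.I ∧
      dd ι (x ^ 3) χ φ = (ab.1 : ℂ) - ab.2.1 * Complex.I ∧ 0 < ab.2.2 ∧ χ 1 = (ab.2.2 : ℂ) := by
    intro χ
    by_cases hχ : IsIrr χ
    · obtain ⟨a, b, h1, h2⟩ := dd_four ι x hx4 hcx (isChar_of_isIrr hχ) hφ
      obtain ⟨n, hn, h3⟩ := irr_one hχ
      exact ⟨(a, b, n), fun _ => ⟨h1, h2, hn, h3⟩⟩
    · exact ⟨(0, 0, 0), fun h => absurd h hχ⟩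
  choose f hf using hd
  have hf' : ∀ χ ∈ irrF G, dd ι x χ φ = ((f χ).1 : ℂ) + (f χ).2.1 * Complex.I ∧
      dd ι (x ^ 3) χ φ = ((f χ).1 : ℂ) - (f χ).2.1 * Complex.I ∧ 0 < (f χ).2.2 ∧
      χ 1 = ((f χ).2.2 : ℂ) := fun χ hχ => hf χ (mem_irrF.1 hχ)
  have g1 := dd_gram ι x hcx (Nat.card P) (fun y y' h => cfg_fus2 hC h) (fun y => cfg_cent hC y)
    hφ hφ
  rw [if_pos rfl, hcard] at g1
  have g2 := dd_vanish' ι x (x ^ 3) (fun y y' => cfg_not_inv hC h4 hx y y') φ φ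
  have g3 := dd_vanish ι x 1 (fun y => cfg_ne_one hC y) φ
  have s1 : ∑ χ ∈ irrF G, ((f χ).1 ^ 2 + (f χ).2.1 ^ 2) = 4 := by
    have : ((∑ χ ∈ irrF G, ((f χ).1 ^ 2 + (f χ).2.1 ^ 2) : ℤ) : ℂ) = ((4 : ℤ) : ℂ) := by
      push_cast
      push_cast at g1
      rw [← g1]
      refine Finset.sum_congr rfl fun χ hχ => ?_
      rw [(hf' χ hχ).1]
      simp only [map_add, map_mul, Complex.conj_I, map_intCast]
      linear_combination (((f χ).2.1 : ℂ) ^ 2) * Complex.I_sq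
    exact_mod_cast this
  have s23 : ∑ χ ∈ irrF G, (((f χ).1 : ℂ) ^ 2 - ((f χ).2.1 : ℂ) ^ 2 +
      2 * (((f χ).1 : ℂ) * ((f χ).2.1 : ℂ)) * Complex.I) = 0 := by
    rw [← g2]
    refine Finset.sum_congr rfl fun χ hχ => ?_
    rw [(hf' χ hχ).1, (hf' χ hχ).2.1]
    simp only [map_sub, map_mul, Complex.conj_I, map_intCast]
    linear_combination (-((f χ).2.1 : ℂ) ^ 2) * Complex.I_sq
  have s45 : ∑ χ ∈ irrF G, (((f χ).1 : ℂ) * ((f χ).2.2 : ℂ) +
      (((f χ).2.1 : ℂ) * ((f χ).2.2 : ℂ)) * Complex.I) = 0 := by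
    rw [← g3]
    refine Finset.sum_congr rfl fun χ hχ => ?_
    rw [(hf' χ hχ).1, (hf' χ hχ).2.2.2]
    simp only [map_natCast]
    ring
  have s2 : ∑ χ ∈ irrF G, ((f χ).1 ^ 2 - (f χ).2.1 ^ 2) = 0 := by
    have := congrArg Complex.re s23
    rw [Complex.re_sum] at this
    have h : ((∑ χ ∈ irrF G, ((f χ).1 ^ 2 - (f χ).2.1 ^ 2) : ℤ) : ℝ) = 0 := by
      rw [Complex.zero_re] at this
      rw [← this]
      push_cast
      refine Finset.sum_congr rfl fun χ hχ => ?_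
      rw [T4_re ((f χ).1) ((f χ).2.1)]
    exact_mod_cast h
  have s3 : ∑ χ ∈ irrF G, (f χ).1 * (f χ).2.1 = 0 := by
    have := congrArg Complex.im s23
    rw [Complex.im_sum] at this
    have h : ((2 * ∑ χ ∈ irrF G, (f χ).1 * (f χ).2.1 : ℤ) : ℝ) = 0 := by
      rw [Complex.zero_im] at this
      rw [← this, Finset.mul_sum]
      push_cast
      refine Finset.sum_congr rfl fun χ hχ => ?_
      rw [T4_im ((f χ).1) ((f χ).2.1)]
    have h' : 2 * ∑ χ ∈ irrF G, (f χ).1 * (f χ).2.1 = 0 := by exact_mod_cast h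
    omega
  have s4 : ∑ χ ∈ irrF G, (f χ).1 * ((f χ).2.2 : ℤ) = 0 := by
    have := congrArg Complex.re s45
    rw [Complex.re_sum] at this
    have h : ((∑ χ ∈ irrF G, (f χ).1 * ((f χ).2.2 : ℤ) : ℤ) : ℝ) = 0 := by
      rw [Complex.zero_re] at this
      rw [← this]
      push_cast
      refine Finset.sum_congr rfl fun χ hχ => ?_
      rw [T4_re' ((f χ).1) ((f χ).2.1) ((f χ).2.2)]
    exact_mod_cast h
  have s5 : ∑ χ ∈ irrF G, (f χ).2.1 * ((f χ).2.2 : ℤ) = 0 := by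
    have := congrArg Complex.im s45
    rw [Complex.im_sum] at this
    have h : ((∑ χ ∈ irrF G, (f χ).2.1 * ((f χ).2.2 : ℤ) : ℤ) : ℝ) = 0 := by
      rw [Complex.zero_im] at this
      rw [← this]
      push_cast
      refine Finset.sum_congr rfl fun χ hχ => ?_
      rw [T4_im' ((f χ).1) ((f χ).2.1) ((f χ).2.2)]
    exact_mod_cast h
  have key := gauss_four (irrF G) (fun χ => (f χ).1) (fun χ => (f χ).2.1) (fun χ => (f χ).2.2)
    (fun χ hχ => (hf' χ hχ).2.2.1) s1 s2 s3 s4 s5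
  have hinj : ∀ χ ∈ irrF G, ∀ p q : ℤ, dd ι x χ φ = (p : ℂ) + q * Complex.I ↔
      ((f χ).1, (f χ).2.1) = (p, q) := by
    intro χ hχ p q
    rw [(hf' χ hχ).1, Prod.mk.injEq]
    exact T4_inj _ _ _ _
  constructor
  · intro χ hχ
    have h := key.1 χ hχ
    simp only [Finset.mem_insert, Finset.mem_singleton] at h ⊢
    rcases h with h | h | h | h | h
    · left
      rw [(hinj χ hχ 0 0).2 h]
      simp
    · right; left
      rw [(hinj χ hχ 1 0).2 h]
      simp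
    · right; right; left
      rw [(hinj χ hχ (-1) 0).2 h]
      simp
    · right; right; right; left
      rw [(hinj χ hχ 0 1).2 h]
      simp
    · right; right; right; right
      rw [(hinj χ hχ 0 (-1)).2 h]
      simp
  · have main : ∀ p q : ℤ, (p, q) ∈ ({(1, 0), (-1, 0), (0, 1), (0, -1)} : Finset (ℤ × ℤ)) →
        ∃! χ, χ ∈ irrF G ∧ dd ι x χ φ = (p : ℂ) + q * Complex.I := by
      intro p q hpq
      obtain ⟨χ, ⟨hχ, he⟩, hu⟩ := key.2 (p, q) hpq
      refine ⟨χ, ⟨hχ, (hinj χ hχ p q).2 he⟩, ?_⟩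
      rintro χ' ⟨hχ', he'⟩
      exact hu χ' ⟨hχ', (hinj χ' hχ' p q).1 he'⟩
    intro u hu
    simp only [Finset.mem_insert, Finset.mem_singleton] at hu
    rcases hu with rfl | rfl | rfl | rfl
    · have := main 1 0 (by decide)
      simpa using this
    · have := main (-1) 0 (by decide)
      simpa using this
    · have := main 0 1 (by decide)
      simpa using this
    · have := main 0 (-1) (by decide)
      simpa using this

/-- Proof. Both entries are units of `ℤ[I]`: `t = conj dd` is integral and `t * dd = 1`; `orb_of_odd` and `cfg_orb_four`. -/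
theorem rows_four {ι : H →* G} {P : Subgroup G} {x : G} {A : Subgroup (MulAut H)}
    (hC : Cfg ι P x A) (h4 : Nat.card P ∣ 4) (hx : x * x ≠ 1) {χ : G → ℂ} (hχ : IsIrr χ)
    {φ ψ : H → ℂ} (hφ : IsIrr φ) (hψ : IsIrr ψ) (h : dd ι x χ φ ≠ 0) (h' : dd ι x χ ψ ≠ 0) :
    φ = ψ := by
  have hu : ∀ θ : H → ℂ, IsIrr θ → dd ι x χ θ ≠ 0 →
      ∃ t : ℂ, IsIntegral ℤ t ∧ ∃ m : ℤ, Odd m ∧ t * dd ι x χ θ = m := by
    intro θ hθ h0
    have hI : IsIntegral ℤ Complex.I := by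
      have : IsIntegral ℤ (Complex.I ^ 4) := by
        rw [Complex.I_pow_four]
        exact isIntegral_one
      exact IsIntegral.of_pow (by norm_num) this
    rcases (columns_four hC h4 hx hθ).1 χ (mem_irrF.2 hχ) with e | e
    · exact absurd e h0
    · simp only [Finset.mem_insert, Finset.mem_singleton] at e
      rcases e with e | e | e | e
      · exact ⟨1, isIntegral_one, 1, odd_one, by rw [e]; simp⟩
      · exact ⟨-1, isIntegral_one.neg, 1, odd_one, by rw [e]; simp⟩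
      · exact ⟨-Complex.I, hI.neg, 1, odd_one, by rw [e]; simp⟩
      · exact ⟨Complex.I, hI, 1, odd_one, by rw [e]; simp⟩
  have h1 := orb_of_odd hC hχ hφ hψ (hu φ hφ h) (hu ψ hψ h')
  rw [cfg_orb_four hC h4 hx hφ, Finset.mem_singleton] at h1
  exact h1.symm

end Pool.Agent.Lib.H46O
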