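import Pool.Agent.Lib.H46O.T1
import Pool.Agent.Lib.H46O.T4
import Pool.Agent.Lib.H46O.M2
import Pool.Agent.Lib.H46O.M3
import Pool.Agent.Lib.H46O.F4
import Pool.Agent.Lib.H46O.F6

/-!
# Project H46O, chunk E1 (L): the bijection between two groups with the same local configuration
-/

open scoped Classical ComplexConjugate BigOperators

noncomputable section

namespace Pool.Agent.Lib.H46O

open Pool.Agent.Lib.H90Q

variable {G N H : Type*} [Group G] [Fintype G] [Group N] [Fintype N] [Group H] [Fintype H]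

private theorem E1_x {ι : H →* G} {P : Subgroup G} {x : G} {A : Subgroup (MulAut H)}
    (hC : Cfg ι P x A) : ∀ h : H, x * ι h = ι h * x := hC.commH x hC.mem

private theorem E1_mem {H : Type*} [Group H] [Finite H] {A : Subgroup (MulAut H)} {φ ψ : H → ℂ} :
    ψ ∈ orb A φ ↔ ψ ∈ irrF H ∧ ∃ α ∈ A, ψ = fun y => φ (α y) := by
  unfold orb
  rw [Finset.mem_filter]

private theorem E1_int_I : IsIntegral ℤ Complex.I := by
  refine IsIntegral.of_pow (n := 4) (by norm_num) ?_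
  rw [Complex.I_pow_four]
  exact isIntegral_one

private theorem E1_sets (ι : H →* G) (x : G) (hc : ∀ h : H, x * ι h = ι h * x) (χ : G → ℂ) :
    (IsIrr χ ∧ ∃ y, χ (x * ι y) ≠ 0) ↔ (χ ∈ irrF G ∧ ∃ φ ∈ irrF H, dd ι x χ φ ≠ 0) := by
  rw [mem_irrF]
  exact and_congr_right fun h => dd_ne_iff ι x hc (isChar_of_isIrr h)

private theorem E1_data {ι : H →* G} {P : Subgroup G} {x : G} {A : Subgroup (MulAut H)}
    (hC : Cfg ι P x A) (h4 : Nat.card P ∣ 4) (hx : x * x = 1) :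
    ∃ D : (G → ℂ) → (H → ℂ) → ℤ,
      (∀ χ ∈ irrF G, ∀ φ ∈ irrF H, dd ι x χ φ = (D χ φ : ℂ)) ∧
      (∀ χ ∈ irrF G, ∀ φ ∈ irrF H, D χ φ = 0 ∨ D χ φ = 1 ∨ D χ φ = -1) ∧
      (∀ φ ∈ irrF H, ((irrF G).filter fun χ => D χ φ ≠ 0).card = Nat.card P) ∧
      (∀ χ ∈ irrF G, ∀ φ ∈ irrF H, D χ φ ≠ 0 → ∀ ψ ∈ irrF H, (D χ ψ ≠ 0 ↔ ψ ∈ orb A φ)) ∧
      ∀ φ ∈ irrF H, ∀ ψ ∈ irrF H, φ ≠ ψ → ∑ χ ∈ irrF G, D χ φ * D χ ψ = 0 := by
  have hex : ∀ (χ : G → ℂ) (φ : H → ℂ), ∃ n : ℤ, χ ∈ irrF G → φ ∈ irrF H →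
      dd ι x χ φ = (n : ℂ) ∧ (n = 0 ∨ n = 1 ∨ n = -1) := by
    intro χ φ
    by_cases h1 : χ ∈ irrF G
    · by_cases h2 : φ ∈ irrF H
      · rcases (columns hC h4 hx (mem_irrF.1 h2)).1 χ h1 with h | h | h
        · exact ⟨0, fun _ _ => ⟨by rw [h]; simp, Or.inl rfl⟩⟩
        · exact ⟨1, fun _ _ => ⟨by rw [h]; simp, Or.inr (Or.inl rfl)⟩⟩
        · exact ⟨-1, fun _ _ => ⟨by rw [h]; simp, Or.inr (Or.inr rfl)⟩⟩
      · exact ⟨0, fun _ h => absurd h h2⟩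
    · exact ⟨0, fun h => absurd h h1⟩
  choose D hD using hex
  have hDd : ∀ χ ∈ irrF G, ∀ φ ∈ irrF H, dd ι x χ φ = (D χ φ : ℂ) := fun χ h1 φ h2 =>
    (hD χ φ h1 h2).1
  have hne : ∀ χ ∈ irrF G, ∀ φ ∈ irrF H, (D χ φ ≠ 0 ↔ dd ι x χ φ ≠ 0) := by
    intro χ h1 φ h2
    rw [hDd χ h1 φ h2, Int.cast_ne_zero]
  refine ⟨D, hDd, fun χ h1 φ h2 => (hD χ φ h1 h2).2, fun φ h2 => ?_, fun χ h1 φ h2 h3 ψ h5 => ?_,
    fun φ h2 ψ h3 h5 => ?_⟩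
  · rw [← (columns hC h4 hx (mem_irrF.1 h2)).2]
    congr 1
    exact Finset.filter_congr fun χ h1 => hne χ h1 φ h2
  · rw [hne χ h1 ψ h5]
    exact rows hC h4 hx (mem_irrF.1 h1) (mem_irrF.1 h2) (mem_irrF.1 h5) ((hne χ h1 φ h2).1 h3)
  · have h1 := dd_gram ι x (E1_x hC) (Nat.card P) (fun y y' h => cfg_fus2 hC h)
      (fun y => cfg_cent hC y) (mem_irrF.1 h2) (mem_irrF.1 h3)
    rw [if_neg h5] at h1
    have h6 : ((∑ χ ∈ irrF G, D χ φ * D χ ψ : ℤ) : ℂ) = 0 := by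
      rw [← h1]
      push_cast
      refine Finset.sum_congr rfl fun χ hχ => ?_
      rw [hDd χ hχ φ h2, hDd χ hχ ψ h3, map_intCast]
    exact_mod_cast h6

private theorem E1_expand (ι : H →* G) (x : G) (hc : ∀ h : H, x * ι h = ι h * x)
    {D : (G → ℂ) → (H → ℂ) → ℤ}
    (hD : ∀ χ ∈ irrF G, ∀ φ ∈ irrF H, dd ι x χ φ = (D χ φ : ℂ)) {χ : G → ℂ} (hχ : χ ∈ irrF G)
    (y : H) : χ (x * ι y) = ∑ φ ∈ irrF H, (D χ φ : ℂ) * φ y := by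
  rw [dd_expand ι x hc (isChar_of_isIrr (mem_irrF.1 hχ)) y]
  exact Finset.sum_congr rfl fun φ hφ => by rw [hD χ hχ φ hφ]

/-- Degrees. Proof. `dd ι x χ φ ≠ 0` for some irreducible `φ` (`dd_ne_iff`); it is `± 1` (`columns`) or a unit of `ℤ[I]`
(`columns_four`), so the hypothesis of `deg_odd` holds (`cfg_class_odd`). -/
theorem main_deg {ι : H →* G} {P : Subgroup G} {x : G} {A : Subgroup (MulAut H)}
    (hC : Cfg ι P x A) (h4 : Nat.card P ∣ 4) {χ : G → ℂ} (hχ : IsIrr χ)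
    (h : ∃ y, χ (x * ι y) ≠ 0) : ∃ n : ℕ, Odd n ∧ χ 1 = n := by
  obtain ⟨φ, hφ, hne⟩ := (dd_ne_iff ι x (E1_x hC) (isChar_of_isIrr hχ)).1 h
  have hφ' := mem_irrF.1 hφ
  refine deg_odd hC (fun y => cfg_class_odd hC y) hχ hφ' ?_
  by_cases hx : x * x = 1
  · rcases (columns hC h4 hx hφ').1 χ (mem_irrF.2 hχ) with e | e | e
    · exact absurd e hne
    · exact ⟨1, isIntegral_one, 1, odd_one, by rw [e]; norm_num⟩
    · exact ⟨1, isIntegral_one, -1, odd_one.neg, by rw [e]; norm_num⟩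
  · rcases (columns_four hC h4 hx hφ').1 χ (mem_irrF.2 hχ) with e | e
    · exact absurd e hne
    · simp only [Finset.mem_insert, Finset.mem_singleton] at e
      rcases e with e | e | e | e
      · exact ⟨1, isIntegral_one, 1, odd_one, by rw [e]; norm_num⟩
      · exact ⟨1, isIntegral_one, -1, odd_one.neg, by rw [e]; norm_num⟩
      · exact ⟨Complex.I, E1_int_I, -1, odd_one.neg, by rw [e, Complex.I_mul_I]; norm_num⟩
      · exact ⟨Complex.I, E1_int_I, 1, odd_one, by rw [e, mul_neg, Complex.I_mul_I]; norm_num⟩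

/-- Involutions. Proof. `match_all` for `X = irrF G`, `Y = irrF N`, `Φ = irrF H`, `o = orb A`, `q = Nat.card P`, and `D`, `E` the
integers with `dd ι x χ φ = D χ φ`, `dd ι' x' ψ φ = E ψ φ` (choose them with `columns`; e.g. `D χ φ = ⌊(dd ι x χ φ).re⌋`). Hypotheses:
`orb_eq`, `cfg_orb_card`, `columns`, `rows`, `dd_gram` (`cfg_fus2`, `cfg_cent`). The sets agree by `dd_ne_iff`; values by
`dd_expand`: `χ (x * ι y) = ∑_φ D χ φ φ y = ε ∑_φ E (f χ) φ φ y` (`ε² = 1`). -/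
theorem main_two {ι : H →* G} {ι' : H →* N} {P : Subgroup G} {P' : Subgroup N} {x : G} {x' : N}
    {A : Subgroup (MulAut H)} (hC : Cfg ι P x A) (hC' : Cfg ι' P' x' A) (h4 : Nat.card P ∣ 4)
    (hP : Nat.card P' = Nat.card P) (hx : x * x = 1) (hx' : x' * x' = 1) :
    ∃ f : {χ : G → ℂ // IsIrr χ ∧ ∃ y, χ (x * ι y) ≠ 0} ≃
        {ψ : N → ℂ // IsIrr ψ ∧ ∃ y, ψ (x' * ι' y) ≠ 0},
      ∀ χ, ∃ ε : ℤ, (ε = 1 ∨ ε = -1) ∧ ∀ y, χ.1 (x * ι y) = ε * (f χ).1 (x' * ι' y) := by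
  have h4' : Nat.card P' ∣ 4 := by rw [hP]; exact h4
  obtain ⟨D, hD0, hD1, hD2, hD3, hD4⟩ := E1_data hC h4 hx
  obtain ⟨E, hE0, hE1, hE2, hE3, hE4⟩ := E1_data hC' h4' hx'
  have hself : ∀ φ ∈ irrF H, φ ∈ orb A φ := fun φ hφ =>
    E1_mem.2 ⟨hφ, 1, A.one_mem, rfl⟩
  obtain ⟨f, hf⟩ := match_all (irrF G) (irrF N) (irrF H) D E (Nat.card P) (orb A)
    (fun φ hφ => ⟨hself φ hφ, fun ψ hψ => (E1_mem.1 hψ).1, fun ψ hψ => (orb_eq (G := G) hψ (mem_irrF.1 hφ)).1⟩)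
    (fun φ hφ => cfg_orb_card hC h4 (mem_irrF.1 hφ)) hD1 hD2 hD3 hD4 hE1
    (fun φ hφ => by rw [hE2 φ hφ, hP]) hE3 hE4
  have hG : ∀ χ : G → ℂ, (IsIrr χ ∧ ∃ y, χ (x * ι y) ≠ 0) ↔
      (χ ∈ irrF G ∧ ∃ φ ∈ irrF H, D χ φ ≠ 0) := by
    intro χ
    rw [E1_sets ι x (E1_x hC) χ]
    refine and_congr_right fun h => exists_congr fun φ => and_congr_right fun hφ => ?_
    rw [hD0 χ h φ hφ, Int.cast_ne_zero]
  have hN : ∀ ψ : N → ℂ, (IsIrr ψ ∧ ∃ y, ψ (x' * ι' y) ≠ 0) ↔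
      (ψ ∈ irrF N ∧ ∃ φ ∈ irrF H, E ψ φ ≠ 0) := by
    intro ψ
    rw [E1_sets ι' x' (E1_x hC') ψ]
    refine and_congr_right fun h => exists_congr fun φ => and_congr_right fun hφ => ?_
    rw [hE0 ψ h φ hφ, Int.cast_ne_zero]
  refine ⟨(Equiv.subtypeEquivRight hG).trans (f.trans (Equiv.subtypeEquivRight hN).symm),
    fun χ => ?_⟩
  obtain ⟨ε, hε, hv⟩ := hf (Equiv.subtypeEquivRight hG χ)
  refine ⟨ε, hε, fun y => ?_⟩
  have hχ : χ.1 ∈ irrF G := ((hG χ.1).1 χ.2).1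
  have hψ : (f (Equiv.subtypeEquivRight hG χ)).1 ∈ irrF N :=
    (f (Equiv.subtypeEquivRight hG χ)).2.1
  show χ.1 (x * ι y) = ε * (f (Equiv.subtypeEquivRight hG χ)).1 (x' * ι' y)
  rw [E1_expand ι x (E1_x hC) hD0 hχ y, E1_expand ι' x' (E1_x hC') hE0 hψ y, Finset.mul_sum]
  refine Finset.sum_congr rfl fun φ hφ => ?_
  have h1 : E (f (Equiv.subtypeEquivRight hG χ)).1 φ = ε * D χ.1 φ := hv φ hφ
  have hε2 : (ε : ℂ) * ε = 1 := by rcases hε with rfl | rfl <;> norm_num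
  rw [h1]
  push_cast
  rw [← mul_assoc, ← mul_assoc, hε2, one_mul]

/-- Elements of order four. Proof. `match_units` with `D χ φ = dd ι x χ φ`, `E ψ φ = dd ι' x' ψ φ`, `U = {1, -1, I, -I}`
(`columns_four`, `rows_four`), `dd_ne_iff`, `dd_expand`; `ε = 1`. -/
theorem main_four {ι : H →* G} {ι' : H →* N} {P : Subgroup G} {P' : Subgroup N} {x : G} {x' : N}
    {A : Subgroup (MulAut H)} (hC : Cfg ι P x A) (hC' : Cfg ι' P' x' A) (h4 : Nat.card P ∣ 4)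
    (hP : Nat.card P' = Nat.card P) (hx : x * x ≠ 1) (hx' : x' * x' ≠ 1) :
    ∃ f : {χ : G → ℂ // IsIrr χ ∧ ∃ y, χ (x * ι y) ≠ 0} ≃
        {ψ : N → ℂ // IsIrr ψ ∧ ∃ y, ψ (x' * ι' y) ≠ 0},
      ∀ χ, ∃ ε : ℤ, (ε = 1 ∨ ε = -1) ∧ ∀ y, χ.1 (x * ι y) = ε * (f χ).1 (x' * ι' y) := by
  have h4' : Nat.card P' ∣ 4 := by rw [hP]; exact h4
  have h0 : (0 : ℂ) ∉ ({1, -1, Complex.I, -Complex.I} : Finset ℂ) := by
    simp [Complex.I_ne_zero, eq_comm]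
  obtain ⟨f, hf⟩ := match_units (irrF G) (irrF N) (irrF H) (fun χ φ => dd ι x χ φ)
    (fun ψ φ => dd ι' x' ψ φ) {1, -1, Complex.I, -Complex.I} h0
    (fun χ hχ φ hφ => (columns_four hC h4 hx (mem_irrF.1 hφ)).1 χ hχ)
    (fun φ hφ => (columns_four hC h4 hx (mem_irrF.1 hφ)).2)
    (fun χ hχ φ hφ ψ hψ h h' => rows_four hC h4 hx (mem_irrF.1 hχ) (mem_irrF.1 hφ)
      (mem_irrF.1 hψ) h h')
    (fun χ hχ φ hφ => (columns_four hC' h4' hx' (mem_irrF.1 hφ)).1 χ hχ)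
    (fun φ hφ => (columns_four hC' h4' hx' (mem_irrF.1 hφ)).2)
    (fun χ hχ φ hφ ψ hψ h h' => rows_four hC' h4' hx' (mem_irrF.1 hχ) (mem_irrF.1 hφ)
      (mem_irrF.1 hψ) h h')
  refine ⟨(Equiv.subtypeEquivRight (E1_sets ι x (E1_x hC))).trans
    (f.trans (Equiv.subtypeEquivRight (E1_sets ι' x' (E1_x hC'))).symm), fun χ => ?_⟩
  refine ⟨1, Or.inl rfl, fun y => ?_⟩
  have hv := hf (Equiv.subtypeEquivRight (E1_sets ι x (E1_x hC)) χ)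
  have hψ : (f (Equiv.subtypeEquivRight (E1_sets ι x (E1_x hC)) χ)).1 ∈ irrF N :=
    (f (Equiv.subtypeEquivRight (E1_sets ι x (E1_x hC)) χ)).2.1
  show χ.1 (x * ι y) =
    ((1 : ℤ) : ℂ) * (f (Equiv.subtypeEquivRight (E1_sets ι x (E1_x hC)) χ)).1 (x' * ι' y)
  rw [dd_expand ι x (E1_x hC) (isChar_of_isIrr χ.2.1) y,
    dd_expand ι' x' (E1_x hC') (isChar_of_isIrr (mem_irrF.1 hψ)) y, Int.cast_one, one_mul]
  refine Finset.sum_congr rfl fun φ hφ => ?_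
  have h1 : dd ι' x' (f (Equiv.subtypeEquivRight (E1_sets ι x (E1_x hC)) χ)).1 φ =
    dd ι x χ.1 φ := hv φ hφ
  rw [h1]

end Pool.Agent.Lib.H46O
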