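import Pool.Agent.Lib.H46O.Defs

/-!
# Project H46O, chunk F1 (M): the group theory of a configuration, I
-/

open scoped Classical ComplexConjugate BigOperators

noncomputable section

namespace Pool.Agent.Lib.H46O

variable {G H : Type*} [Group G] [Finite G] [Group H] [Finite H]

/-- Proof. A common multiple argument: there is `M` with `M ≡ 1` modulo `orderOf u` (a power of two) and `M ≡ 0` modulo
`Nat.card H` (odd): `Nat.chineseRemainder`. `u ^ M = u`, `(ι h) ^ M = 1`. -/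
theorem cfg_pow {ι : H →* G} {P : Subgroup G} {x : G} {A : Subgroup (MulAut H)}
    (hC : Cfg ι P x A) {u : G} (hu : u ∈ P) : ∃ M : ℕ, ∀ h : H, (u * ι h) ^ M = u := by
  obtain ⟨k, hk⟩ := hC.isP ⟨u, hu⟩
  have hk' : u ^ (2 ^ k) = 1 := by
    have h1 := congrArg Subtype.val hk
    simpa using h1
  have hcop : Nat.Coprime (2 ^ k) (Nat.card H) :=
    Nat.Coprime.pow_left k (Nat.coprime_two_left.2 hC.odd)
  obtain ⟨M, hM1, hM2⟩ := Nat.chineseRemainder hcop 1 0
  refine ⟨M, fun h => ?_⟩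
  have hcomm : Commute u (ι h) := hC.commH u hu h
  rw [hcomm.mul_pow]
  have h1 : u ^ M = u := by
    have h2 : u ^ M = u ^ 1 := by
      rw [pow_eq_pow_iff_modEq]
      exact hM1.of_dvd (orderOf_dvd_of_pow_eq_one hk')
    rw [h2, pow_one]
  have h3 : h ^ M = 1 := by
    obtain ⟨t, ht⟩ := (Nat.modEq_zero_iff_dvd.1 hM2)
    rw [ht, pow_mul, pow_card_eq_one', one_pow]
  rw [h1, ← map_pow, h3, map_one, mul_one]

/-- An element of `P` with trivial odd power is trivial: `P` and `ι H` meet in `1`. -/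
theorem cfg_disj {ι : H →* G} {P : Subgroup G} {x : G} {A : Subgroup (MulAut H)}
    (hC : Cfg ι P x A) {u : G} (hu : u ∈ P) {h : H} (e : u = ι h) : u = 1 ∧ h = 1 := by
  obtain ⟨M, hM⟩ := cfg_pow hC (one_mem P)
  obtain ⟨M', hM'⟩ := cfg_pow hC hu
  have h1 := hM' h⁻¹
  rw [e, ← map_mul, mul_inv_cancel, map_one, one_pow] at h1
  have h2 : h = 1 := hC.inj (by rw [← h1, map_one])
  exact ⟨by rw [e, ← h1], h2⟩

/-- Proof. `k` commutes with `x`, so `k = u * ι h` (`hC.cent`). `k` is conjugate to `ι y`, so `k ^ (card H) = 1`; `u` and `ι h`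
commute, so `u ^ (card H) = 1`, and `u` has 2-power order, so `u = 1`. -/
theorem cfg_fix {ι : H →* G} {P : Subgroup G} {x : G} {A : Subgroup (MulAut H)}
    (hC : Cfg ι P x A) {k : G} (y : H) (hk : IsConj (ι y) k) (hx : x * k = k * x) :
    ∃ h : H, k = ι h := by
  obtain ⟨u, hu, h, e⟩ := hC.cent k hx.symm
  have hkc : k ^ Nat.card H = 1 := by
    obtain ⟨a, ha⟩ := isConj_iff.1 hk
    rw [← ha, conj_pow, ← map_pow, pow_card_eq_one', map_one, mul_one, mul_inv_cancel]
  have hcomm : Commute u (ι h) := hC.commH u hu h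
  rw [e, hcomm.mul_pow, ← map_pow, pow_card_eq_one', map_one, mul_one] at hkc
  obtain ⟨n, hn⟩ := hC.isP ⟨u, hu⟩
  have hn' : u ^ (2 ^ n) = 1 := by
    have h1 := congrArg Subtype.val hn
    simpa using h1
  have hcop : Nat.Coprime (2 ^ n) (Nat.card H) :=
    Nat.Coprime.pow_left n (Nat.coprime_two_left.2 hC.odd)
  have h2 : orderOf u ∣ Nat.gcd (2 ^ n) (Nat.card H) :=
    Nat.dvd_gcd (orderOf_dvd_of_pow_eq_one hn') (orderOf_dvd_of_pow_eq_one hkc)
  rw [hcop.gcd_eq_one, Nat.dvd_one, orderOf_eq_one_iff] at h2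
  exact ⟨h, by rw [e, h2, one_mul]⟩

/-- Conjugation between elements `x * ι y` is conjugation by an element centralising `x`. -/
private theorem f1_conj {ι : H →* G} {P : Subgroup G} {x : G} {A : Subgroup (MulAut H)}
    (hC : Cfg ι P x A) {y y' : H} {g : G} (hg : g * (x * ι y) * g⁻¹ = x * ι y') :
    g * x = x * g := by
  obtain ⟨M, hM⟩ := cfg_pow hC hC.mem
  have h1 : (g * (x * ι y) * g⁻¹) ^ M = (x * ι y') ^ M := by rw [hg]
  rw [conj_pow, hM y, hM y', mul_inv_eq_iff_eq_mul] at h1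
  exact h1

/-- The fusion of the elements `x * ι y`. Proof. `g (x ι y) g⁻¹ = x ι y'`; the power `M` of `cfg_pow` gives `g x g⁻¹ = x`, so
`g = u * ι h` and `ι (h y h⁻¹) = ι y'` after cancelling `x` (everything in `P` commutes with `x` and `ι H`). -/
theorem cfg_fus2 {ι : H →* G} {P : Subgroup G} {x : G} {A : Subgroup (MulAut H)}
    (hC : Cfg ι P x A) {y y' : H} (h : IsConj (x * ι y) (x * ι y')) : IsConj y y' := by
  obtain ⟨g, hg⟩ := isConj_iff.1 h
  have hgx := f1_conj hC hg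
  obtain ⟨u, hu, k, e⟩ := hC.cent g hgx
  refine isConj_iff.2 ⟨k, hC.inj ?_⟩
  have h1 : u * ι y = ι y * u := hC.commH u hu y
  have h2 : u * ι k = ι k * u := hC.commH u hu k
  have h3 : g * (x * ι y) * g⁻¹ = x * (g * ι y * g⁻¹) := by
    rw [← mul_assoc g, hgx]
    group
  rw [h3] at hg
  have h4 : g * ι y * g⁻¹ = ι y' := mul_left_cancel hg
  rw [← h4, e, map_mul, map_mul, map_inv, h2, mul_inv_rev]
  calc ι k * ι y * (ι k)⁻¹ = ι k * ι y * (u * u⁻¹) * (ι k)⁻¹ := by group
    _ = ι k * (ι y * u) * u⁻¹ * (ι k)⁻¹ := by group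
    _ = ι k * (u * ι y) * u⁻¹ * (ι k)⁻¹ := by rw [h1]
    _ = ι k * u * ι y * (u⁻¹ * (ι k)⁻¹) := by group

/-- Proof. `g` centralises `x ι y`; by the power `M` it centralises `x`; `g = u ι h`, and `h` centralises `y`. So
`(u, h) ↦ u * ι h` is a bijection from `P × C_H(y)` to `C_G(x ι y)` (injective by `cfg_disj`). -/
theorem cfg_cent {ι : H →* G} {P : Subgroup G} {x : G} {A : Subgroup (MulAut H)}
    (hC : Cfg ι P x A) (y : H) : Nat.card (Subgroup.centralizer {x * ι y}) =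
      Nat.card P * Nat.card (Subgroup.centralizer {y}) := by
  rw [← Nat.card_prod]
  symm
  refine Nat.card_congr (Equiv.ofBijective (fun w : P × Subgroup.centralizer {y} =>
    (⟨w.1.1 * ι w.2.1, ?_⟩ : Subgroup.centralizer {x * ι y})) ⟨?_, ?_⟩)
  · obtain ⟨⟨u, hu⟩, ⟨h, hh⟩⟩ := w
    rw [Subgroup.mem_centralizer_singleton_iff] at hh ⊢
    dsimp only
    have h1 : u * x = x * u := hC.comm u hu x hC.mem
    have h2 : u * ι y = ι y * u := hC.commH u hu y
    have h3 : x * ι h = ι h * x := hC.commH x hC.mem h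
    have h4 : ι h * ι y = ι y * ι h := by rw [← map_mul, ← map_mul, hh]
    calc u * ι h * (x * ι y) = u * (ι h * x) * ι y := by group
      _ = u * (x * ι h) * ι y := by rw [h3]
      _ = (u * x) * (ι h * ι y) := by group
      _ = (x * u) * (ι y * ι h) := by rw [h1, h4]
      _ = x * (u * ι y) * ι h := by group
      _ = x * (ι y * u) * ι h := by rw [h2]
      _ = x * ι y * (u * ι h) := by group
  · rintro ⟨⟨u, hu⟩, ⟨h, hh⟩⟩ ⟨⟨v, hv⟩, ⟨k, hk⟩⟩ e
    have e1 : u * ι h = v * ι k := congrArg Subtype.val e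
    have e2 : v⁻¹ * u = ι (k * h⁻¹) := by
      rw [map_mul, map_inv, eq_mul_inv_iff_mul_eq, mul_assoc, e1]
      group
    obtain ⟨h1, h2⟩ := cfg_disj hC (P.mul_mem (P.inv_mem hv) hu) e2
    have h3 : u = v := (inv_mul_eq_one.1 h1).symm
    have h4 : k = h := mul_inv_eq_one.1 h2
    subst h3 h4
    rfl
  · rintro ⟨g, hg⟩
    have hg' := hg
    rw [Subgroup.mem_centralizer_singleton_iff] at hg'
    have h1 : g * (x * ι y) * g⁻¹ = x * ι y := by
      rw [mul_inv_eq_iff_eq_mul]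
      exact hg'
    have hgx := f1_conj hC h1
    obtain ⟨u, hu, k, e⟩ := hC.cent g hgx
    have h2 : u * x = x * u := hC.comm u hu x hC.mem
    have h5 : u * ι y = ι y * u := hC.commH u hu y
    have h6 : g * ι y = ι y * g := by
      have h7 : x * (g * ι y) = x * (ι y * g) := by
        rw [← mul_assoc, ← hgx, mul_assoc, hg', mul_assoc]
      exact mul_left_cancel h7
    have h8 : k * y = y * k := by
      refine hC.inj ?_
      rw [map_mul, map_mul]
      rw [e, mul_assoc, ← mul_assoc (ι y), ← h5, mul_assoc u] at h6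
      exact mul_left_cancel h6
    refine ⟨⟨⟨u, hu⟩, ⟨k, ?_⟩⟩, Subtype.ext e.symm⟩
    rw [Subgroup.mem_centralizer_singleton_iff]
    exact h8

/-- No element `x * ι y` is conjugate to `1`: its power `M` is `x ≠ 1`. -/
theorem cfg_ne_one {ι : H →* G} {P : Subgroup G} {x : G} {A : Subgroup (MulAut H)}
    (hC : Cfg ι P x A) (y : H) : ¬ IsConj (x * ι y) 1 := by
  intro h
  obtain ⟨M, hM⟩ := cfg_pow hC hC.mem
  have h1 : x * ι y = 1 := by
    obtain ⟨g, hg⟩ := isConj_iff.1 h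
    rw [mul_inv_eq_iff_eq_mul, one_mul] at hg
    exact mul_left_cancel (hg.trans (mul_one g).symm)
  have h2 := hM y
  rw [h1, one_pow] at h2
  exact hC.ne h2.symm

end Pool.Agent.Lib.H46O
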