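import Mathlib

/-!
# Project H46O, chunk G1 (M): picky elements of Sylow 2-subgroups of order at most four
-/

open scoped Classical BigOperators

namespace Pool.Agent.Lib.H46O

variable {G : Type*} [Group G] [Finite G]

/-- Proof. `x = g x g⁻¹ ∈ g P g⁻¹`, a Sylow subgroup containing `x`, so `g • P = P` (`Sylow.smul_eq_iff_mem_normalizer`). -/
theorem g1_le (P : Sylow 2 G) {x : G} (hx : x ∈ P) (hp : ∀ Q : Sylow 2 G, x ∈ Q → Q = P) {g : G}
    (hg : g * x = x * g) : g ∈ Subgroup.normalizer ((P : Subgroup G) : Set G) := by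
  have h1 : x ∈ g • P := by
    change x ∈ ((g • P : Sylow 2 G) : Subgroup G)
    rw [Sylow.coe_subgroup_smul, Subgroup.mem_pointwise_smul_iff_inv_smul_mem]
    have h2 : (MulAut.conj g)⁻¹ • x = x := by
      rw [← map_inv, MulAut.smul_def, MulAut.conj_apply, inv_inv, mul_assoc, ← hg,
        inv_mul_cancel_left]
    rw [h2]
    exact hx
  exact Sylow.smul_eq_iff_mem_normalizer.1 (hp _ h1)

/-- A group of order dividing four is abelian (`IsPGroup.commutative_of_card_eq_prime_sq`, cyclic of prime order, trivial). -/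
theorem g1_comm (P : Subgroup G) (h4 : Nat.card P ∣ 4) {u v : G} (hu : u ∈ P) (hv : v ∈ P) :
    u * v = v * u := by
  have h1 : Nat.card P = 1 ∨ Nat.card P = 2 ∨ Nat.card P = 4 := by
    have h2 : Nat.card P ≤ 4 := Nat.le_of_dvd (by norm_num) h4
    have h3 : 0 < Nat.card P := Nat.card_pos
    interval_cases Nat.card P <;> simp_all
  have key : ∀ a b : P, a * b = b * a := by
    intro a b
    rcases h1 with h1 | h1 | h1
    · have : Subsingleton P := (Nat.card_eq_one_iff_unique.1 h1).1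
      exact Subsingleton.elim _ _
    · have : Fact (Nat.Prime 2) := ⟨Nat.prime_two⟩
      have hc : IsCyclic P := isCyclic_of_prime_card h1
      obtain ⟨c, hc⟩ := hc.exists_generator
      obtain ⟨i, hi⟩ := Subgroup.mem_zpowers_iff.1 (hc a)
      obtain ⟨j, hj⟩ := Subgroup.mem_zpowers_iff.1 (hc b)
      rw [← hi, ← hj]
      exact zpow_mul_comm c i j
    · have : Fact (Nat.Prime 2) := ⟨Nat.prime_two⟩
      exact (IsPGroup.isMulCommutative_of_card_eq_prime_sq (p := 2) (by rw [h1]; norm_num)).is_comm.comm a b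
  exact congrArg Subtype.val (key ⟨u, hu⟩ ⟨v, hv⟩)

/-- Proof. The centraliser `C` of `P` contains `P` (`g1_comm`), is normal in `N = N_G(P)`, so `[N : C]` is odd (`P` is Sylow) and
`g ^ [N : C] ∈ C`. -/
theorem g1_odd (P : Sylow 2 G) (h4 : Nat.card P ∣ 4) {g : G}
    (hg : g ∈ Subgroup.normalizer ((P : Subgroup G) : Set G)) :
    ∃ m : ℕ, Odd m ∧ ∀ u ∈ P, g ^ m * u * (g ^ m)⁻¹ = u := by
  have hpos : orderOf g ≠ 0 := (orderOf_pos g).ne'
  obtain ⟨s, m, hm, hsm⟩ := Nat.exists_eq_two_pow_mul_odd hpos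
  refine ⟨m, hm, ?_⟩
  have : Fact (Nat.Prime 2) := ⟨Nat.prime_two⟩
  have hm0 : m ≠ 0 := by rintro rfl; simp at hm
  have h1 : orderOf (g ^ m) = 2 ^ s := by
    rw [orderOf_pow_of_dvd hm0 ⟨2 ^ s, by rw [hsm]; ring⟩, hsm]
    exact Nat.mul_div_cancel _ (Nat.pos_of_ne_zero hm0)
  have h2 : IsPGroup 2 (Subgroup.zpowers (g ^ m)) :=
    IsPGroup.of_card (n := s) (by rw [Nat.card_zpowers, h1])
  have h3 := h2.inf_normalizer_sylow P
  have h5 : g ^ m ∈ Subgroup.zpowers (g ^ m) ⊓ Subgroup.normalizer ((P : Subgroup G) : Set G) :=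
    ⟨Subgroup.mem_zpowers _, Subgroup.pow_mem _ hg m⟩
  have h6 : g ^ m ∈ (P : Subgroup G) := by
    have h7 : g ^ m ∈ Subgroup.zpowers (g ^ m) ⊓ (P : Subgroup G) := by
      rw [← h3]
      exact h5
    exact h7.2
  intro u hu
  have h8 := g1_comm (P : Subgroup G) h4 h6 hu
  rw [h8, mul_inv_cancel_right]

/-- Proof. `g` normalises `P` (`g1_le`) and fixes `1` and `x`. If `|P| = 2`, `P = {1, x}`. If `|P| = 4` the other two elements `u, v` are
fixed or exchanged by conjugation with `g`; if they were exchanged, so they would be by `g ^ m`, `m` odd, against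
`g1_odd`. -/
theorem g1_central (P : Sylow 2 G) (h4 : Nat.card P ∣ 4) {x : G} (hx : x ∈ P) (hx1 : x ≠ 1)
    (hp : ∀ Q : Sylow 2 G, x ∈ Q → Q = P) {g : G} (hg : g * x = x * g) :
    ∀ u ∈ P, g * u = u * g := by
  have hN := g1_le P hx hp hg
  obtain ⟨m, hm, hc⟩ := g1_odd P h4 hN
  intro u hu
  by_contra hne
  have hsig : ∀ w ∈ P, g * w * g⁻¹ ∈ P := fun w hw => (Subgroup.mem_normalizer_iff.1 hN w).1 hw
  have hinj : ∀ w w', g * w * g⁻¹ = g * w' * g⁻¹ → w = w' := by
    intro w w' h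
    exact mul_left_cancel (mul_right_cancel h)
  have hfx : g * x * g⁻¹ = x := by rw [hg, mul_inv_cancel_right]
  have hf1 : g * 1 * g⁻¹ = 1 := by group
  have hu1 : g * u * g⁻¹ ≠ u := by
    intro h
    apply hne
    calc g * u = g * u * g⁻¹ * g := by group
      _ = u * g := by rw [h]
  set v := g * u * g⁻¹ with hv
  set w := g * v * g⁻¹ with hw
  have hvP : v ∈ P := hsig u hu
  have hwP : w ∈ P := hsig v hvP
  have a1 : u ≠ 1 := by rintro rfl; exact hu1 (by rw [hv]; group)
  have a2 : u ≠ x := by rintro rfl; exact hu1 hfx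
  have a3 : v ≠ 1 := fun h => a1 (hinj _ _ (by rw [hf1, ← hv, h]))
  have a4 : v ≠ x := fun h => a2 (hinj _ _ (by rw [hfx, ← hv, h]))
  have a5 : w ≠ 1 := fun h => a3 (hinj _ _ (by rw [hf1, ← hw, h]))
  have a6 : w ≠ x := fun h => a4 (hinj _ _ (by rw [hfx, ← hw, h]))
  have a7 : w ≠ v := fun h => hu1 (hinj _ _ (by rw [← hw, h]))
  have a8 : w = u := by
    by_contra a8
    have hsub : ({1, x, u, v, w} : Set G) ⊆ ((P : Subgroup G) : Set G) := by
      intro z hz
      simp only [Set.mem_insert_iff, Set.mem_singleton_iff] at hz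
      rcases hz with rfl | rfl | rfl | rfl | rfl
      · exact one_mem _
      · exact hx
      · exact hu
      · exact hvP
      · exact hwP
    have hcard : ({1, x, u, v, w} : Set G).ncard = 5 := by
      rw [Set.ncard_insert_of_notMem, Set.ncard_insert_of_notMem, Set.ncard_insert_of_notMem,
        Set.ncard_pair (Ne.symm a7)]
      · simp only [Set.mem_insert_iff, Set.mem_singleton_iff, not_or]
        exact ⟨Ne.symm hu1, Ne.symm a8⟩
      · simp only [Set.mem_insert_iff, Set.mem_singleton_iff, not_or]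
        exact ⟨Ne.symm a2, Ne.symm a4, Ne.symm a6⟩
      · simp only [Set.mem_insert_iff, Set.mem_singleton_iff, not_or]
        exact ⟨Ne.symm hx1, Ne.symm a1, Ne.symm a3, Ne.symm a5⟩
    have h1 := Set.ncard_le_ncard hsub (Set.toFinite _)
    have h2 : ((P : Subgroup G) : Set G).ncard = Nat.card (P : Subgroup G) := rfl
    have h3 : Nat.card (P : Subgroup G) ≤ 4 := Nat.le_of_dvd (by norm_num) h4
    omega
  have h2 : ∀ k : ℕ, g ^ (2 * k) * u * (g ^ (2 * k))⁻¹ = u := by
    intro k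
    induction k with
    | zero => simp
    | succ k ih =>
        have h3 : g ^ (2 * (k + 1)) * u * (g ^ (2 * (k + 1)))⁻¹ =
            g * (g * (g ^ (2 * k) * u * (g ^ (2 * k))⁻¹) * g⁻¹) * g⁻¹ := by
          rw [show 2 * (k + 1) = 1 + (1 + 2 * k) from by ring, pow_add, pow_add, pow_one]
          group
        rw [h3, ih, ← hv, ← hw, a8]
  obtain ⟨k, rfl⟩ := hm
  have h5 := hc u hu
  have h6 : g ^ (2 * k + 1) * u * (g ^ (2 * k + 1))⁻¹ =
      g * (g ^ (2 * k) * u * (g ^ (2 * k))⁻¹) * g⁻¹ := by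
    rw [show 2 * k + 1 = 1 + 2 * k from by ring, pow_add, pow_one]
    group
  rw [h6, h2 k, ← hv] at h5
  exact hu1 h5

end Pool.Agent.Lib.H46O
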