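import Mathlib

/-!
# Project H46O, chunk G2 (M/L): the normal complement of a central Sylow subgroup
-/

open scoped Classical BigOperators

namespace Pool.Agent.Lib.H46O

variable {G : Type*} [Group G] [Finite G]

/-- Burnside (or Schur-Zassenhaus / Gaschütz): a central Sylow 2-subgroup has a normal complement.
Proof. Let `C = Subgroup.centralizer {x}`. `P ≤ C` is a Sylow 2-subgroup of `C` (`Sylow.subtype`), central in `C` by `hc`; so
`MonoidHom.ker_transferSylow_isComplement'` (normaliser ≤ centraliser) gives a normal complement `K` of `P` in `C`;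
`|K| = [C : P]` is odd. Take `H = K.map C.subtype`. -/
theorem g2_compl (P : Sylow 2 G) {x : G} (hx : x ∈ P)
    (hc : ∀ g : G, g * x = x * g → ∀ u ∈ P, g * u = u * g) :
    ∃ H : Subgroup G, Odd (Nat.card H) ∧ (∀ u ∈ P, ∀ h ∈ H, u * h = h * u) ∧
      ∀ g : G, g * x = x * g → ∃ u ∈ P, ∃ h ∈ H, g = u * h := by
  set C : Subgroup G := Subgroup.centralizer {x} with hC
  have memC : ∀ g : G, g ∈ C ↔ g * x = x * g := by
    intro g
    rw [hC, Subgroup.mem_centralizer_singleton_iff]
  have hPC : (P : Subgroup G) ≤ C := by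
    intro u hu
    rw [memC]
    exact (hc x rfl u hu).symm
  let P' : Sylow 2 C := P.subtype hPC
  have memP' : ∀ g : C, g ∈ P' ↔ (g : G) ∈ P := by
    intro g
    rfl
  have hcen : Subgroup.normalizer (P' : Set C) ≤ Subgroup.centralizer (P' : Set C) := by
    intro g _
    rw [Subgroup.mem_centralizer_iff]
    intro u hu
    have h1 : (g : G) * x = x * g := (memC g).mp g.2
    have h2 := hc g h1 u ((memP' u).mp hu)
    exact Subtype.ext h2.symm
  have hcomp := MonoidHom.ker_transferSylow_isComplement' P' hcen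
  have hodd := MonoidHom.not_dvd_card_ker_transferSylow P' hcen
  set K : Subgroup C := (MonoidHom.transferSylow P' hcen).ker with hK
  refine ⟨K.map C.subtype, ?_, ?_, ?_⟩
  · have h1 : Nat.card (K.map C.subtype) = Nat.card K :=
      Nat.card_congr (K.equivMapOfInjective C.subtype C.subtype_injective).toEquiv.symm
    rw [h1, ← Nat.not_even_iff_odd]
    exact fun h => hodd h.two_dvd
  · rintro u hu h ⟨k, hk, rfl⟩
    exact (hc (C.subtype k) ((memC _).mp k.2) u hu).symm
  · intro g hg
    have hgC : g ∈ C := (memC g).mpr hg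
    obtain ⟨⟨k, p⟩, hkp⟩ := hcomp.2 ⟨g, hgC⟩
    have hkp' : (k : C) * (p : C) = ⟨g, hgC⟩ := hkp
    have hkp2 : ((k : C) : G) * ((p : C) : G) = g := congrArg Subtype.val hkp'
    have hp : ((p : C) : G) ∈ P := (memP' _).mp p.2
    refine ⟨((p : C) : G), hp, ((k : C) : G), ⟨(k : C), k.2, rfl⟩, ?_⟩
    rw [← hkp2]
    exact hc _ ((memC _).mp (k : C).2) _ hp

end Pool.Agent.Lib.H46O
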