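import Pool.Agent.Lib.H46O.F1
import Pool.Agent.Lib.H46O.G1
import Pool.Agent.Lib.H46O.G2

/-!
# Project H46O, chunk G3 (M): the configurations of `G` and of the normaliser
-/

open scoped Classical ComplexConjugate BigOperators

noncomputable section

namespace Pool.Agent.Lib.H46O

/-- The automorphisms of `H` induced by the normaliser of `P`. -/
def autGrp {G H : Type*} [Group G] [Group H] (ι : H →* G) (P : Subgroup G) :
    Subgroup (MulAut H) where
  carrier := {α | ∃ n ∈ Subgroup.normalizer (P : Set G), ∀ h : H, ι (α h) = n * ι h * n⁻¹}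
  one_mem' := ⟨1, one_mem _, fun h => by simp⟩
  mul_mem' := by
    rintro α β ⟨n, hn, h1⟩ ⟨m, hm, h2⟩
    refine ⟨n * m, mul_mem hn hm, fun h => ?_⟩
    rw [MulAut.mul_apply, h1, h2]
    group
  inv_mem' := by
    rintro α ⟨n, hn, h1⟩
    refine ⟨n⁻¹, inv_mem hn, fun h => ?_⟩
    have h3 := h1 (α⁻¹ h)
    rw [MulAut.apply_inv_self] at h3
    rw [h3]
    group

variable {G : Type*} [Group G] [Finite G]

/-- Proof. `g2_compl` with `g1_central`; `g1_comm`; the Sylow subgroup has odd index (`Sylow.not_dvd_index`). -/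
theorem cfg_of_picky (P : Sylow 2 G) (h4 : Nat.card P ∣ 4) {x : G} (hx : x ∈ P) (hx1 : x ≠ 1)
    (hp : ∀ Q : Sylow 2 G, x ∈ Q → Q = P) :
    ∃ H : Subgroup G, Cfg H.subtype (P : Subgroup G) x (autGrp H.subtype (P : Subgroup G)) := by
  obtain ⟨H, hodd, hcomm, hcent⟩ := g2_compl P hx fun g hg => g1_central P h4 hx hx1 hp hg
  refine ⟨H, ?_⟩
  constructor
  · exact H.subtype_injective
  · exact hodd
  · exact P.isPGroup'
  · rw [← Nat.not_even_iff_odd, even_iff_two_dvd]
    exact P.not_dvd_index
  · intro u hu v hv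
    exact g1_comm (P : Subgroup G) h4 hu hv
  · exact hx
  · exact hx1
  · intro u hu h
    exact hcomm u hu h h.2
  · intro g hg
    obtain ⟨u, hu, h, hh, e⟩ := hcent g hg
    exact ⟨u, hu, ⟨h, hh⟩, e⟩
  · intro α
    exact Iff.rfl

/-- Proof. `N` contains the centraliser of `x` (`hN` and `hC.cent`, `hC.commH`: elements `u * h` normalise `P`); all conditions are
inherited; `P.subgroupOf N` is normal in `N`, so its normaliser is everything and `autA` is the definition of `autGrp`; its
index in `N` divides ... `P.relIndex N`, a divisor of the odd number `P.index`. -/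
theorem cfg_normalizer {P : Subgroup G} {x : G} {H : Subgroup G} (hxP : x ∈ P)
    (hC : Cfg H.subtype P x (autGrp H.subtype P)) {N : Subgroup G}
    (hN : N = Subgroup.normalizer (P : Set G)) (hHN : H ≤ N) (hPN : P ≤ N) :
    Cfg (Subgroup.inclusion hHN) (P.subgroupOf N) (⟨x, hPN hxP⟩ : N)
      (autGrp H.subtype P) := by
  have hnormal : (P.subgroupOf N).Normal := by
    rw [hN]
    exact Subgroup.normal_in_normalizer
  constructor
  · exact Subgroup.inclusion_injective hHN
  · exact hC.odd
  · exact hC.isP.comap_of_injective N.subtype N.subtype_injective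
  · exact Odd.of_dvd_nat hC.idx (Subgroup.relIndex_dvd_index_of_le hPN)
  · intro u hu v hv
    exact Subtype.ext (hC.comm u hu v hv)
  · exact hxP
  · intro h
    exact hC.ne (congrArg Subtype.val h)
  · intro u hu h
    exact Subtype.ext (hC.commH u hu h)
  · intro g hg
    obtain ⟨u, hu, h, e⟩ := hC.cent g (congrArg Subtype.val hg)
    exact ⟨⟨u, hPN hu⟩, hu, h, Subtype.ext e⟩
  · intro α
    constructor
    · rintro ⟨n, hn, h1⟩
      refine ⟨⟨n, by rw [hN]; exact hn⟩, ?_, fun h => Subtype.ext (h1 h)⟩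
      rw [Subgroup.normalizer_eq_top]
      exact Subgroup.mem_top _
    · rintro ⟨n, -, h1⟩
      have h2 : (n : G) ∈ Subgroup.normalizer (P : Set G) := hN.le n.2
      exact ⟨n, h2, fun h => congrArg Subtype.val (h1 h)⟩

/-- Elements of odd order commuting with `x` are the elements of `H`. Proof. `y = u * h` (`hC.cent`), and if the order of `y` is odd,
an odd power `m` (a multiple of `Nat.card H`) kills both `y` and `h`, so `u ^ m = 1` and `u = 1`. Conversely the order of
`h ∈ H` divides `Nat.card H`. -/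
theorem odd_iff_mem {P : Subgroup G} {x : G} {H : Subgroup G}
    (hC : Cfg H.subtype P x (autGrp H.subtype P)) {y : G} (hy : y * x = x * y) :
    Odd (orderOf y) ↔ y ∈ H := by
  constructor
  · intro hodd
    obtain ⟨u, hu, h, e⟩ := hC.cent y hy
    have hcomm : Commute u (H.subtype h) := hC.commH u hu h
    have hm : Odd (orderOf y * Nat.card H) := hodd.mul hC.odd
    have h1 : y ^ (orderOf y * Nat.card H) = 1 := by
      rw [pow_mul, pow_orderOf_eq_one, one_pow]
    have h2 : (H.subtype h) ^ (orderOf y * Nat.card H) = 1 := by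
      rw [← map_pow, mul_comm, pow_mul, pow_card_eq_one', one_pow, map_one]
    have h3 : u ^ (orderOf y * Nat.card H) = 1 := by
      have h4 : (u * H.subtype h) ^ (orderOf y * Nat.card H) = 1 := by
        rw [← e]
        exact h1
      rw [hcomm.mul_pow, h2, mul_one] at h4
      exact h4
    obtain ⟨n, hn⟩ := hC.isP ⟨u, hu⟩
    have hn' : u ^ (2 ^ n) = 1 := by
      have h4 := congrArg Subtype.val hn
      simpa using h4
    have hcop : Nat.Coprime (2 ^ n) (orderOf y * Nat.card H) :=
      Nat.Coprime.pow_left n (Nat.coprime_two_left.2 hm)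
    have h5 : orderOf u ∣ Nat.gcd (2 ^ n) (orderOf y * Nat.card H) :=
      Nat.dvd_gcd (orderOf_dvd_of_pow_eq_one hn') (orderOf_dvd_of_pow_eq_one h3)
    rw [hcop.gcd_eq_one, Nat.dvd_one, orderOf_eq_one_iff] at h5
    rw [e, h5, one_mul]
    exact h.2
  · intro hy
    have h1 : orderOf y ∣ Nat.card H := by
      have h2 := orderOf_dvd_natCard (⟨y, hy⟩ : H)
      rwa [Subgroup.orderOf_mk] at h2
    exact Odd.of_dvd_nat hC.odd h1

end Pool.Agent.Lib.H46O
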