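import Pool.Agent.Lib.H46O.Defs

/-!
# Project H46O, chunk K1 (S/M): expansion of class functions
-/

open scoped Classical ComplexConjugate BigOperators

noncomputable section

namespace Pool.Agent.Lib.H46O

open Pool.Agent.Lib.H90Q

variable {X : Type*} [Group X] [Fintype X]

/-- Sum form of orthonormality. Proof: `irr_ortho` and `Nat.card X ≠ 0`. -/
theorem irr_ortho' {χ ψ : X → ℂ} (hχ : IsIrr χ) (hψ : IsIrr ψ) :
    ∑ x, χ x * conj (ψ x) = if χ = ψ then (Nat.card X : ℂ) else 0 := by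
  have h := irr_ortho hχ hψ
  have hc : (Nat.card X : ℂ) ≠ 0 := by exact_mod_cast Nat.card_pos.ne'
  have h2 : (Nat.card X : ℂ) * ((Nat.card X : ℂ)⁻¹ * ∑ x, χ x * conj (ψ x)) =
      (Nat.card X : ℂ) * (if χ = ψ then 1 else 0) := by rw [h]
  rw [mul_inv_cancel_left₀ hc] at h2
  rw [h2]
  split_ifs
  · rw [mul_one]
  · rw [mul_zero]

private theorem k1_isChar {χ : X → ℂ} (h : IsIrr χ) : IsChar χ := by
  obtain ⟨n, ρ, _, hρ⟩ := h
  exact ⟨n, ρ, hρ⟩

private theorem k1_conj {χ : X → ℂ} (h : IsIrr χ) (a x : X) : χ (a * x * a⁻¹) = χ x :=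
  char_conj (k1_isChar h) a x

private theorem k1_cls (h : X) :
    (((Finset.univ.filter fun x => IsConj x h).card : ℕ) : ℂ) *
      (Nat.card (Subgroup.centralizer {h}) : ℂ) = (Nat.card X : ℂ) := by
  have h1 := Subgroup.card_mul_index (MulAction.stabilizer (ConjAct X) h)
  rw [MulAction.index_stabilizer] at h1
  have h2 : (MulAction.orbit (ConjAct X) h).ncard =
      (Finset.univ.filter fun x => IsConj x h).card := by
    rw [← Set.ncard_coe_finset]
    refine congrArg Set.ncard ?_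
    ext x
    simp only [Finset.coe_filter, Finset.mem_univ, true_and, Set.mem_setOf_eq]
    rw [ConjAct.mem_orbit_conjAct]
  have h3 : Nat.card (MulAction.stabilizer (ConjAct X) h) =
      Nat.card (Subgroup.centralizer {h}) := by
    refine Nat.card_congr ⟨fun a => ⟨ConjAct.ofConjAct a.1, ?_⟩,
      fun a => ⟨ConjAct.toConjAct a.1, ?_⟩, fun a => rfl, fun a => rfl⟩
    · have ha := a.2
      rw [MulAction.mem_stabilizer_iff, ConjAct.smul_def] at ha
      rw [Subgroup.mem_centralizer_singleton_iff]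
      rw [mul_inv_eq_iff_eq_mul] at ha
      exact ha
    · have ha := a.2
      rw [Subgroup.mem_centralizer_singleton_iff] at ha
      rw [MulAction.mem_stabilizer_iff, ConjAct.smul_def, mul_inv_eq_iff_eq_mul,
        ConjAct.ofConjAct_toConjAct]
      exact ha
  have h4 : Nat.card (ConjAct X) = Nat.card X := Nat.card_congr ConjAct.ofConjAct.toEquiv
  rw [h2, h3, h4] at h1
  rw [mul_comm]
  exact_mod_cast h1

/-- Proof. `f - ∑_χ c_χ χ` is a class function (`char_conj`) orthogonal to all irreducible characters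
(`irr_ortho`), so it vanishes by `complete`. -/
theorem cf_expand (f : X → ℂ) (hf : ∀ a x, f (a * x * a⁻¹) = f x) (g : X) :
    f g = ∑ χ ∈ irrF X, ((Nat.card X : ℂ)⁻¹ * ∑ x, f x * conj (χ x)) * χ g := by
  have hc : (Nat.card X : ℂ) ≠ 0 := by exact_mod_cast Nat.card_pos.ne'
  have h := complete (fun g => f g -
    ∑ χ ∈ irrF X, ((Nat.card X : ℂ)⁻¹ * ∑ x, f x * conj (χ x)) * χ g) ?_ ?_
  · have h2 := congrFun h g
    exact sub_eq_zero.1 h2
  · intro a x
    rw [hf a x]
    refine congrArg (fun t => f x - t) (Finset.sum_congr rfl fun χ hχ => ?_)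
    rw [k1_conj (mem_irrF.1 hχ)]
  · intro ψ hψ
    have e1 : ∀ x, (f x - ∑ χ ∈ irrF X, ((Nat.card X : ℂ)⁻¹ * ∑ x, f x * conj (χ x)) * χ x) *
        conj (ψ x) = f x * conj (ψ x) -
          ∑ χ ∈ irrF X, ((Nat.card X : ℂ)⁻¹ * ∑ x, f x * conj (χ x)) * (χ x * conj (ψ x)) := by
      intro x
      rw [sub_mul, Finset.sum_mul]
      refine congrArg (fun t => f x * conj (ψ x) - t) (Finset.sum_congr rfl fun χ _ => ?_)
      ring
    rw [Finset.sum_congr rfl fun x _ => e1 x, Finset.sum_sub_distrib, Finset.sum_comm]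
    have e2 : ∀ χ ∈ irrF X, ∑ x, ((Nat.card X : ℂ)⁻¹ * ∑ x, f x * conj (χ x)) *
        (χ x * conj (ψ x)) = if χ = ψ then ∑ x, f x * conj (ψ x) else 0 := by
      intro χ hχ
      rw [← Finset.mul_sum, irr_ortho' (mem_irrF.1 hχ) hψ]
      split_ifs with h1
      · subst h1
        rw [mul_comm, ← mul_assoc, mul_inv_cancel₀ hc, one_mul]
      · rw [mul_zero]
    rw [Finset.sum_congr rfl e2, Finset.sum_ite_eq', if_pos (mem_irrF.2 hψ), sub_self]

/-- Second orthogonality. Proof. Apply `cf_expand` to `f g = if IsConj g h then 1 else 0`: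
`∑_x f x conj (χ x) = (number of conjugates of h) * conj (χ h)` (characters are class functions), and
`(number of conjugates of h) * |C(h)| = |X|` (`Subgroup.card_eq_card_quotient_mul_card_subgroup`,
`ConjClasses.card_carrier`, or `MulAction.card_orbit_mul_card_stabilizer_eq_card_group` for `ConjAct`).
-/
theorem second_ortho (g h : X) :
    ∑ χ ∈ irrF X, χ g * conj (χ h) =
      if IsConj g h then (Nat.card (Subgroup.centralizer {h}) : ℂ) else 0 := by
  have hc : (Nat.card X : ℂ) ≠ 0 := by exact_mod_cast Nat.card_pos.ne'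
  have hN := k1_cls h
  set N : ℂ := (((Finset.univ.filter fun x => IsConj x h).card : ℕ) : ℂ) with hNd
  have hN0 : N ≠ 0 := by
    intro h0
    rw [h0, zero_mul] at hN
    exact hc hN.symm
  have hcls : ∀ a x : X, IsConj (a * x * a⁻¹) h ↔ IsConj x h := by
    intro a x
    have h1 : IsConj x (a * x * a⁻¹) := isConj_iff.2 ⟨a, rfl⟩
    exact ⟨fun h2 => h1.trans h2, fun h2 => h1.symm.trans h2⟩
  have h1 := cf_expand (fun x : X => if IsConj x h then (1 : ℂ) else 0)
    (fun a x => by simp only [hcls a x]) g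
  have h2 : ∀ χ ∈ irrF X, ∑ x, (if IsConj x h then (1 : ℂ) else 0) * conj (χ x) =
      N * conj (χ h) := by
    intro χ hχ
    have h3 : ∀ x, (if IsConj x h then (1 : ℂ) else 0) * conj (χ x) =
        if IsConj x h then conj (χ h) else 0 := by
      intro x
      split_ifs with h4
      · obtain ⟨a, ha⟩ := isConj_iff.1 h4
        rw [one_mul, ← ha, k1_conj (mem_irrF.1 hχ)]
      · rw [zero_mul]
    rw [Finset.sum_congr rfl fun x _ => h3 x, ← Finset.sum_filter, Finset.sum_const, nsmul_eq_mul]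
  have h5 : (if IsConj g h then (1 : ℂ) else 0) =
      (Nat.card X : ℂ)⁻¹ * N * ∑ χ ∈ irrF X, χ g * conj (χ h) := by
    rw [h1, Finset.mul_sum]
    refine Finset.sum_congr rfl fun χ hχ => ?_
    rw [h2 χ hχ]
    ring
  have h6 : ∑ χ ∈ irrF X, χ g * conj (χ h) =
      (Nat.card (Subgroup.centralizer {h}) : ℂ) * (if IsConj g h then (1 : ℂ) else 0) := by
    rw [h5, ← hN]
    have hC0 : (Nat.card (Subgroup.centralizer {h}) : ℂ) ≠ 0 := by
      exact_mod_cast Nat.card_pos.ne'
    field_simp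
  rw [h6]
  split_ifs
  · rw [mul_one]
  · rw [mul_zero]

end Pool.Agent.Lib.H46O
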