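import Pool.Agent.Lib.H46O.K1

/-!
# Project H46O, chunk K5 (S/M): multiplicities, values and integrality
-/

open scoped Classical ComplexConjugate BigOperators

noncomputable section

namespace Pool.Agent.Lib.H46O

open Pool.Agent.Lib.H90Q

variable {X : Type*} [Group X] [Fintype X]

/-- The multiplicity is a natural number. Proof: `char_decomp` (a character is the sum of a multiset `s`
of irreducible ones) and `irr_ortho'`: the inner product is the number of entries of `s` equal to `φ`
(`Multiset.induction`). -/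
theorem mult_nat {χ φ : X → ℂ} (hχ : IsChar χ) (hφ : IsIrr φ) :
    ∃ n : ℕ, (Nat.card X : ℂ)⁻¹ * ∑ x, χ x * conj (φ x) = n := by
  obtain ⟨s, hs, rfl⟩ := char_decomp hχ
  clear hχ
  induction s using Multiset.induction with
  | empty => exact ⟨0, by simp⟩
  | cons a s ih =>
    obtain ⟨n, hn⟩ := ih fun ψ hψ => hs ψ (Multiset.mem_cons_of_mem hψ)
    have ha := irr_ortho (hs a (Multiset.mem_cons_self a s)) hφ
    have h1 : ∑ x, (a ::ₘ s).sum x * conj (φ x) =
        ∑ x, a x * conj (φ x) + ∑ x, s.sum x * conj (φ x) := by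
      rw [← Finset.sum_add_distrib]
      refine Finset.sum_congr rfl fun x _ => ?_
      rw [Multiset.sum_cons, Pi.add_apply, add_mul]
    rw [h1, mul_add, ha, hn]
    split_ifs
    · exact ⟨1 + n, by push_cast; ring⟩
    · exact ⟨n, by rw [zero_add]⟩

/-- Values of characters are algebraic integers. Proof: `χ x` is the trace of a matrix `M` with
`M ^ N = 1`, `N = orderOf x`; the trace is the sum of the roots of the characteristic polynomial
(`Matrix.trace_eq_sum_roots_charpoly`), every root is an eigenvalue, so its `N`-th power is `1`. -/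
theorem char_int {χ : X → ℂ} (hχ : IsChar χ) (x : X) : IsIntegral ℤ (χ x) := by
  obtain ⟨n, ρ, rfl⟩ := hχ
  have h1 : ρ.character x = LinearMap.trace ℂ (Fin n → ℂ) (ρ x) := rfl
  rw [h1, Module.End.trace_eq_sum_roots_charpoly_of_splits (IsAlgClosed.splits _)]
  refine IsIntegral.multiset_sum fun μ hμ => ?_
  have h2 : (LinearMap.charpoly (ρ x)).IsRoot μ := Polynomial.isRoot_of_mem_roots hμ
  have h3 := (Module.End.hasEigenvalue_iff_isRoot_charpoly (ρ x) μ).2 h2
  obtain ⟨v, hv⟩ := h3.exists_hasEigenvector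
  have h4 := hv.pow_apply (orderOf x)
  have h5 : (ρ x) ^ (orderOf x) = 1 := by
    rw [← map_pow, pow_orderOf_eq_one, map_one]
  rw [h5, Module.End.one_apply] at h4
  have h6 : (μ ^ orderOf x - 1) • v = 0 := by
    rw [sub_smul, one_smul, ← h4, sub_self]
  have h7 : μ ^ orderOf x = 1 := by
    rcases smul_eq_zero.1 h6 with h8 | h8
    · exact sub_eq_zero.1 h8
    · exact absurd h8 hv.2
  refine IsIntegral.of_pow (n := orderOf x) (orderOf_pos x) ?_
  rw [h7]
  exact isIntegral_one

/-- Conjugates of algebraic integers. (`IsIntegral.map` for `starRingEnd ℂ` as a ring hom, or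
`Complex.conjAe`.) -/
theorem int_conj {z : ℂ} (h : IsIntegral ℤ z) : IsIntegral ℤ (conj z) :=
  h.map ((starRingEnd ℂ).toIntAlgHom)

/-- A rational algebraic integer: if `z` is an integer and `z / 2` is integral, `z` is even.
(`IsIntegrallyClosed ℤ`, `IsIntegral` of a rational number.) -/
theorem even_of_even2 {n : ℤ} (h : Even2 (n : ℂ)) : Even n := by
  have h1 : ((n : ℂ) / 2) = algebraMap ℚ ℂ ((n : ℚ) / 2) := by
    rw [map_div₀]
    simp
  rw [Even2, h1, isIntegral_algebraMap_iff (algebraMap ℚ ℂ).injective] at h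
  obtain ⟨y, hy⟩ := IsIntegrallyClosed.isIntegral_iff.1 h
  refine ⟨y, ?_⟩
  have h2 : (n : ℚ) = (y : ℚ) + (y : ℚ) := by
    have h3 : (y : ℚ) = (n : ℚ) / 2 := by simpa using hy
    rw [h3]
    ring
  exact_mod_cast h2

/-- If an odd multiple of the integral number `z` is divisible by two, so is `z`:
`z / 2 = m (z / 2) - ((m - 1) / 2) z`. -/
theorem even2_of_odd_mul {m : ℤ} (hm : Odd m) {z : ℂ} (hz : IsIntegral ℤ z)
    (h : Even2 ((m : ℂ) * z)) : Even2 z := by
  obtain ⟨k, rfl⟩ := hm
  have h1 : IsIntegral ℤ ((k : ℂ) * z) := by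
    have hk : IsIntegral ℤ (k : ℂ) := by
      have := isIntegral_algebraMap (R := ℤ) (A := ℂ) (x := k)
      simpa using this
    exact hk.mul hz
  have h2 : z / 2 = (((2 * k + 1 : ℤ) : ℂ) * z) / 2 - (k : ℂ) * z := by
    push_cast
    ring
  rw [Even2, h2]
  exact IsIntegral.sub h h1

end Pool.Agent.Lib.H46O
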