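import Pool.Agent.Lib.H46O.K5
import Pool.Agent.Lib.H90Q.A13

/-!
# Project H46O, chunk K6 (M/L): central characters
-/

open scoped Classical ComplexConjugate BigOperators

noncomputable section

namespace Pool.Agent.Lib.H46O

open Pool.Agent.Lib.H90Q

variable {X : Type*} [Group X] [Fintype X]

/-- Proof. Let `χ` be the character of the irreducible `ρ : Representation ℂ X (Fin n → ℂ)` and
`T = ∑_(k ∈ S) ρ k`. `T` commutes with all `ρ g` because `S` is invariant under conjugation, so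
`T = w • 1` (Schur: `Representation.IsIrreducible.algebraMap_intertwiningMap_bijective_of_isAlgClosed`).
Traces: `w * χ h = tr (T ∘ ρ h) = ∑_(k ∈ S) χ (k * h)`; `h = 1` gives the second claim. `w` is integral over
`ℤ`: the element `∑_(k ∈ S) single k 1` of `MonoidAlgebra ℤ X` is integral over `ℤ`
(`Algebra.IsIntegral.of_finite`, the group algebra is a finite free `ℤ`-module), hence so is its image `T`
in `Module.End ℂ (Fin n → ℂ)` (`IsIntegral.map` for the `ℤ`-algebra map induced by `ρ`, e.g.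
`MonoidAlgebra.lift`), and `p(w • 1) = p(w) • 1` with `n > 0`. -/
theorem omega_set {χ : X → ℂ} (hχ : IsIrr χ) (S : Finset X)
    (hS : ∀ a x, x ∈ S → a * x * a⁻¹ ∈ S) :
    ∃ w : ℂ, IsIntegral ℤ w ∧ χ 1 * w = ∑ k ∈ S, χ k ∧
      ∀ h, w * χ h = ∑ k ∈ S, χ (k * h) := by
  obtain ⟨n, hn, hn1⟩ := irr_one hχ
  obtain ⟨m, ρ, hρ, hc⟩ := hχ
  haveI := hρ
  have hmn : m = n := by
    have : χ 1 = (m : ℂ) := by
      rw [← hc, Representation.char_one]; simp
    rw [hn1] at this; exact_mod_cast this.symm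
  subst hmn
  have hcomm : ∀ g : X, (∑ x ∈ S, ρ x) * ρ g = ρ g * (∑ x ∈ S, ρ x) := by
    intro g
    have e1 : (∑ x ∈ S, ρ x) * ρ g = ∑ x ∈ S, ρ (x * g) := by
      rw [Finset.sum_mul]
      exact Finset.sum_congr rfl (fun x _ => by rw [map_mul])
    have e2 : ρ g * (∑ x ∈ S, ρ x) = ∑ x ∈ S, ρ (g * x) := by
      rw [Finset.mul_sum]
      exact Finset.sum_congr rfl (fun x _ => by rw [map_mul])
    rw [e1, e2]
    symm
    refine Finset.sum_nbij' (fun x => g * x * g⁻¹) (fun x => g⁻¹ * x * g) ?_ ?_ ?_ ?_ ?_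
    · intro x hx
      exact hS g x hx
    · intro x hx
      have := hS g⁻¹ x hx
      simpa using this
    · intro x _
      group
    · intro x _
      group
    · intro x _
      congr 1
      group
  obtain ⟨c, hc'⟩ : ∃ c : ℂ, (∑ x ∈ S, ρ x) = algebraMap ℂ (Module.End ℂ (Fin m → ℂ)) c := by
    have hb := Representation.IsIrreducible.algebraMap_intertwiningMap_bijective_of_isAlgClosed (ρ := ρ)
    obtain ⟨c, hc'⟩ := hb.2 ⟨∑ x ∈ S, ρ x, fun g => hcomm g⟩
    refine ⟨c, ?_⟩
    have := congrArg (fun f => f.toLinearMap) hc'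
    simp only at this
    rw [← this]
    rfl
  have hall : ∀ h, c * χ h = ∑ k ∈ S, χ (k * h) := by
    intro h
    have h1 : (∑ x ∈ S, ρ x) * ρ h = c • ρ h := by
      rw [hc', Algebra.algebraMap_eq_smul_one, smul_mul_assoc, one_mul]
    have h2 : (∑ x ∈ S, ρ x) * ρ h = ∑ x ∈ S, ρ (x * h) := by
      rw [Finset.sum_mul]
      exact Finset.sum_congr rfl (fun x _ => by rw [map_mul])
    rw [h2] at h1
    have h3 := congrArg (LinearMap.trace ℂ (Fin m → ℂ)) h1
    rw [map_sum, map_smul, smul_eq_mul] at h3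
    rw [← hc]
    exact h3.symm
  have hint : IsIntegral ℤ (∑ x ∈ S, ρ x) := by
    let a : MonoidAlgebra ℤ X := ∑ x ∈ S, MonoidAlgebra.single x 1
    let φ : MonoidAlgebra ℤ X →ₐ[ℤ] Module.End ℂ (Fin m → ℂ) := MonoidAlgebra.lift ℤ _ X ρ
    haveI : Module.Finite ℤ (MonoidAlgebra ℤ X) := inferInstance
    have h1 : IsIntegral ℤ a := IsIntegral.of_finite _ a
    have h2 := h1.map φ
    have h3 : φ a = ∑ x ∈ S, ρ x := by
      simp only [a, map_sum, φ, MonoidAlgebra.lift_single, one_smul]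
    rwa [h3] at h2
  rw [hc'] at hint
  haveI : Nontrivial (Fin m → ℂ) := by
    haveI : Nonempty (Fin m) := ⟨⟨0, hn⟩⟩
    infer_instance
  have hinj : Function.Injective (algebraMap ℂ (Module.End ℂ (Fin m → ℂ))) := (algebraMap ℂ _).injective
  have hint2 : IsIntegral ℤ c := (isIntegral_algebraMap_iff hinj).1 hint
  refine ⟨c, hint2, ?_, hall⟩
  rw [mul_comm, hall 1]
  exact Finset.sum_congr rfl (fun k _ => by rw [mul_one])

/-- The degree divides the order. Proof. Let `n = χ 1 > 0` (`irr_one`). `|X| / n` is an algebraic integer: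
`|X| = ∑_g χ(g) conj χ(g)`, group the sum by the conjugacy classes `S` (as finsets): it is
`∑_S |S| χ(g_S) conj χ(g_S) = n ∑_S w_S conj χ(g_S)` by `omega_set` (`∑_(k ∈ S) χ k = |S| χ(g_S)`), and `w_S`,
`conj χ(g_S)` are integral (`char_int`, `int_conj`). A rational algebraic integer is an integer.
(Alternatively: for every `g` let `w_g` be the number of `omega_set` for the class `S_g` of `g`; then
`|X| / n = ∑_g w_g conj χ(g) / |S_g|`, grouped by classes.) -/
theorem degree_dvd {χ : X → ℂ} (hχ : IsIrr χ) : ∃ n : ℕ, 0 < n ∧ χ 1 = n ∧ n ∣ Nat.card X :=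
  irr_dvd hχ

end Pool.Agent.Lib.H46O
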