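import Pool.Agent.Lib.H46O.K5

/-!
# Project H46O, chunk L1 (M): integrality of the coefficients
-/

open scoped Classical ComplexConjugate BigOperators

noncomputable section

namespace Pool.Agent.Lib.H46O

open Pool.Agent.Lib.H90Q

variable {G H : Type*} [Group G] [Group H] [Fintype H]

/-- Proof. The homomorphism `j : H × ℤˣ → G`, `(y, 1) ↦ ι y`, `(y, -1) ↦ x * ι y` (`MonoidHom.noncommCoprod`, or
directly; `x² = 1`, `x` commutes with `ι y`). `χ ∘ j` is a character of `H × ℤˣ` (`isChar_comp`);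
`φ₊ (y, e) = φ y` and `φ₋ (y, e) = e φ y` are irreducible characters of `H × ℤˣ` (`isIrr_comp` for the
projection, `isIrr_twist`). Take for `a`, `b` their multiplicities (`mult_nat`):
`a = (dd ι 1 χ φ + dd ι x χ φ) / 2`, `b = (dd ι 1 χ φ - dd ι x χ φ) / 2`. -/
theorem dd_two (ι : H →* G) (x : G) (hx : x * x = 1) (hc : ∀ h : H, x * ι h = ι h * x)
    {χ : G → ℂ} (hχ : IsChar χ) {φ : H → ℂ} (hφ : IsIrr φ) :
    ∃ a b : ℕ, dd ι x χ φ = (a : ℂ) - b ∧ dd ι 1 χ φ = (a : ℂ) + b := by
  have hx1 : x * (x : G) = 1 := hx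
  let j : H × ℤˣ →* G :=
    { toFun := fun p => (if p.2 = 1 then 1 else x) * ι p.1
      map_one' := by simp
      map_mul' := by
        rintro ⟨y, e⟩ ⟨z, f⟩
        rcases Int.units_eq_one_or e with rfl | rfl <;> rcases Int.units_eq_one_or f with rfl | rfl
        · simp
        · have h1 : ((1 : ℤˣ) * -1 = 1) = False := by decide
          have h2 : ((-1 : ℤˣ) = 1) = False := by decide
          simp only [Prod.mk_mul_mk, h1, h2, if_false, if_true, map_mul, one_mul]
          rw [← mul_assoc, hc y, mul_assoc]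
        · have h1 : ((-1 : ℤˣ) * 1 = 1) = False := by decide
          have h2 : ((-1 : ℤˣ) = 1) = False := by decide
          simp only [Prod.mk_mul_mk, h1, h2, if_false, if_true, map_mul, one_mul]
          rw [mul_assoc]
        · have h1 : ((-1 : ℤˣ) * -1 = 1) = True := by decide
          have h2 : ((-1 : ℤˣ) = 1) = False := by decide
          simp only [Prod.mk_mul_mk, h1, h2, if_false, if_true, map_mul, one_mul]
          rw [mul_assoc x, ← mul_assoc (ι y) x, ← hc y, mul_assoc x (ι y), ← mul_assoc x x, hx1,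
            one_mul] }
  have hj1 : ∀ y : H, j (y, 1) = 1 * ι y := fun y => by
    show (if (1 : ℤˣ) = 1 then 1 else x) * ι y = 1 * ι y
    simp
  have hj2 : ∀ y : H, j (y, -1) = x * ι y := fun y => by
    show (if (-1 : ℤˣ) = 1 then 1 else x) * ι y = x * ι y
    have h2 : ((-1 : ℤˣ) = 1) = False := by decide
    simp only [h2, if_false]
  have hχj : IsChar (fun p : H × ℤˣ => χ (j p)) := isChar_comp j hχ
  have hφ1 : IsIrr (fun p : H × ℤˣ => φ p.1) :=
    isIrr_comp (MonoidHom.fst H ℤˣ) Prod.fst_surjective hφ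
  have hφ2 : IsIrr (fun p : H × ℤˣ => (((p.2 : ℤˣ) : ℤ) : ℂ) * φ p.1) :=
    isIrr_twist (l := fun p : H × ℤˣ => (((p.2 : ℤˣ) : ℤ) : ℂ)) hφ1 (by simp)
      (fun a b => by simp)
  obtain ⟨a, ha⟩ := mult_nat hχj hφ1
  obtain ⟨b, hb⟩ := mult_nat hχj hφ2
  have hu : (Finset.univ : Finset ℤˣ) = {1, -1} := by decide
  have hne : (1 : ℤˣ) ∉ ({-1} : Finset ℤˣ) := by decide
  have hcard : (Nat.card (H × ℤˣ) : ℂ) = (Nat.card H : ℂ) * 2 := by
    rw [Nat.card_prod, Nat.card_eq_fintype_card (α := ℤˣ), Fintype.card_units_int]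
    push_cast
    ring
  have hN : (Nat.card H : ℂ) ≠ 0 := by
    rw [Nat.card_eq_fintype_card]
    exact_mod_cast Fintype.card_ne_zero
  have ha' : (a : ℂ) = (dd ι 1 χ φ + dd ι x χ φ) / 2 := by
    rw [← ha, hcard, Fintype.sum_prod_type, dd, dd]
    simp only [hu, Finset.sum_insert hne, Finset.sum_singleton, hj1, hj2]
    rw [Finset.sum_add_distrib]
    field_simp
  have hb' : (b : ℂ) = (dd ι 1 χ φ - dd ι x χ φ) / 2 := by
    rw [← hb, hcard, Fintype.sum_prod_type, dd, dd]
    simp only [hu, Finset.sum_insert hne, Finset.sum_singleton, hj1, hj2]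
    have h3 : ∀ y : H, χ (1 * ι y) * conj ((((1 : ℤˣ) : ℤ) : ℂ) * φ y) +
        χ (x * ι y) * conj ((((-1 : ℤˣ) : ℤ) : ℂ) * φ y) =
        χ (1 * ι y) * conj (φ y) - χ (x * ι y) * conj (φ y) := by
      intro y
      simp only [Units.val_one, Int.cast_one, one_mul, Units.val_neg, Int.cast_neg, map_mul, map_neg,
        map_one]
      ring
    rw [Finset.sum_congr rfl fun y _ => h3 y, Finset.sum_sub_distrib]
    field_simp
  refine ⟨a, b, ?_, ?_⟩
  · rw [ha', hb']
    ring
  · rw [ha', hb']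
    ring

end Pool.Agent.Lib.H46O
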