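import Pool.Agent.Lib.H46O.K5

/-!
# Project H46O, chunk L1B (M): the coefficients for an element of order four
-/

open scoped Classical ComplexConjugate BigOperators

noncomputable section

namespace Pool.Agent.Lib.H46O

open Pool.Agent.Lib.H90Q

variable {G H : Type*} [Group G] [Group H] [Fintype H]

/-- The homomorphism from the cyclic group of order four given by an element with fourth power one. -/
private def L1B_z {M : Type*} [Monoid M] (x : M) (hx : x ^ 4 = 1) : Multiplicative (ZMod 4) →* M where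
  toFun s := x ^ (Multiplicative.toAdd s).val
  map_one' := by simp
  map_mul' s t := by
    rw [toAdd_mul, ZMod.val_add, ← pow_eq_pow_mod _ hx, pow_add]

private theorem L1B_z_apply {M : Type*} [Monoid M] (x : M) (hx : x ^ 4 = 1)
    (s : Multiplicative (ZMod 4)) : L1B_z x hx s = x ^ (Multiplicative.toAdd s).val := rfl

/-- The homomorphism `(y, s) ↦ ι y * x ^ s`. -/
private def L1B_j (ι : H →* G) (x : G) (hx : x ^ 4 = 1) (hc : ∀ h : H, x * ι h = ι h * x) :
    H × Multiplicative (ZMod 4) →* G :=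
  ι.noncommCoprod (L1B_z x hx) (fun h s => by
    rw [L1B_z_apply]
    exact ((show Commute x (ι h) from hc h).pow_left _).symm)

private theorem L1B_j_apply (ι : H →* G) (x : G) (hx : x ^ 4 = 1)
    (hc : ∀ h : H, x * ι h = ι h * x) (y : H) (s : Multiplicative (ZMod 4)) :
    L1B_j ι x hx hc (y, s) = x ^ (Multiplicative.toAdd s).val * ι y := by
  have : L1B_j ι x hx hc (y, s) = ι y * L1B_z x hx s := rfl
  rw [this, L1B_z_apply]
  exact ((show Commute x (ι y) from hc y).pow_left _).symm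

private theorem L1B_key (ι : H →* G) (x : G) (hx : x ^ 4 = 1) (hc : ∀ h : H, x * ι h = ι h * x)
    {χ : G → ℂ} (hχ : IsChar χ) {φ : H → ℂ} (hφ : IsIrr φ) (w : ℂ) (hw : w ^ 4 = 1) :
    ∃ n : ℕ, (4 : ℂ)⁻¹ * ∑ s : ZMod 4, conj (w ^ s.val) * dd ι (x ^ s.val) χ φ = n := by
  have h1 : IsIrr (fun p : H × Multiplicative (ZMod 4) =>
      L1B_z w hw p.2 * (fun q : H × Multiplicative (ZMod 4) => φ (MonoidHom.fst H (Multiplicative (ZMod 4)) q)) p) := by
    apply isIrr_twist (l := fun p : H × Multiplicative (ZMod 4) => L1B_z w hw p.2)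
    · exact isIrr_comp (MonoidHom.fst H (Multiplicative (ZMod 4))) Prod.fst_surjective hφ
    · simp
    · intro a b
      simp
  have h2 : IsChar (fun p : H × Multiplicative (ZMod 4) => χ (L1B_j ι x hx hc p)) :=
    isChar_comp _ hχ
  obtain ⟨n, hn⟩ := mult_nat h2 h1
  refine ⟨n, ?_⟩
  rw [← hn, Fintype.sum_prod_type_right, Nat.card_prod]
  have h3 : Nat.card (Multiplicative (ZMod 4)) = 4 := by
    simp [Nat.card_eq_fintype_card]
  rw [h3]
  have h4 : ∀ s : Multiplicative (ZMod 4),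
      ∑ y : H, χ (L1B_j ι x hx hc (y, s)) *
        conj (L1B_z w hw s * φ (MonoidHom.fst H (Multiplicative (ZMod 4)) (y, s))) =
      (Nat.card H : ℂ) * (conj (w ^ (Multiplicative.toAdd s).val) *
        dd ι (x ^ (Multiplicative.toAdd s).val) χ φ) := by
    intro s
    have hH : (Nat.card H : ℂ) ≠ 0 := by
      exact_mod_cast Nat.card_pos.ne'
    rw [dd, mul_left_comm, ← mul_assoc (Nat.card H : ℂ), mul_inv_cancel₀ hH, one_mul,
      Finset.mul_sum]
    apply Finset.sum_congr rfl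
    intro y _
    rw [L1B_j_apply, L1B_z_apply, map_mul]
    simp only [MonoidHom.coe_fst]
    ring
  simp only [h4]
  rw [← Finset.mul_sum]
  have hH : (Nat.card H : ℂ) ≠ 0 := by
    exact_mod_cast Nat.card_pos.ne'
  push_cast
  rw [mul_inv, mul_comm (Nat.card H : ℂ)⁻¹, mul_assoc, ← mul_assoc (Nat.card H : ℂ)⁻¹,
    inv_mul_cancel₀ hH, one_mul]
  congr 1

/-- Proof. The homomorphism `j : H × Multiplicative (ZMod 4) → G`, `(y, s) ↦ ι y * x ^ s.val`
(`zmultiplesHom`/`zpowersHom` lifted, `ZMod.lift`; `x⁴ = 1`, `x` commutes with `ι y`). For `k < 4` let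
`φ_k (y, s) = I ^ (k * s.val) * φ y`: irreducible (`isIrr_comp`, `isIrr_twist`); let `n k` be its
multiplicity in `χ ∘ j` (`mult_nat`): `n k = (1/4) ∑_(s < 4) I ^ (- k s) dd ι (x^s) χ φ`; Fourier inversion on
`ZMod 4` gives `dd ι (x^s) χ φ = ∑_k I ^ (k s) n k` for `s = 1` and `s = 3`. So `a = n 0 - n 2`,
`b = n 1 - n 3`: `dd ι x χ φ = a + b I`, `dd ι (x^3) χ φ = a - b I`. -/
theorem dd_four (ι : H →* G) (x : G) (hx : x ^ 4 = 1) (hc : ∀ h : H, x * ι h = ι h * x)
    {χ : G → ℂ} (hχ : IsChar χ) {φ : H → ℂ} (hφ : IsIrr φ) :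
    ∃ a b : ℤ, dd ι x χ φ = (a : ℂ) + b * Complex.I ∧ dd ι (x ^ 3) χ φ = (a : ℂ) - b * Complex.I := by
  have hI2 : Complex.I ^ 2 = -1 := Complex.I_sq
  have hI3 : Complex.I ^ 3 = -Complex.I := by rw [pow_succ, hI2]; ring
  have hI4 : Complex.I ^ 4 = 1 := by rw [show 4 = 2 * 2 from rfl, pow_mul, hI2]; norm_num
  obtain ⟨n0, h0⟩ := L1B_key ι x hx hc hχ hφ 1 (by norm_num)
  obtain ⟨n1, h1⟩ := L1B_key ι x hx hc hχ hφ Complex.I hI4
  obtain ⟨n2, h2⟩ := L1B_key ι x hx hc hχ hφ (-1) (by norm_num)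
  obtain ⟨n3, h3⟩ := L1B_key ι x hx hc hχ hφ (-Complex.I) (by
    rw [neg_pow, hI4]; norm_num)
  have hs : ∀ f : ZMod 4 → ℂ, ∑ s : ZMod 4, f s = f 0 + f 1 + f 2 + f 3 := by
    intro f
    exact Fin.sum_univ_four f
  have v0 : (0 : ZMod 4).val = 0 := rfl
  have v1 : (1 : ZMod 4).val = 1 := rfl
  have v2 : (2 : ZMod 4).val = 2 := rfl
  have v3 : (3 : ZMod 4).val = 3 := rfl
  rw [hs, v0, v1, v2, v3] at h0 h1 h2 h3
  simp only [pow_zero, pow_one, map_one, one_pow, one_mul, map_pow, map_neg, Complex.conj_I] at h0 h1 h2 h3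
  have e3 : (-Complex.I) ^ 3 = Complex.I := by
    rw [neg_pow, hI3]; ring
  have e2 : (-Complex.I) ^ 2 = -1 := by
    rw [neg_pow, hI2]; ring
  rw [e2, e3] at h1
  rw [neg_neg, hI2, hI3] at h3
  refine ⟨(n0 : ℤ) - n2, (n1 : ℤ) - n3, ?_, ?_⟩
  · push_cast
    rw [← h0, ← h1, ← h2, ← h3]
    linear_combination (1 / 2 * dd ι x χ φ - 1 / 2 * dd ι (x ^ 3) χ φ) * hI2
  · push_cast
    rw [← h0, ← h1, ← h2, ← h3]
    linear_combination (1 / 2 * dd ι (x ^ 3) χ φ - 1 / 2 * dd ι x χ φ) * hI2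

end Pool.Agent.Lib.H46O
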