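import Pool.Agent.Lib.H46O.K1

/-!
# Project H46O, chunk L2 (S/M): expansion of the values
-/

open scoped Classical ComplexConjugate BigOperators

noncomputable section

namespace Pool.Agent.Lib.H46O

open Pool.Agent.Lib.H90Q

variable {G H : Type*} [Group G] [Group H] [Fintype H]

/-- Proof. `y ↦ χ (x * ι y)` is a class function of `H`: `x * ι (a y a⁻¹) = ι a (x * ι y) (ι a)⁻¹`, and `χ` is a
class function (`char_conj`). `cf_expand`. -/
theorem dd_expand (ι : H →* G) (x : G) (hc : ∀ h : H, x * ι h = ι h * x) {χ : G → ℂ}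
    (hχ : IsChar χ) (y : H) : χ (x * ι y) = ∑ φ ∈ irrF H, dd ι x χ φ * φ y := by
  refine cf_expand (fun z : H => χ (x * ι z)) (fun a z => ?_) y
  have h1 : x * ι (a * z * a⁻¹) = ι a * (x * ι z) * (ι a)⁻¹ := by
    rw [map_mul, map_mul, map_inv, ← mul_assoc, ← mul_assoc, hc a, ← mul_assoc]
  show χ (x * ι (a * z * a⁻¹)) = χ (x * ι z)
  rw [h1, char_conj hχ]

/-- Coefficients determine the function: linear independence of the irreducible characters
(`irr_ortho'`). -/
theorem dd_of_sum {c : (H → ℂ) → ℂ} {f : H → ℂ} (hf : ∀ y, f y = ∑ φ ∈ irrF H, c φ * φ y)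
    {φ : H → ℂ} (hφ : IsIrr φ) : (Nat.card H : ℂ)⁻¹ * ∑ y, f y * conj (φ y) = c φ := by
  have hN : (Nat.card H : ℂ) ≠ 0 := by exact_mod_cast Nat.card_pos.ne'
  have h1 : ∀ y, f y * conj (φ y) = ∑ ψ ∈ irrF H, c ψ * (ψ y * conj (φ y)) := by
    intro y
    rw [hf y, Finset.sum_mul]
    exact Finset.sum_congr rfl fun ψ _ => mul_assoc _ _ _
  have h2 : ∀ ψ ∈ irrF H, ∑ y, c ψ * (ψ y * conj (φ y)) = if ψ = φ then c φ * (Nat.card H : ℂ) else 0 := by
    intro ψ hψ
    rw [← Finset.mul_sum, irr_ortho' (mem_irrF.1 hψ) hφ]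
    split_ifs with h3
    · rw [h3]
    · rw [mul_zero]
  rw [Finset.sum_congr rfl fun y _ => h1 y, Finset.sum_comm, Finset.sum_congr rfl h2,
    Finset.sum_ite_eq', if_pos (mem_irrF.2 hφ), mul_comm (c φ), inv_mul_cancel_left₀ hN]

/-- A character which is not zero at some `x * ι y` has a coefficient which is not zero, and conversely. -/
theorem dd_ne_iff (ι : H →* G) (x : G) (hc : ∀ h : H, x * ι h = ι h * x) {χ : G → ℂ}
    (hχ : IsChar χ) : (∃ y, χ (x * ι y) ≠ 0) ↔ ∃ φ ∈ irrF H, dd ι x χ φ ≠ 0 := by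
  constructor
  · rintro ⟨y, hy⟩
    by_contra hcon
    push Not at hcon
    refine hy ?_
    rw [dd_expand ι x hc hχ y]
    exact Finset.sum_eq_zero fun φ hφ => by rw [hcon φ hφ, zero_mul]
  · rintro ⟨φ, _, hφ⟩
    by_contra hcon
    push Not at hcon
    refine hφ ?_
    rw [dd, Finset.sum_eq_zero fun y _ => by rw [hcon y, zero_mul], mul_zero]

end Pool.Agent.Lib.H46O
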