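import Pool.Agent.Lib.H46O.K5

/-!
# Project H46O, chunk L6A (S/M): a 2-group acting without fixed points
-/

open scoped Classical ComplexConjugate BigOperators

noncomputable section

namespace Pool.Agent.Lib.H46O

private theorem even2_sum_aux {ι : Type*} (s : Finset ι) (f : ι → ℂ) (h : ∀ i ∈ s, Even2 (f i)) :
    Even2 (∑ i ∈ s, f i) := by
  unfold Even2
  rw [Finset.sum_div]
  exact IsIntegral.sum _ h

/-- Proof. `f` is constant on the orbits; the number of elements of an orbit is a power of `2`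
(`IsPGroup`: `MulAction.card_orbit_mul_card_stabilizer_eq_card_group`, `IsPGroup.card_orbit`), not `1`, so even; sum
over the orbits (`Finset.sum_fiberwise` for the quotient by `MulAction.orbitRel`, or
strong induction on the number of elements of an invariant finset, removing one orbit). -/
theorem even2_of_free {P S : Type*} [Group P] [Finite P] [MulAction P S] [Fintype S]
    (hP : IsPGroup 2 P) (f : S → ℂ) (hf : ∀ (u : P) (s : S), f (u • s) = f s)
    (hi : ∀ s, IsIntegral ℤ (f s)) (hfix : ∀ s : S, ∃ u : P, u • s ≠ s) : Even2 (∑ s, f s) := by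
  rw [← Finset.sum_fiberwise Finset.univ
    (fun s => (Quotient.mk'' s : Quotient (MulAction.orbitRel P S))) f]
  refine even2_sum_aux _ _ fun ω _ => ?_
  obtain ⟨s0, rfl⟩ := Quotient.exists_rep ω
  set F : Finset S := Finset.univ.filter fun s =>
    (Quotient.mk'' s : Quotient (MulAction.orbitRel P S)) = Quotient.mk'' s0 with hF
  have hmem : ∀ s, s ∈ F ↔ s ∈ MulAction.orbit P s0 := by
    intro s
    rw [hF, Finset.mem_filter, Quotient.eq'']
    simp only [Finset.mem_univ, true_and]
    exact MulAction.orbitRel_apply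
  have hconst : ∀ s ∈ F, f s = f s0 := by
    intro s hs
    obtain ⟨u, rfl⟩ := (hmem s).1 hs
    exact hf u s0
  change Even2 (∑ s ∈ F, f s)
  rw [Finset.sum_congr rfl hconst, Finset.sum_const, nsmul_eq_mul]
  have : Fact (Nat.Prime 2) := ⟨Nat.prime_two⟩
  have hcard : Nat.card (MulAction.orbit P s0) = F.card := by
    rw [Nat.card_coe_set_eq, ← Set.ncard_coe_finset]
    congr 1
    ext s
    exact (hmem s).symm
  obtain ⟨n, hn⟩ := hP.card_orbit s0
  rw [hcard] at hn
  have hn0 : n ≠ 0 := by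
    rintro rfl
    obtain ⟨u, hu⟩ := hfix s0
    have h1 : F.card ≤ 1 := by rw [hn, pow_zero]
    rw [Finset.card_le_one] at h1
    exact hu (h1 _ ((hmem _).2 ⟨u, rfl⟩) _ ((hmem _).2 (MulAction.mem_orbit_self s0)))
  obtain ⟨k, rfl⟩ := Nat.exists_eq_succ_of_ne_zero hn0
  unfold Even2
  have h2 : (F.card : ℂ) * f s0 / 2 = ((2 ^ k : ℕ) : ℂ) * f s0 := by
    rw [hn]
    push_cast
    rw [pow_succ]
    ring
  rw [h2]
  have h3 : IsIntegral ℤ (algebraMap ℤ ℂ ((2 ^ k : ℕ) : ℤ)) := isIntegral_algebraMap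
  have h4 : algebraMap ℤ ℂ ((2 ^ k : ℕ) : ℤ) = ((2 ^ k : ℕ) : ℂ) := by simp
  rw [h4] at h3
  exact IsIntegral.mul h3 (hi s0)

theorem even2_add {z w : ℂ} (hz : Even2 z) (hw : Even2 w) : Even2 (z + w) := by
  have h : IsIntegral ℤ (z / 2 + w / 2) := IsIntegral.add hz hw
  unfold Even2
  rwa [add_div]

theorem even2_sub {z w : ℂ} (hz : Even2 z) (hw : Even2 w) : Even2 (z - w) := by
  have h : IsIntegral ℤ (z / 2 - w / 2) := IsIntegral.sub hz hw
  unfold Even2
  rwa [sub_div]

theorem even2_mul {z w : ℂ} (hz : Even2 z) (hw : IsIntegral ℤ w) : Even2 (z * w) := by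
  have h : IsIntegral ℤ (z / 2 * w) := IsIntegral.mul hz hw
  unfold Even2
  rwa [mul_div_right_comm]

theorem even2_sum {ι : Type*} (s : Finset ι) (f : ι → ℂ) (h : ∀ i ∈ s, Even2 (f i)) :
    Even2 (∑ i ∈ s, f i) := by
  unfold Even2
  rw [Finset.sum_div]
  exact IsIntegral.sum _ h

end Pool.Agent.Lib.H46O
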