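import Pool.Agent.Lib.H46O.L6A
import Pool.Agent.Lib.H46O.K6
import Pool.Agent.Lib.H46O.L2
import Pool.Agent.Lib.H46O.F1

/-!
# Project H46O, chunk L6B (M): the congruence
-/

open scoped Classical ComplexConjugate BigOperators

noncomputable section

namespace Pool.Agent.Lib.H46O

open Pool.Agent.Lib.H90Q

variable {G H : Type*} [Group G] [Fintype G] [Group H] [Fintype H]

private theorem l6b_isChar {X : Type*} [Group X] {χ : X → ℂ} (h : IsIrr χ) : IsChar χ := by
  obtain ⟨n, ρ, _, hρ⟩ := h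
  exact ⟨n, ρ, hρ⟩

/-- The part of the class sum outside `ι H` is divisible by two. -/
private theorem l6b_free {ι : H →* G} {P : Subgroup G} {x : G} {A : Subgroup (MulAut H)}
    (hC : Cfg ι P x A) (y0 y : H) {χ : G → ℂ} (hχ : IsIrr χ) :
    Even2 (∑ s : {k : G // IsConj (ι y0) k ∧ k ∉ Set.range ι}, χ (s.1 * (x * ι y))) := by
  have hcl : ∀ (u : P) (s : {k : G // IsConj (ι y0) k ∧ k ∉ Set.range ι}),
      IsConj (ι y0) (u.1 * s.1 * u.1⁻¹) ∧ u.1 * s.1 * u.1⁻¹ ∉ Set.range ι := by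
    rintro ⟨u, hu⟩ ⟨k, hk1, hk2⟩
    refine ⟨hk1.trans (isConj_iff.2 ⟨u, rfl⟩), ?_⟩
    rintro ⟨h, hh⟩
    apply hk2
    refine ⟨h, ?_⟩
    have h1 : u * ι h = ι h * u := hC.commH u hu h
    have h2 : ι h * u = u * k := by
      rw [hh]
      group
    rw [← h1] at h2
    exact mul_left_cancel h2
  let act : MulAction P {k : G // IsConj (ι y0) k ∧ k ∉ Set.range ι} :=
    { smul := fun u s => ⟨u.1 * s.1 * u.1⁻¹, hcl u s⟩
      one_smul := fun s => by
        apply Subtype.ext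
        show ((1 : P) : G) * s.1 * ((1 : P) : G)⁻¹ = s.1
        simp
      mul_smul := fun u v s => by
        apply Subtype.ext
        show ((u * v : P) : G) * s.1 * ((u * v : P) : G)⁻¹ = u.1 * (v.1 * s.1 * v.1⁻¹) * u.1⁻¹
        rw [Subgroup.coe_mul]
        group }
  have hsm : ∀ (u : P) (s : {k : G // IsConj (ι y0) k ∧ k ∉ Set.range ι}),
      ((u • s : {k : G // IsConj (ι y0) k ∧ k ∉ Set.range ι}) : G) = u.1 * s.1 * u.1⁻¹ :=
    fun u s => rfl
  refine even2_of_free (P := P) hC.isP (fun s : {k : G // IsConj (ι y0) k ∧ k ∉ Set.range ι} =>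
    χ (s.1 * (x * ι y))) ?_ ?_ ?_
  · rintro ⟨u, hu⟩ s
    rw [hsm]
    have h1 : u * ι y = ι y * u := hC.commH u hu y
    have h2 : u * x = x * u := hC.comm u hu x hC.mem
    have h3 : u * s.1 * u⁻¹ * (x * ι y) = u * (s.1 * (x * ι y)) * u⁻¹ := by
      have h4 : u⁻¹ * (x * ι y) = (x * ι y) * u⁻¹ := by
        rw [inv_mul_eq_iff_eq_mul, ← mul_assoc, ← mul_assoc, h2, mul_assoc x u, h1]
        group
      rw [mul_assoc (u * s.1), h4]
      group
    rw [h3]
    exact char_conj (l6b_isChar hχ) u _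
  · intro s
    exact char_int (l6b_isChar hχ) _
  · rintro ⟨k, hk1, hk2⟩
    refine ⟨⟨x, hC.mem⟩, fun h => hk2 ?_⟩
    have h1 := congrArg Subtype.val h
    rw [hsm] at h1
    dsimp only at h1
    obtain ⟨t, ht⟩ := cfg_fix hC y0 hk1 (mul_inv_eq_iff_eq_mul.1 h1)
    exact ⟨t, ht.symm⟩

/-- Pointwise congruence. Proof. Let `K = cls (ι y0)`. By `hw` the first term is `∑_(k ∈ K) χ (k * (x * ι y))`. `P` acts
on `K` by conjugation and `k ↦ χ (k * (x * ι y))` is invariant (`P` centralises `x * ι y`: `hC.comm`, `hC.commH`; `χ`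
is a class function). The `k ∈ K` centralised by `P` are the `ι h`, `h` with `IsConj (ι y0) (ι h)` (`cfg_fix`), and
`ι h * (x * ι y) = x * ι (h * y)`: these terms cancel the second sum (`ι` is injective). The sum over the others is
divisible by two by `even2_of_free` for the action of `P` on the subtype of the `k ∈ K` not centralised by `P`
(values integral: `char_int`). -/
theorem congr_point {ι : H →* G} {P : Subgroup G} {x : G} {A : Subgroup (MulAut H)}
    (hC : Cfg ι P x A) (y0 y : H) {χ : G → ℂ} (hχ : IsIrr χ) {w : ℂ}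
    (hw : ∀ g, w * χ g = ∑ k ∈ cls (ι y0), χ (k * g)) :
    Even2 (w * χ (x * ι y) -
      ∑ h ∈ Finset.univ.filter (fun h : H => IsConj (ι y0) (ι h)), χ (x * ι (h * y))) := by
  have h0 := hw (x * ι y)
  have hsplit : ∑ k ∈ cls (ι y0), χ (k * (x * ι y)) =
      ∑ h ∈ Finset.univ.filter (fun h : H => IsConj (ι y0) (ι h)), χ (x * ι (h * y)) +
      ∑ s : {k : G // IsConj (ι y0) k ∧ k ∉ Set.range ι}, χ (s.1 * (x * ι y)) := by
    rw [← Finset.sum_filter_add_sum_filter_not (cls (ι y0)) (fun k => k ∈ Set.range ι)]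
    congr 1
    · symm
      refine Finset.sum_bij (fun h _ => ι h) ?_ ?_ ?_ ?_
      · intro h hh
        rw [Finset.mem_filter] at hh
        rw [Finset.mem_filter, cls, Finset.mem_filter]
        exact ⟨⟨Finset.mem_univ _, hh.2⟩, ⟨h, rfl⟩⟩
      · intro a _ b _ e
        exact hC.inj e
      · intro k hk
        rw [Finset.mem_filter, cls, Finset.mem_filter] at hk
        obtain ⟨⟨_, hk1⟩, ⟨h, hh⟩⟩ := hk
        refine ⟨h, ?_, hh⟩
        rw [Finset.mem_filter]
        refine ⟨Finset.mem_univ _, ?_⟩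
        rw [hh]
        exact hk1
      · intro h _
        have h1 : x * ι h = ι h * x := hC.commH x hC.mem h
        rw [map_mul, ← mul_assoc, h1, mul_assoc]
    · symm
      refine Finset.sum_bij (fun s _ => s.1) ?_ ?_ ?_ ?_
      · rintro ⟨k, hk1, hk2⟩ _
        rw [Finset.mem_filter, cls, Finset.mem_filter]
        exact ⟨⟨Finset.mem_univ _, hk1⟩, hk2⟩
      · intro a _ b _ e
        exact Subtype.ext e
      · intro k hk
        rw [Finset.mem_filter, cls, Finset.mem_filter] at hk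
        exact ⟨⟨k, hk.1.2, hk.2⟩, Finset.mem_univ _, rfl⟩
      · intro s _
        rfl
  rw [h0, hsplit, add_sub_cancel_left]
  exact l6b_free hC y0 y hχ

/-- Proof. Multiply `congr_point` by `conj (ψ y)` (integral: `char_int`, `int_conj`) and sum over `y`. The first part is
`|H| w dd ι x χ ψ`. In the second insert `dd_expand`: `χ (x * ι (h * y)) = ∑_φ dd ι x χ φ * φ (h * y)`; the set
`L = {h | IsConj (ι y0) (ι h)}` is invariant under conjugation by `H`, so for every irreducible `φ` there is `w_φ`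
with `∑_(h ∈ L) φ (h * y) = w_φ φ y` (`omega_set`), and `w_ψ = w'` (`ψ 1 ≠ 0`); `irr_ortho'` gives
`|H| w' dd ι x χ ψ`. -/
theorem congr_dd {ι : H →* G} {P : Subgroup G} {x : G} {A : Subgroup (MulAut H)}
    (hC : Cfg ι P x A) (y0 : H) {χ : G → ℂ} (hχ : IsIrr χ) {ψ : H → ℂ} (hψ : IsIrr ψ) {w w' : ℂ}
    (hw : ∀ g, w * χ g = ∑ k ∈ cls (ι y0), χ (k * g))
    (hw' : ∀ y, w' * ψ y = ∑ h ∈ Finset.univ.filter (fun h : H => IsConj (ι y0) (ι h)), ψ (h * y)) :
    Even2 ((Nat.card H : ℂ) * (dd ι x χ ψ * (w - w'))) := by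
  have hcH : (Nat.card H : ℂ) ≠ 0 := by exact_mod_cast Nat.card_pos.ne'
  have hxc : ∀ h : H, x * ι h = ι h * x := fun h => hC.commH x hC.mem h
  have hsum : Even2 (∑ y : H, (w * χ (x * ι y) -
      ∑ h ∈ Finset.univ.filter (fun h : H => IsConj (ι y0) (ι h)), χ (x * ι (h * y))) *
        conj (ψ y)) := by
    refine even2_sum _ _ fun y _ => ?_
    exact even2_mul (congr_point hC y0 y hχ hw) (int_conj (char_int (l6b_isChar hψ) y))
  have e1 : ∑ y : H, χ (x * ι y) * conj (ψ y) = (Nat.card H : ℂ) * dd ι x χ ψ := by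
    rw [dd, mul_inv_cancel_left₀ hcH]
  set L := Finset.univ.filter (fun h : H => IsConj (ι y0) (ι h)) with hL
  have hLinv : ∀ a h, h ∈ L → a * h * a⁻¹ ∈ L := by
    intro a h hh
    rw [hL, Finset.mem_filter] at hh ⊢
    refine ⟨Finset.mem_univ _, hh.2.trans ?_⟩
    refine isConj_iff.2 ⟨ι a, ?_⟩
    rw [map_mul, map_mul, map_inv]
  have e2 : ∀ φ ∈ irrF H, ∑ y : H, (∑ h ∈ L, φ (h * y)) * conj (ψ y) =
      if φ = ψ then w' * (Nat.card H : ℂ) else 0 := by
    intro φ hφ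
    split_ifs with hφψ
    · subst hφψ
      rw [Finset.sum_congr rfl fun y _ => by rw [← hw' y]]
      have h1 : ∀ y : H, w' * φ y * conj (φ y) = w' * (φ y * conj (φ y)) := fun y => by ring
      rw [Finset.sum_congr rfl fun y _ => h1 y, ← Finset.mul_sum, irr_ortho' hψ hψ, if_pos rfl]
    · obtain ⟨wφ, _, _, h3⟩ := omega_set (mem_irrF.1 hφ) L hLinv
      rw [Finset.sum_congr rfl fun y _ => by rw [← h3 y]]
      have h1 : ∀ y : H, wφ * φ y * conj (ψ y) = wφ * (φ y * conj (ψ y)) := fun y => by ring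
      rw [Finset.sum_congr rfl fun y _ => h1 y, ← Finset.mul_sum, irr_ortho' (mem_irrF.1 hφ) hψ,
        if_neg hφψ, mul_zero]
  have e3 : ∑ y : H, (∑ h ∈ L, χ (x * ι (h * y))) * conj (ψ y) =
      (Nat.card H : ℂ) * (dd ι x χ ψ * w') := by
    have h1 : ∀ y : H, (∑ h ∈ L, χ (x * ι (h * y))) * conj (ψ y) =
        ∑ φ ∈ irrF H, dd ι x χ φ * ((∑ h ∈ L, φ (h * y)) * conj (ψ y)) := by
      intro y
      have h2 : ∑ h ∈ L, χ (x * ι (h * y)) = ∑ φ ∈ irrF H, dd ι x χ φ * ∑ h ∈ L, φ (h * y) := by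
        rw [Finset.sum_congr rfl fun h _ => dd_expand ι x hxc (l6b_isChar hχ) (h * y),
          Finset.sum_comm]
        exact Finset.sum_congr rfl fun φ _ => by rw [Finset.mul_sum]
      rw [h2, Finset.sum_mul]
      exact Finset.sum_congr rfl fun φ _ => by ring
    rw [Finset.sum_congr rfl fun y _ => h1 y, Finset.sum_comm]
    have h4 : ∀ φ ∈ irrF H, ∑ y : H, dd ι x χ φ * ((∑ h ∈ L, φ (h * y)) * conj (ψ y)) =
        if φ = ψ then dd ι x χ ψ * (w' * (Nat.card H : ℂ)) else 0 := by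
      intro φ hφ
      rw [← Finset.mul_sum, e2 φ hφ]
      split_ifs with h5
      · rw [h5]
      · rw [mul_zero]
    rw [Finset.sum_congr rfl h4, Finset.sum_ite_eq', if_pos (mem_irrF.2 hψ)]
    ring
  have e4 : ∑ y : H, (w * χ (x * ι y) - ∑ h ∈ L, χ (x * ι (h * y))) * conj (ψ y) =
      (Nat.card H : ℂ) * (dd ι x χ ψ * (w - w')) := by
    have h1 : ∀ y : H, (w * χ (x * ι y) - ∑ h ∈ L, χ (x * ι (h * y))) * conj (ψ y) =
        w * (χ (x * ι y) * conj (ψ y)) - (∑ h ∈ L, χ (x * ι (h * y))) * conj (ψ y) := by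
      intro y
      ring
    rw [Finset.sum_congr rfl fun y _ => h1 y, Finset.sum_sub_distrib, ← Finset.mul_sum, e1, e3]
    ring
  rw [← e4]
  exact hsum

end Pool.Agent.Lib.H46O
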