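import Pool.Agent.Lib.H46O.K6

/-!
# Project H46O, chunk L8 (M): parity on orbits, and odd degrees
-/

open scoped Classical ComplexConjugate BigOperators

noncomputable section

namespace Pool.Agent.Lib.H46O

open Pool.Agent.Lib.H90Q

private theorem L8_mem {H : Type*} [Group H] [Finite H] (A : Subgroup (MulAut H)) (φ ψ : H → ℂ) :
    ψ ∈ orb A φ ↔ ψ ∈ irrF H ∧ ∃ α ∈ A, ψ = fun y => φ (α y) := by
  unfold orb
  exact Finset.mem_filter

variable {G H : Type*} [Group G] [Group H] [Fintype H]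

/-- Proof. `ι (α y) = n ι y n⁻¹` (`hC.autA`), so `χ (ι (α y)) = χ (ι y)`; substitute `y = α⁻¹ y'` in the sum. -/
theorem dd_one_orb {ι : H →* G} {P : Subgroup G} {x : G} {A : Subgroup (MulAut H)}
    (hC : Cfg ι P x A) {χ : G → ℂ} (hχ : IsChar χ) (φ : H → ℂ) {α : MulAut H} (hα : α ∈ A) :
    dd ι 1 χ (fun y => φ (α y)) = dd ι 1 χ φ := by
  obtain ⟨n, -, hn⟩ := (hC.autA α).1 hα
  unfold dd
  congr 1
  refine Fintype.sum_equiv α.toEquiv _ _ fun y => ?_
  have h1 : χ (1 * ι (α y)) = χ (1 * ι y) := by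
    rw [one_mul, one_mul, hn y, char_conj hχ]
  show χ (1 * ι y) * conj (φ (α y)) = χ (1 * ι (α y)) * conj (φ (α y))
  rw [h1]

/-- Membership in the orbit is symmetric: orbits are equal or disjoint. -/
theorem orb_eq [Finite G] {A : Subgroup (MulAut H)} {φ ψ : H → ℂ} (h : ψ ∈ orb A φ) (hφ : IsIrr φ) :
    orb A ψ = orb A φ ∧ φ ∈ orb A φ := by
  rw [L8_mem] at h
  obtain ⟨-, α, hα, rfl⟩ := h
  refine ⟨?_, ?_⟩
  · ext χ
    rw [L8_mem, L8_mem]
    refine and_congr_right fun _ => ⟨?_, ?_⟩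
    · rintro ⟨β, hβ, rfl⟩
      exact ⟨α * β, A.mul_mem hα hβ, rfl⟩
    · rintro ⟨β, hβ, rfl⟩
      refine ⟨α⁻¹ * β, A.mul_mem (A.inv_mem hα) hβ, ?_⟩
      funext y
      show φ (β y) = φ (α ((α⁻¹ * β) y))
      rw [← MulAut.mul_apply, mul_inv_cancel_left]
  · rw [L8_mem]
    exact ⟨mem_irrF.2 hφ, 1, A.one_mem, rfl⟩

/-- Proof. Let `n = χ 1` (`irr_one`) and suppose it is even. For `y : H` let `S = cls (x * ι y)` and `w` from `omega_set`:
`n w = ∑_(k ∈ S) χ k = |S| χ (x ι y)`, `|S|` odd, so `|S| χ (x ι y) / 2 = (n / 2) w` is integral and `χ (x ι y) / 2` is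
integral (`even2_of_odd_mul`, `char_int`). So `|H| dd ι x χ φ = ∑_y χ (x ι y) conj (φ y)` is divisible by two, hence so is
`t |H| dd = |H| m`, an odd integer: contradiction (`even_of_even2`). -/
theorem deg_odd [Fintype G] {ι : H →* G} {P : Subgroup G} {x : G} {A : Subgroup (MulAut H)}
    (hC : Cfg ι P x A) (hcl : ∀ y : H, Odd (cls (x * ι y)).card) {χ : G → ℂ} (hχ : IsIrr χ)
    {φ : H → ℂ} (hφ : IsIrr φ)
    (hφt : ∃ t : ℂ, IsIntegral ℤ t ∧ ∃ m : ℤ, Odd m ∧ t * dd ι x χ φ = m) :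
    ∃ n : ℕ, Odd n ∧ χ 1 = n := by
  obtain ⟨n, hn0, hn⟩ := irr_one hχ
  refine ⟨n, ?_, hn⟩
  by_contra hodd
  rw [Nat.not_odd_iff_even] at hodd
  obtain ⟨r, hr⟩ := hodd
  have hχc : IsChar χ := isChar_of_isIrr hχ
  have hφc : IsChar φ := isChar_of_isIrr hφ
  have hev : ∀ y : H, Even2 (χ (x * ι y)) := by
    intro y
    obtain ⟨w, hw, hw1, -⟩ := omega_set hχ (cls (x * ι y)) (by
      intro a k hk
      unfold cls at hk ⊢
      rw [Finset.mem_filter] at hk ⊢
      exact ⟨Finset.mem_univ _, hk.2.trans (isConj_iff.2 ⟨a, rfl⟩)⟩)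
    have hsum : ∑ k ∈ cls (x * ι y), χ k = (((cls (x * ι y)).card : ℤ) : ℂ) * χ (x * ι y) := by
      have : ∀ k ∈ cls (x * ι y), χ k = χ (x * ι y) := by
        intro k hk
        unfold cls at hk
        rw [Finset.mem_filter] at hk
        obtain ⟨c, hc⟩ := isConj_iff.1 hk.2
        rw [← hc, char_conj hχc]
      rw [Finset.sum_congr rfl this, Finset.sum_const, nsmul_eq_mul]
      push_cast
      rfl
    refine even2_of_odd_mul (m := ((cls (x * ι y)).card : ℤ)) ?_ (char_int hχc _) ?_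
    · exact_mod_cast hcl y
    · unfold Even2
      rw [← hsum, ← hw1, hn, hr]
      have : ((r + r : ℕ) : ℂ) * w / 2 = (r : ℂ) * w := by
        push_cast
        ring
      rw [this]
      have hr' : IsIntegral ℤ (r : ℂ) := by
        have := isIntegral_algebraMap (R := ℤ) (A := ℂ) (x := (r : ℤ))
        simpa using this
      exact hr'.mul hw
  obtain ⟨t, ht, m, hm, htm⟩ := hφt
  have hN : (Nat.card H : ℂ) ≠ 0 := by
    exact_mod_cast Nat.card_pos.ne'
  have hdd : (Nat.card H : ℂ) * dd ι x χ φ = ∑ y : H, χ (x * ι y) * conj (φ y) := by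
    unfold dd
    rw [mul_inv_cancel_left₀ hN]
  have hNm : (((Nat.card H : ℤ) * m : ℤ) : ℂ) = t * ∑ y : H, χ (x * ι y) * conj (φ y) := by
    rw [← hdd]
    push_cast
    rw [← htm]
    ring
  have heven : Even ((Nat.card H : ℤ) * m) := by
    refine even_of_even2 ?_
    unfold Even2
    rw [hNm, mul_div_assoc, Finset.sum_div]
    refine ht.mul (IsIntegral.sum _ fun y _ => ?_)
    have : χ (x * ι y) * conj (φ y) / 2 = χ (x * ι y) / 2 * conj (φ y) := by ring
    rw [this]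
    exact (hev y).mul (int_conj (char_int hφc y))
  have hoddN : Odd ((Nat.card H : ℤ) * m) := by
    refine Odd.mul ?_ hm
    exact_mod_cast hC.odd
  exact (Int.not_even_iff_odd.2 hoddN) heven

end Pool.Agent.Lib.H46O
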