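import Mathlib

/-!
# Project H46O, chunk M1 (M/L): sign matrices with four rows and three orthogonal columns
-/

open scoped Classical BigOperators

noncomputable section

namespace Pool.Agent.Lib.H46O

private theorem M1_unique {α : Type*} (X : Finset α) (hX : X.card = 4) (p q r : α → ℤ)
    (hp : ∀ a ∈ X, p a = 1 ∨ p a = -1) (hq : ∀ a ∈ X, q a = 1 ∨ q a = -1)
    (hr : ∀ a ∈ X, r a = 1 ∨ r a = -1)
    (hpq : ∑ a ∈ X, p a * q a = 0) (hpr : ∑ a ∈ X, p a * r a = 0) (hqr : ∑ a ∈ X, q a * r a = 0)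
    (s t : ℤ) (hs : s = 1 ∨ s = -1) (ht : t = 1 ∨ t = -1) :
    ∃ a, (a ∈ X ∧ p a * q a = s ∧ p a * r a = t) ∧
      ∀ b, (b ∈ X ∧ p b * q b = s ∧ p b * r b = t) → b = a := by
  have hcount : (X.filter (fun a => p a * q a = s ∧ p a * r a = t)).card = 1 := by
    have h1 : ∑ a ∈ X, (1 + s * (p a * q a)) * (1 + t * (p a * r a)) =
        ∑ a ∈ X, if (p a * q a = s ∧ p a * r a = t) then (4 : ℤ) else 0 := by
      refine Finset.sum_congr rfl ?_
      intro a ha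
      rcases hp a ha with h | h <;> rcases hq a ha with h' | h' <;> rcases hr a ha with h'' | h'' <;>
        rcases hs with rfl | rfl <;> rcases ht with rfl | rfl <;> simp [h, h', h'']
    have h2 : ∑ a ∈ X, (1 + s * (p a * q a)) * (1 + t * (p a * r a)) = 4 := by
      have h3 : ∀ a ∈ X, (1 + s * (p a * q a)) * (1 + t * (p a * r a)) =
          1 + s * (p a * q a) + t * (p a * r a) + s * t * (q a * r a) := by
        intro a ha
        have : p a * p a = 1 := by rcases hp a ha with h | h <;> simp [h]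
        linear_combination (s * t * q a * r a) * this
      rw [Finset.sum_congr rfl h3]
      rw [Finset.sum_add_distrib, Finset.sum_add_distrib, Finset.sum_add_distrib,
        ← Finset.mul_sum, ← Finset.mul_sum, ← Finset.mul_sum, hpq, hpr, hqr]
      simp [hX]
    rw [h1, ← Finset.sum_filter, Finset.sum_const, nsmul_eq_mul] at h2
    have h4 : ((X.filter (fun a => p a * q a = s ∧ p a * r a = t)).card : ℤ) = 1 := by linarith
    exact_mod_cast h4
  obtain ⟨a, ha⟩ := Finset.card_eq_one.1 hcount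
  refine ⟨a, ?_, ?_⟩
  · have : a ∈ X.filter (fun a => p a * q a = s ∧ p a * r a = t) := by rw [ha]; simp
    rw [Finset.mem_filter] at this
    exact this
  · intro b hb
    have : b ∈ X.filter (fun a => p a * q a = s ∧ p a * r a = t) := by
      rw [Finset.mem_filter]; exact hb
    rw [ha] at this
    exact Finset.mem_singleton.1 this

/-- Let `O = {o₁, o₂, o₃}`. Proof. For `a ∈ X` put `u a = D a o₁ * D a o₂`, `v a = D a o₁ * D a o₃`; then
`D a o₂ * D a o₃ = u a * v a`, so `∑ u = ∑ v = ∑ u v = 0` over the four elements of `X`: the number of `a` with `(u, v) = (s, t)`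
is `(1/4) ∑ (1 + s u)(1 + t v) = 1`. So `a ↦ (u a, v a)` is a bijection from `X` to `{1, -1}²`; the same for `Y`. Compose;
`ε = D a o₁ * E (f a) o₁`. -/
theorem match_three {α β γ : Type*} (X : Finset α) (Y : Finset β) (O : Finset γ)
    (hO : O.card = 3) (D : α → γ → ℤ) (E : β → γ → ℤ) (hX : X.card = 4) (hY : Y.card = 4)
    (hD : ∀ a ∈ X, ∀ o ∈ O, D a o = 1 ∨ D a o = -1)
    (hE : ∀ b ∈ Y, ∀ o ∈ O, E b o = 1 ∨ E b o = -1)
    (hD0 : ∀ o ∈ O, ∀ o' ∈ O, o ≠ o' → ∑ a ∈ X, D a o * D a o' = 0)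
    (hE0 : ∀ o ∈ O, ∀ o' ∈ O, o ≠ o' → ∑ b ∈ Y, E b o * E b o' = 0) :
    ∃ f : X ≃ Y, ∀ a : X, ∃ ε : ℤ, (ε = 1 ∨ ε = -1) ∧ ∀ o ∈ O, E (f a) o = ε * D a o := by
  classical
  obtain ⟨o₁, o₂, o₃, h12, h13, h23, rfl⟩ := Finset.card_eq_three.1 hO
  have m1 : o₁ ∈ ({o₁, o₂, o₃} : Finset γ) := by simp
  have m2 : o₂ ∈ ({o₁, o₂, o₃} : Finset γ) := by simp
  have m3 : o₃ ∈ ({o₁, o₂, o₃} : Finset γ) := by simp
  have hpm : ∀ x y : ℤ, (x = 1 ∨ x = -1) → (y = 1 ∨ y = -1) → (x * y = 1 ∨ x * y = -1) := by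
    rintro x y (rfl | rfl) (rfl | rfl) <;> simp
  have hUX := M1_unique X hX (fun a => D a o₁) (fun a => D a o₂) (fun a => D a o₃)
    (fun a ha => hD a ha _ m1) (fun a ha => hD a ha _ m2) (fun a ha => hD a ha _ m3)
    (hD0 _ m1 _ m2 h12) (hD0 _ m1 _ m3 h13) (hD0 _ m2 _ m3 h23)
  have hUY := M1_unique Y hY (fun a => E a o₁) (fun a => E a o₂) (fun a => E a o₃)
    (fun a ha => hE a ha _ m1) (fun a ha => hE a ha _ m2) (fun a ha => hE a ha _ m3)
    (hE0 _ m1 _ m2 h12) (hE0 _ m1 _ m3 h13) (hE0 _ m2 _ m3 h23)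
  have hex : ∀ a : X, ∃ b : Y, E b o₁ * E b o₂ = D a o₁ * D a o₂ ∧
      E b o₁ * E b o₃ = D a o₁ * D a o₃ := by
    intro a
    obtain ⟨b, ⟨hb, h1, h2⟩, -⟩ := hUY (D a o₁ * D a o₂) (D a o₁ * D a o₃)
      (hpm _ _ (hD a a.2 _ m1) (hD a a.2 _ m2)) (hpm _ _ (hD a a.2 _ m1) (hD a a.2 _ m3))
    exact ⟨⟨b, hb⟩, h1, h2⟩
  choose f hf1 hf2 using hex
  have hinj : Function.Injective f := by
    intro a a' haa
    obtain ⟨c, -, hc⟩ := hUX (D a o₁ * D a o₂) (D a o₁ * D a o₃)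
      (hpm _ _ (hD a a.2 _ m1) (hD a a.2 _ m2)) (hpm _ _ (hD a a.2 _ m1) (hD a a.2 _ m3))
    have e1 := hc a ⟨a.2, rfl, rfl⟩
    have e2 := hc a' ⟨a'.2, by
      show D a' o₁ * D a' o₂ = D a o₁ * D a o₂
      rw [← hf1 a', ← hf1 a, haa], by
      show D a' o₁ * D a' o₃ = D a o₁ * D a o₃
      rw [← hf2 a', ← hf2 a, haa]⟩
    exact Subtype.ext (e1.trans e2.symm)
  have hbij : Function.Bijective f := by
    rw [Fintype.bijective_iff_injective_and_card]
    refine ⟨hinj, ?_⟩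
    simp [hX, hY]
  refine ⟨Equiv.ofBijective f hbij, ?_⟩
  intro a
  refine ⟨D a o₁ * E (f a) o₁, hpm _ _ (hD a a.2 _ m1) (hE (f a) (f a).2 _ m1), ?_⟩
  intro o ho
  have hD1 : D a o₁ * D a o₁ = 1 := by rcases hD a a.2 _ m1 with h | h <;> simp [h]
  have hE1 : E (f a) o₁ * E (f a) o₁ = 1 := by rcases hE (f a) (f a).2 _ m1 with h | h <;> simp [h]
  have k1 := hf1 a
  have k2 := hf2 a
  simp only [Equiv.ofBijective_apply]
  simp only [Finset.mem_insert, Finset.mem_singleton] at ho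
  rcases ho with rfl | rfl | rfl
  · linear_combination (-E (f a) o) * hD1
  · linear_combination (-E (f a) o) * hE1 + (E (f a) o₁) * k1
  · linear_combination (-E (f a) o) * hE1 + (E (f a) o₁) * k2

end Pool.Agent.Lib.H46O
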