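import Pool.Agent.Lib.H46O.L1
import Pool.Agent.Lib.H46O.L3
import Pool.Agent.Lib.H46O.L7
import Pool.Agent.Lib.H46O.L8

/-!
# Project H46O, chunk T1 (M/L): columns and rows for an involution
-/

open scoped Classical ComplexConjugate BigOperators

noncomputable section

namespace Pool.Agent.Lib.H46O

open Pool.Agent.Lib.H90Q

variable {G H : Type*} [Group G] [Fintype G] [Group H] [Fintype H]

/-- Proof. `q = Nat.card P` is `2` or `4` (`1 ≠ x ∈ P`). The entries `dd ι x χ φ` are integers (`dd_two`, `isChar_of_isIrr`);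
`dd_gram` (with `cfg_fus2`, `cfg_cent`): the sum of their squares over `irrF G` is `q`. So `|dd| ≤ 2`, and if some entry is
`± 2` then `q = 4` and all others vanish; then `dd_vanish` with `g = 1` (`cfg_ne_one`) gives `± 2 χ(1) = 0`,
against `irr_one`. So all entries are `0, ± 1` and exactly `q` are not `0`. -/
theorem columns {ι : H →* G} {P : Subgroup G} {x : G} {A : Subgroup (MulAut H)}
    (hC : Cfg ι P x A) (h4 : Nat.card P ∣ 4) (hx : x * x = 1) {φ : H → ℂ} (hφ : IsIrr φ) :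
    (∀ χ ∈ irrF G, dd ι x χ φ = 0 ∨ dd ι x χ φ = 1 ∨ dd ι x χ φ = -1) ∧
      ((irrF G).filter fun χ => dd ι x χ φ ≠ 0).card = Nat.card P := by
  have hcomm : ∀ h : H, x * ι h = ι h * x := hC.commH x hC.mem
  have hex : ∀ χ : G → ℂ, ∃ a : ℤ, χ ∈ irrF G → dd ι x χ φ = (a : ℂ) := by
    intro χ
    by_cases h : χ ∈ irrF G
    · obtain ⟨a, b, h1, -⟩ := dd_two ι x hx hcomm (isChar_of_isIrr (mem_irrF.mp h)) hφ
      refine ⟨(a : ℤ) - b, fun _ => ?_⟩
      rw [h1]
      push_cast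
      rfl
    · exact ⟨0, fun h' => absurd h' h⟩
  choose a ha using hex
  have hgram : ∑ χ ∈ irrF G, (a χ) ^ 2 = (Nat.card P : ℤ) := by
    have h1 := dd_gram ι x hcomm (Nat.card P) (fun y y' h => cfg_fus2 hC h)
      (fun y => cfg_cent hC y) hφ hφ
    rw [if_pos rfl] at h1
    have h2 : ((∑ χ ∈ irrF G, (a χ) ^ 2 : ℤ) : ℂ) = ((Nat.card P : ℤ) : ℂ) := by
      push_cast
      rw [← h1]
      refine Finset.sum_congr rfl fun χ hχ => ?_
      rw [ha χ hχ, map_intCast]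
      ring
    exact_mod_cast h2
  have hq : (Nat.card P : ℤ) ≤ 4 := by
    exact_mod_cast Nat.le_of_dvd (by norm_num) h4
  have hle : ∀ χ ∈ irrF G, (a χ) ^ 2 ≤ 4 := by
    intro χ hχ
    have h1 : (a χ) ^ 2 ≤ ∑ χ ∈ irrF G, (a χ) ^ 2 :=
      Finset.single_le_sum (f := fun χ => (a χ) ^ 2) (fun i _ => sq_nonneg (a i)) hχ
    linarith
  have hne4 : ∀ χ0 ∈ irrF G, (a χ0) ^ 2 ≠ 4 := by
    intro χ0 h0 h
    have hz : ∀ χ ∈ irrF G, χ ≠ χ0 → a χ = 0 := by
      intro χ hχ hne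
      have h3 : (a χ) ^ 2 ≤ ∑ χ ∈ (irrF G).erase χ0, (a χ) ^ 2 :=
        Finset.single_le_sum (f := fun χ => (a χ) ^ 2) (fun i _ => sq_nonneg (a i))
          (Finset.mem_erase.mpr ⟨hne, hχ⟩)
      have h4' : (a χ0) ^ 2 + ∑ χ ∈ (irrF G).erase χ0, (a χ) ^ 2 = ∑ χ ∈ irrF G, (a χ) ^ 2 :=
        Finset.add_sum_erase (irrF G) (fun χ => (a χ) ^ 2) h0
      have h5 : (a χ) ^ 2 ≤ 0 := by linarith
      have h6 : (a χ) ^ 2 = 0 := le_antisymm h5 (sq_nonneg _)
      exact pow_eq_zero_iff (two_ne_zero) |>.mp h6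
    have h5 := dd_vanish ι x 1 (fun y => cfg_ne_one hC y) φ
    rw [Finset.sum_eq_single χ0 (fun χ hχ hne => by rw [ha χ hχ, hz χ hχ hne]; simp)
      (fun h => absurd h0 h), ha χ0 h0] at h5
    obtain ⟨n, hn, hn1⟩ := irr_one (mem_irrF.mp h0)
    rw [hn1, map_natCast] at h5
    have h6 : a χ0 * (n : ℤ) = 0 := by exact_mod_cast h5
    rcases mul_eq_zero.mp h6 with h7 | h7
    · rw [h7] at h
      norm_num at h
    · have : n = 0 := by exact_mod_cast h7
      omega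
  have hval : ∀ χ ∈ irrF G, a χ = 0 ∨ a χ = 1 ∨ a χ = -1 := by
    intro χ hχ
    have h1 := hle χ hχ
    have h2 := hne4 χ hχ
    have h3 : a χ ≤ 2 := by nlinarith
    have h4 : -2 ≤ a χ := by nlinarith
    generalize a χ = z at *
    interval_cases z
    · norm_num at h2
    · right; right; rfl
    · left; rfl
    · right; left; rfl
    · norm_num at h2
  refine ⟨fun χ hχ => ?_, ?_⟩
  · rw [ha χ hχ]
    rcases hval χ hχ with h | h | h
    · left; rw [h]; norm_num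
    · right; left; rw [h]; norm_num
    · right; right; rw [h]; norm_num
  · have h1 : ((((irrF G).filter fun χ => dd ι x χ φ ≠ 0).card : ℕ) : ℤ) = (Nat.card P : ℤ) := by
      rw [← hgram, Finset.card_filter]
      push_cast
      refine Finset.sum_congr rfl fun χ hχ => ?_
      rw [ha χ hχ]
      rcases hval χ hχ with h | h | h
      · rw [h]; simp
      · rw [h]; simp
      · rw [h]; simp
    exact_mod_cast h1

/-- Proof. `dd ι x χ φ = ± 1` (`columns`). If `dd ι x χ ψ ≠ 0` it is `± 1` too, and `orb_of_odd` (`t = 1`) gives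
`ψ ∈ orb A φ`. Conversely let `ψ = φ ∘ α`: `dd ι 1 χ ψ = dd ι 1 χ φ` (`dd_one_orb`), and by `dd_two` the integers
`dd ι x χ φ = a - b` and `dd ι 1 χ φ = a + b` have the same parity, the same for `ψ`: `dd ι x χ ψ` is odd, so not `0`. -/
theorem rows {ι : H →* G} {P : Subgroup G} {x : G} {A : Subgroup (MulAut H)}
    (hC : Cfg ι P x A) (h4 : Nat.card P ∣ 4) (hx : x * x = 1) {χ : G → ℂ} (hχ : IsIrr χ)
    {φ ψ : H → ℂ} (hφ : IsIrr φ) (hψ : IsIrr ψ) (h : dd ι x χ φ ≠ 0) :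
    dd ι x χ ψ ≠ 0 ↔ ψ ∈ orb A φ := by
  have hcomm : ∀ h : H, x * ι h = ι h * x := hC.commH x hC.mem
  have hcol := (columns hC h4 hx hφ).1 χ (mem_irrF.mpr hχ)
  have hunit : ∀ θ : H → ℂ, (dd ι x χ θ = 1 ∨ dd ι x χ θ = -1) →
      ∃ t : ℂ, IsIntegral ℤ t ∧ ∃ m : ℤ, Odd m ∧ t * dd ι x χ θ = m := by
    rintro θ (h | h)
    · exact ⟨1, isIntegral_one, 1, odd_one, by rw [h]; norm_num⟩
    · exact ⟨1, isIntegral_one, -1, odd_one.neg, by rw [h]; norm_num⟩
  have hφ1 : dd ι x χ φ = 1 ∨ dd ι x χ φ = -1 := by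
    rcases hcol with h' | h' | h'
    · exact absurd h' h
    · exact Or.inl h'
    · exact Or.inr h'
  constructor
  · intro hne
    have hψ1 : dd ι x χ ψ = 1 ∨ dd ι x χ ψ = -1 := by
      rcases (columns hC h4 hx hψ).1 χ (mem_irrF.mpr hχ) with h' | h' | h'
      · exact absurd h' hne
      · exact Or.inl h'
      · exact Or.inr h'
    exact orb_of_odd hC hχ hφ hψ (hunit φ hφ1) (hunit ψ hψ1)
  · intro hmem h0
    have hmem' := hmem
    simp only [orb, Finset.mem_filter] at hmem'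
    obtain ⟨-, α, hα, hψα⟩ := hmem'
    have h1 := dd_one_orb hC (isChar_of_isIrr hχ) φ hα
    rw [← hψα] at h1
    obtain ⟨a, b, e1, e2⟩ := dd_two ι x hx hcomm (isChar_of_isIrr hχ) hφ
    obtain ⟨a', b', e3, e4⟩ := dd_two ι x hx hcomm (isChar_of_isIrr hχ) hψ
    rw [e2, e4] at h1
    have h2 : a' + b' = a + b := by exact_mod_cast h1
    rw [e3] at h0
    have h3 : a' = b' := by
      have : (a' : ℂ) = b' := sub_eq_zero.mp h0
      exact_mod_cast this
    rw [e1] at hφ1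
    rcases hφ1 with h4 | h4
    · have h5 : (a : ℤ) - b = 1 := by exact_mod_cast h4
      omega
    · have h5 : (a : ℤ) - b = -1 := by exact_mod_cast h4
      omega

end Pool.Agent.Lib.H46O
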