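import Pool.Agent.Lib.H46O.E1
import Pool.Agent.Lib.H46O.G3
import Pool.Agent.Lib.H90Q.Concl

/-!
# Project H46O, chunk Z1 (M): the bijection for a picky element different from one
-/

open scoped Classical ComplexConjugate BigOperators

noncomputable section

namespace Pool.Agent.Lib.H46O

open Pool.Agent.Lib.H90Q

variable {G : Type*} [Group G] [Fintype G]

/-- Proof. `cfg_of_picky` gives `H`; `H ≤ N` and `P ≤ N` (`H` centralises `P`; `Subgroup.le_normalizer`); `cfg_normalizer` gives the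
configuration of `N`. `main_two` or `main_four` (`x * x = 1` in `G` iff in `N`), `Nat.card (P.subgroupOf N) = Nat.card P`, and
`main_deg` for both groups. The elements of `SecSet 2 x` are the `x * h`, `h ∈ H` (`odd_iff_mem`; `(orderOf y).Coprime 2 ↔ Odd`); all of
them lie in `N`. -/
theorem z1 (P : Sylow 2 G) (h4 : Nat.card P ∣ 4) {x : G} (hx : x ∈ P) (hx1 : x ≠ 1)
    (hp : ∀ Q : Sylow 2 G, x ∈ Q → Q = P) {N : Subgroup G}
    (hN : N = Subgroup.normalizer ((P : Subgroup G) : Set G)) :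
    SecSet 2 x ⊆ N ∧
    ∃ f : {χ : G → ℂ // IsIrr χ ∧ ∃ g ∈ SecSet 2 x, χ g ≠ 0} ≃
        {ψ : N → ℂ // IsIrr ψ ∧ ∃ g : N, (g : G) ∈ SecSet 2 x ∧ ψ g ≠ 0},
      ∀ χ, ((∀ g : N, (g : G) ∈ SecSet 2 x → χ.1 g = (f χ).1 g) ∨
          ∀ g : N, (g : G) ∈ SecSet 2 x → χ.1 g = -(f χ).1 g) ∧
        (∃ n : ℕ, Odd n ∧ χ.1 1 = n) ∧ ∃ n : ℕ, Odd n ∧ (f χ).1 1 = n := by
  obtain ⟨H, hC⟩ := cfg_of_picky P h4 hx hx1 hp
  have hHc : ∀ u ∈ (P : Subgroup G), ∀ h : H, u * (h : G) = (h : G) * u := hC.commH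
  have hHN : H ≤ N := by
    intro h hh
    rw [hN, Subgroup.mem_normalizer_iff]
    intro g
    have h1 : ∀ u ∈ (P : Subgroup G), h * u * h⁻¹ = u := fun u hu => by
      rw [← hHc u hu ⟨h, hh⟩]
      simp
    constructor
    · intro hg
      rw [h1 g hg]
      exact hg
    · intro hg
      have h2 := h1 _ hg
      have h3 : h * g * h⁻¹ = g := by
        have h4 : h * (h * g * h⁻¹) * h⁻¹ = h * (g) * h⁻¹ := h2
        exact mul_left_cancel (mul_right_cancel h4)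
      rwa [h3] at hg
  have hPN : (P : Subgroup G) ≤ N := by
    rw [hN]
    exact Subgroup.le_normalizer
  have hxP : x ∈ (P : Subgroup G) := hx
  have hC' := cfg_normalizer hxP hC hN hHN hPN
  have hsec : ∀ g : G, g ∈ SecSet 2 x ↔ ∃ h : H, g = x * (h : G) := by
    intro g
    constructor
    · rintro ⟨y, hy, ho, rfl⟩
      exact ⟨⟨y, (odd_iff_mem hC hy).1 (Nat.coprime_two_right.1 ho)⟩, rfl⟩
    · rintro ⟨h, rfl⟩
      have hy : (h : G) * x = x * (h : G) := (hHc x hxP h).symm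
      exact ⟨h, hy, Nat.coprime_two_right.2 ((odd_iff_mem hC hy).2 h.2), rfl⟩
  have hsub : SecSet 2 x ⊆ N := by
    intro g hg
    obtain ⟨h, rfl⟩ := (hsec g).1 hg
    exact N.mul_mem (hPN hxP) (hHN h.2)
  refine ⟨hsub, ?_⟩
  have hPc : Nat.card ((P : Subgroup G).subgroupOf N) = Nat.card (P : Subgroup G) :=
    Nat.card_congr (Subgroup.subgroupOfEquivOfLe hPN).toEquiv
  have hmain : ∃ f : {χ : G → ℂ // IsIrr χ ∧ ∃ y : H, χ (x * H.subtype y) ≠ 0} ≃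
        {ψ : N → ℂ // IsIrr ψ ∧ ∃ y : H, ψ (⟨x, hPN hxP⟩ * Subgroup.inclusion hHN y) ≠ 0},
      ∀ χ, ∃ ε : ℤ, (ε = 1 ∨ ε = -1) ∧
        ∀ y : H, χ.1 (x * H.subtype y) = ε * (f χ).1 (⟨x, hPN hxP⟩ * Subgroup.inclusion hHN y) := by
    by_cases hxx : x * x = 1
    · exact main_two hC hC' h4 hPc hxx (Subtype.ext hxx)
    · exact main_four hC hC' h4 hPc hxx (fun h => hxx (congrArg Subtype.val h))
  obtain ⟨f, hf⟩ := hmain
  have e1 : ∀ χ : G → ℂ, (IsIrr χ ∧ ∃ g ∈ SecSet 2 x, χ g ≠ 0) ↔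
      (IsIrr χ ∧ ∃ y : H, χ (x * H.subtype y) ≠ 0) := by
    intro χ
    refine and_congr_right fun _ => ⟨?_, ?_⟩
    · rintro ⟨g, hg, hne⟩
      obtain ⟨h, rfl⟩ := (hsec g).1 hg
      exact ⟨h, hne⟩
    · rintro ⟨h, hne⟩
      exact ⟨x * (h : G), (hsec _).2 ⟨h, rfl⟩, hne⟩
  have e2 : ∀ ψ : N → ℂ, (IsIrr ψ ∧ ∃ g : N, (g : G) ∈ SecSet 2 x ∧ ψ g ≠ 0) ↔
      (IsIrr ψ ∧ ∃ y : H, ψ (⟨x, hPN hxP⟩ * Subgroup.inclusion hHN y) ≠ 0) := by
    intro ψ
    refine and_congr_right fun _ => ⟨?_, ?_⟩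
    · rintro ⟨g, hg, hne⟩
      obtain ⟨h, hh⟩ := (hsec g).1 hg
      have h5 : g = ⟨x, hPN hxP⟩ * Subgroup.inclusion hHN h := Subtype.ext hh
      exact ⟨h, h5 ▸ hne⟩
    · rintro ⟨h, hne⟩
      exact ⟨_, (hsec _).2 ⟨h, rfl⟩, hne⟩
  refine ⟨(Equiv.subtypeEquivRight e1).trans (f.trans (Equiv.subtypeEquivRight e2).symm), ?_⟩
  intro χ
  obtain ⟨ε, hε, hv⟩ := hf (Equiv.subtypeEquivRight e1 χ)
  have hval : (((Equiv.subtypeEquivRight e1).trans
      (f.trans (Equiv.subtypeEquivRight e2).symm)) χ).1 =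
      (f (Equiv.subtypeEquivRight e1 χ)).1 := rfl
  rw [hval]
  refine ⟨?_, main_deg hC h4 χ.2.1 (Equiv.subtypeEquivRight e1 χ).2.2,
    main_deg hC' (hPc ▸ h4) (f (Equiv.subtypeEquivRight e1 χ)).2.1
      (f (Equiv.subtypeEquivRight e1 χ)).2.2⟩
  rcases hε with rfl | rfl
  · left
    intro g hg
    obtain ⟨h, hh⟩ := (hsec g).1 hg
    have h5 : g = ⟨x, hPN hxP⟩ * Subgroup.inclusion hHN h := Subtype.ext hh
    have h6 := hv h
    rw [h5]
    rw [Int.cast_one, one_mul] at h6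
    exact h6
  · right
    intro g hg
    obtain ⟨h, hh⟩ := (hsec g).1 hg
    have h5 : g = ⟨x, hPN hxP⟩ * Subgroup.inclusion hHN h := Subtype.ext hh
    have h6 := hv h
    rw [h5]
    rw [Int.cast_neg, Int.cast_one, neg_one_mul] at h6
    exact h6

end Pool.Agent.Lib.H46O
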