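import Pool.Agent.Lib.H46O.Z1

/-!
# Project H46O, chunk Z2 (M): ambient style
-/

open scoped Classical ComplexConjugate BigOperators

noncomputable section

namespace Pool.Agent.Lib.H46O

open Pool.Agent.Lib.H90Q

variable {G : Type*} [Group G] [Fintype G]

/-- Characters of the subgroup `⊤` are the characters of `G`. (Compose the representation with `Subgroup.topEquiv` and
back: `isIrr_comp`.) -/
theorem irrS_top {χ : G → ℂ} : χ ∈ IrrS (⊤ : Subgroup G) ↔ IsIrr χ := by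
  constructor
  · rintro ⟨_, h⟩
    exact isIrr_comp (Subgroup.topEquiv (G := G)).symm.toMonoidHom
      (Subgroup.topEquiv (G := G)).symm.surjective h
  · intro h
    refine ⟨fun g hg => absurd (Subgroup.mem_top g) hg, ?_⟩
    exact isIrr_comp (Subgroup.topEquiv (G := G)).toMonoidHom
      (Subgroup.topEquiv (G := G)).surjective h

private theorem z2_isChar {X : Type*} [Group X] {χ : X → ℂ} (h : IsIrr χ) : IsChar χ := by
  obtain ⟨n, ρ, _, hρ⟩ := h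
  exact ⟨n, ρ, hρ⟩

private theorem z2_conj {X : Type*} [Group X] {χ : X → ℂ} (h : IsIrr χ) (a g : X) :
    χ (a * g * a⁻¹) = χ g := by
  obtain ⟨n, ρ, _, rfl⟩ := h
  exact Representation.char_conj ρ g a

/-- Extension by zero. -/
private def z2_ext (N : Subgroup G) (ψ : N → ℂ) : G → ℂ := fun g => if h : g ∈ N then ψ ⟨g, h⟩ else 0

private theorem z2_ext_mem {N : Subgroup G} (ψ : N → ℂ) {g : G} (h : g ∈ N) :
    z2_ext N ψ g = ψ ⟨g, h⟩ := dif_pos h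

private theorem z2_ext_res {N : Subgroup G} (ψ : N → ℂ) : (fun h : N => z2_ext N ψ h) = ψ := by
  funext h
  exact z2_ext_mem ψ h.2

private theorem z2_res_ext {N : Subgroup G} (φ : G → ℂ) (h0 : ∀ g, g ∉ N → φ g = 0) :
    z2_ext N (fun h : N => φ h) = φ := by
  funext g
  by_cases h : g ∈ N
  · rw [z2_ext_mem _ h]
  · rw [h0 g h]
    exact dif_neg h

/-- Proof. From `z1`. For `χ` irreducible with a value that is not zero on `SecSet 2 x` let `F χ g = (f χ) ⟨g, _⟩` for `g ∈ N` and `0` for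
`g ∉ N`; for all other functions anything. `IrrOn ⊤ S = {χ | IsIrr χ ∧ ∃ g ∈ SecSet 2 x, χ g ≠ 0}` because `S ⊆ SecSet 2 x` meets every
class of `C_G(x)` on `SecSet 2 x` (`IsReps`), and `χ` is a class function (`char_conj`); the same for `IrrOn N S`, as `C_G(x) ≤ N` (elements
`c` commuting with `x` normalise `P`: `g1_le`). `BijOn`: `Set.BijOn` from the equivalence (extension by zero is
injective and every element of `IrrS N` is such an extension). The last clause is `bijOn_of_sign` with `SubG x = N`. Degrees: both odd, so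
`padicValNat 2 = 0`. -/
theorem z2 (P : Sylow 2 G) (h4 : Nat.card P ∣ 4) {x : G} (hx : x ∈ P) (hx1 : x ≠ 1)
    (hp : ∀ Q : Sylow 2 G, x ∈ Q → Q = P)
    (hSub : SubG x = Subgroup.normalizer ((P : Subgroup G) : Set G)) {S : Set G}
    (hS : IsReps 2 x S) : Q1Sharp 2 x S := by
  obtain ⟨hsub, f, hf⟩ := z1 P h4 hx hx1 hp (N := Subgroup.normalizer ((P : Subgroup G) : Set G)) rfl
  have hCN : ∀ c : G, c * x = x * c → c ∈ Subgroup.normalizer ((P : Subgroup G) : Set G) :=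
    fun c hc => g1_le P hx hp hc
  generalize hN : Subgroup.normalizer ((P : Subgroup G) : Set G) = N at hsub f hf hCN hSub
  have hA : ∀ χ : G → ℂ, χ ∈ IrrOn ⊤ S ↔ IsIrr χ ∧ ∃ g ∈ SecSet 2 x, χ g ≠ 0 := by
    intro χ
    constructor
    · rintro ⟨h1, g, hg, hne⟩
      exact ⟨irrS_top.1 h1, g, hS.1 hg, hne⟩
    · rintro ⟨h1, g, hg, hne⟩
      obtain ⟨s, ⟨hs, c, hc, hsc⟩, _⟩ := hS.2 g hg
      refine ⟨irrS_top.2 h1, s, hs, ?_⟩
      rw [hsc, z2_conj h1]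
      exact hne
  have hB : ∀ φ : G → ℂ, φ ∈ IrrOn N S ↔ (∀ g, g ∉ N → φ g = 0) ∧ IsIrr (fun h : N => φ h) ∧
      ∃ g : N, (g : G) ∈ SecSet 2 x ∧ (fun h : N => φ h) g ≠ 0 := by
    intro φ
    constructor
    · rintro ⟨⟨h0, h1⟩, g, hg, hne⟩
      exact ⟨h0, h1, ⟨g, hsub (hS.1 hg)⟩, hS.1 hg, hne⟩
    · rintro ⟨h0, h1, g, hg, hne⟩
      obtain ⟨s, ⟨hs, c, hc, hsc⟩, _⟩ := hS.2 g hg
      refine ⟨⟨h0, h1⟩, s, hs, ?_⟩
      have h2 : φ (c * (g : G) * c⁻¹) = φ g := z2_conj h1 ⟨c, hCN c hc⟩ g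
      rw [hsc, h2]
      exact hne
  let F : (G → ℂ) → (G → ℂ) := fun χ =>
    if h : IsIrr χ ∧ ∃ g ∈ SecSet 2 x, χ g ≠ 0 then z2_ext N (f ⟨χ, h⟩).1 else 0
  have hF : ∀ (χ : G → ℂ) (h : IsIrr χ ∧ ∃ g ∈ SecSet 2 x, χ g ≠ 0),
      F χ = z2_ext N (f ⟨χ, h⟩).1 := fun χ h => dif_pos h
  have hext : Function.Injective (z2_ext N) := by
    intro ψ ψ' h
    rw [← z2_ext_res ψ, ← z2_ext_res ψ', h]
  have h1N : Set.BijOn F (IrrOn ⊤ S) (IrrOn N S) := by
    refine ⟨?_, ?_, ?_⟩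
    · intro χ hχ
      have hχ' := (hA χ).1 hχ
      rw [hF χ hχ', hB]
      refine ⟨fun g hg => dif_neg hg, ?_, ?_⟩
      · rw [z2_ext_res]
        exact (f ⟨χ, hχ'⟩).2.1
      · rw [z2_ext_res]
        exact (f ⟨χ, hχ'⟩).2.2
    · intro χ hχ χ' hχ2 h
      have hχ' := (hA χ).1 hχ
      have hχ2' := (hA χ').1 hχ2
      rw [hF χ hχ', hF χ' hχ2'] at h
      have h2 := f.injective (Subtype.ext (hext h))
      exact congrArg Subtype.val h2
    · intro φ hφ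
      obtain ⟨h0, h1, h2⟩ := (hB φ).1 hφ
      let ψ : {ψ : N → ℂ // IsIrr ψ ∧ ∃ g : N, (g : G) ∈ SecSet 2 x ∧ ψ g ≠ 0} :=
        ⟨fun h : N => φ h, h1, h2⟩
      have h3 := (f.symm ψ).2
      refine ⟨(f.symm ψ).1, (hA _).2 h3, ?_⟩
      rw [hF _ h3]
      have h4 : (⟨(f.symm ψ).1, h3⟩ : {χ : G → ℂ // IsIrr χ ∧ ∃ g ∈ SecSet 2 x, χ g ≠ 0}) =
          f.symm ψ := rfl
      rw [h4, Equiv.apply_symm_apply]
      exact z2_res_ext φ h0
  have h1 : Set.BijOn F (IrrOn ⊤ S) (IrrOn (SubG x) S) := by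
    rw [hSub]
    exact h1N
  have hdeg : ∀ χ ∈ IrrOn ⊤ S, ∃ m n : ℕ, χ 1 = m ∧ F χ 1 = n ∧
      padicValNat 2 m = padicValNat 2 n := by
    intro χ hχ
    have hχ' := (hA χ).1 hχ
    obtain ⟨_, ⟨m, hm, hm1⟩, n, hn, hn1⟩ := hf ⟨χ, hχ'⟩
    refine ⟨m, n, hm1, ?_, ?_⟩
    · rw [hF χ hχ', z2_ext_mem _ (one_mem N)]
      exact hn1
    · rw [padicValNat.eq_zero_of_not_dvd, padicValNat.eq_zero_of_not_dvd]
      · intro h
        exact (Nat.not_even_iff_odd.2 hn) (even_iff_two_dvd.2 h)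
      · intro h
        exact (Nat.not_even_iff_odd.2 hm) (even_iff_two_dvd.2 h)
  have hsign : ∀ χ ∈ IrrOn ⊤ S, (∀ g ∈ S, χ g = F χ g) ∨ ∀ g ∈ S, χ g = -F χ g := by
    intro χ hχ
    have hχ' := (hA χ).1 hχ
    rcases (hf ⟨χ, hχ'⟩).1 with h | h
    · refine Or.inl fun g hg => ?_
      rw [hF χ hχ', z2_ext_mem _ (hsub (hS.1 hg))]
      exact h ⟨g, hsub (hS.1 hg)⟩ (hS.1 hg)
    · refine Or.inr fun g hg => ?_
      rw [hF χ hχ', z2_ext_mem _ (hsub (hS.1 hg))]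
      exact h ⟨g, hsub (hS.1 hg)⟩ (hS.1 hg)
  refine ⟨F, h1, hdeg, hsign, bijOn_of_sign h1 fun χ hχ g hg => ?_⟩
  rcases hsign χ hχ with h | h
  · exact Or.inl (h g hg)
  · exact Or.inr (h g hg)

end Pool.Agent.Lib.H46O
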