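import Pool.Agent.Lib.H46O.Z2
import Pool.Agent.Lib.H90Q.GT3

/-!
# Project H46O, chunk Z3 (S/M): the theorem
-/

open scoped Classical ComplexConjugate BigOperators

noncomputable section

namespace Pool.Agent.Lib.H46O

open Pool.Agent.Lib.H90Q

variable {G : Type*} [Group G] [Fintype G]

/-- `Sub_G(1) = G`: `⟨1⟩` is normal in every subgroup, so `SubSet 1` is everything. -/
theorem subG_one : SubG (1 : G) = ⊤ := by
  have h1 : SubSet (1 : G) = Set.univ := by
    refine Set.eq_univ_of_forall fun g => ?_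
    change ((Subgroup.zpowers (1 : G)).subgroupOf (Subgroup.closure {1, g})).IsSubnormal
    rw [Subgroup.zpowers_one_eq_bot, Subgroup.bot_subgroupOf]
    exact Subgroup.Normal.isSubnormal inferInstance
  unfold SubG
  rw [h1, Subgroup.closure_univ]

/-- `x = 1`: take `f = id`; degrees are natural numbers (`irr_one` through `irrS_top`). -/
theorem z3_one {S : Set G} : Q1Sharp 2 (1 : G) S := by
  have hid : ∀ T : Set G, Set.BijOn (id : (G → ℂ) → (G → ℂ)) (IrrOn ⊤ T) (IrrOn (SubG (1 : G)) T) := by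
    intro T
    rw [subG_one]
    exact Set.bijOn_id _
  refine ⟨id, hid S, ?_, ?_, fun g _ => hid {g}⟩
  · intro χ hχ
    obtain ⟨n, _, hn⟩ := irr_one (irrS_top.1 hχ.1)
    exact ⟨n, n, hn, hn, rfl⟩
  · intro χ _
    exact Or.inl fun g _ => rfl

/-- Proof. If `x = 1`: `z3_one`. Otherwise `Picky 2 x` and `x ∈ P` give `hp`; `P` is abelian (`g1_comm`), so
`SubG x = N_G(P)` (`H90Q/GT3.lean`), and `z2` applies. -/
theorem q1_sylow_le_four (P : Sylow 2 G) (h4 : Nat.card P ∣ 4) {x : G} (hx : x ∈ P)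
    (hp : Picky 2 x) {S : Set G} (hS : IsReps 2 x S) : Q1Sharp 2 x S := by
  by_cases hx1 : x = 1
  · subst hx1
    exact z3_one
  · exact z2 P h4 hx hx1 (fun Q hQ => hp.unique hQ hx)
      (gt3_subG Nat.prime_two hp P hx fun a ha b hb => g1_comm (P : Subgroup G) h4 ha hb) hS

end Pool.Agent.Lib.H46O
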